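import Pool.Agent.Helper25.PH.Stable

/-! Module PH-2: selections give a solution of the constraint satisfaction instance -/

set_option autoImplicit false
set_option linter.all false

namespace Pool.Agent.Helper25.PH

/-- every nonempty set with at most `K` elements is the range of a `K`-tuple -/
theorem exists_tuple {J : Type} [Finite J] {K : ℕ} (T : Set J) (hT : T.Nonempty)
    (hK : T.ncard ≤ K) : ∃ b : Fin K → J, Set.range b = T := by
  classical
  obtain ⟨x0, hx0⟩ := hT
  have e : T ≃ Fin T.ncard := by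
    have h := Finite.equivFin T
    rwa [Nat.card_coe_set_eq] at h
  refine ⟨fun i => if h : (i : ℕ) < T.ncard then (e.symm ⟨i, h⟩ : T) else x0, ?_⟩
  ext y
  constructor
  · rintro ⟨i, rfl⟩
    dsimp only
    split_ifs with h
    · exact (e.symm ⟨i, h⟩).2
    · exact hx0
  · intro hy
    refine ⟨⟨e ⟨y, hy⟩, lt_of_lt_of_le (e ⟨y, hy⟩).2 hK⟩, ?_⟩
    dsimp only
    rw [dif_pos (e ⟨y, hy⟩).2]
    simp

/-- PH-2. If the homomorphisms from powers of the thick cycle to `E` have nonempty bounded
selections `NT`, compatible with minors and adjacency, then a homomorphism from the gap graph to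
`E` gives a solution. -/
theorem sound_core {V J Λ : Type} [Finite J] [Finite Λ] (E : V → V → Prop) (M B : ℕ)
    (NT : ∀ (F : Type), ((F → ZMod M) → V) → F → Prop)
    (hne : ∀ (F : Type) [Finite F] (f : (F → ZMod M) → V), IsHom (PThick M F) E f →
      ∃ i, NT F f i)
    (hbd : ∀ (F : Type) [Finite F] (f : (F → ZMod M) → V), IsHom (PThick M F) E f →
      ∀ S : Finset F, (∀ i ∈ S, NT F f i) → S.card ≤ B)
    (hc : ∀ (F F' : Type) [Finite F] [Finite F'] (f : (F → ZMod M) → V)
      (f' : (F' → ZMod M) → V) (π : F' → F), IsHom (PThick M F) E f → IsHom (PThick M F') E f' →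
      (∀ (y : F → ZMod M) (z : F' → ZMod M), PThick M F' (fun s => y (π s)) z →
        E (f y) (f' z)) →
      ∀ t, NT F f t → ∃ s, π s = t ∧ NT F' f' s)
    (R : J → Λ → J → Λ → Prop) (h : HomTo (Gap R M (2 * B + 1)) E) :
    ∃ σ : J → Λ, ∀ x y, R x (σ x) y (σ y) := by
  classical
  rcases isEmpty_or_nonempty J with hJ | hJ
  · exact ⟨fun x => (hJ.false x).elim, fun x => (hJ.false x).elim⟩
  obtain ⟨h, hh⟩ := h
  -- the functions `f a`
  set ext : ∀ a : Fin (2 * B + 1) → J, ({s // Valid R a s} → ZMod M) →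
      (Fin (2 * B + 1) → Λ) → ZMod M :=
    fun a y s => if hs : Valid R a s then y ⟨s, hs⟩ else 0 with hext
  have hext' : ∀ (a : Fin (2 * B + 1) → J) (y : {s // Valid R a s} → ZMod M)
      (s : Fin (2 * B + 1) → Λ) (hs : Valid R a s), ext a y s = y ⟨s, hs⟩ :=
    fun a y s hs => dif_pos hs
  set f : ∀ a : Fin (2 * B + 1) → J, ({s // Valid R a s} → ZMod M) → V :=
    fun a y => h (a, ext a y) with hf
  have hhom : ∀ a, IsHom (PThick M {s // Valid R a s}) E (f a) := by
    intro a y z hyz
    refine hh _ _ ⟨fun i => ⟨i, rfl⟩, fun s s' hs' hs hag => ?_⟩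
    have he : s' = s := funext fun i => hag i i rfl
    subst he
    show Thick M (ext a y s') (ext a z s')
    rw [hext' a y s' hs, hext' a z s' hs]
    exact hyz ⟨s', hs⟩
  -- restriction
  have hπ : ∀ a b : Fin (2 * B + 1) → J, Set.range a ⊆ Set.range b →
      ∃ π : {s // Valid R b s} → {s // Valid R a s},
        ∀ s i j, a i = b j → (π s).1 i = s.1 j := by
    intro a b hab
    have h1 : ∀ i, ∃ j, b j = a i := fun i => hab ⟨i, rfl⟩
    choose j hj using h1
    refine ⟨fun s => ⟨fun i => s.1 (j i), fun i i' => ⟨fun hi => ?_, ?_⟩⟩, fun s i k hik => ?_⟩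
    · exact (s.2 (j i) (j i')).1 (by rw [hj, hj, hi])
    · have := (s.2 (j i) (j i')).2
      rwa [hj, hj] at this
    · exact (s.2 (j i) k).1 (by rw [hj, hik])
  choose π hπs using hπ
  have hcomp : ∀ (a b : Fin (2 * B + 1) → J) (hab : Set.range a ⊆ Set.range b)
      (t : {s // Valid R a s}), NT _ (f a) t → ∃ s, π a b hab s = t ∧ NT _ (f b) s := by
    intro a b hab t ht
    refine hc _ _ (f a) (f b) (π a b hab) (hhom a) (hhom b) (fun y z hyz => ?_) t ht
    refine hh _ _ ⟨fun i => ?_, fun s s' hs' hs hag => ?_⟩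
    · obtain ⟨j, hj⟩ := hab ⟨i, rfl⟩
      exact ⟨j, hj.symm⟩
    · show Thick M (ext a y s') (ext b z s)
      rw [hext' a y s' hs', hext' b z s hs]
      have h1 := hyz ⟨s, hs⟩
      have he : π a b hab ⟨s, hs⟩ = ⟨s', hs'⟩ := by
        apply Subtype.ext
        funext i
        obtain ⟨j, hj⟩ := hab ⟨i, rfl⟩
        rw [hπs a b hab ⟨s, hs⟩ i j hj.symm]
        exact (hag i j hj.symm).symm
      rw [← he]
      exact h1
  -- the selections
  set I : ∀ a : Fin (2 * B + 1) → J, Set {s // Valid R a s} := fun a => {t | NT _ (f a) t} with hI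
  have hIfin : ∀ a, (I a).Finite := fun a => Set.toFinite _
  have hsub : ∀ (a b : Fin (2 * B + 1) → J) (hab : Set.range a ⊆ Set.range b),
      I a ⊆ π a b hab '' I b := by
    intro a b hab t ht
    obtain ⟨s, hs, hs'⟩ := hcomp a b hab t ht
    exact ⟨s, hs', hs⟩
  obtain ⟨a, ha, hst⟩ := stable B (fun a => (I a).ncard)
    (fun a => by
      obtain ⟨i, hi⟩ := hne _ (f a) (hhom a)
      exact Nat.succ_le_of_lt ((Set.ncard_pos (hIfin a)).2 ⟨i, hi⟩))
    (fun a => by
      have h1 := hbd _ (f a) (hhom a) (hIfin a).toFinset (fun i hi => by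
        rw [Set.Finite.mem_toFinset] at hi
        exact hi)
      rwa [← Set.ncard_eq_toFinset_card (I a) (hIfin a)] at h1)
    (fun a b hab => (Set.ncard_le_ncard (hsub a b hab) ((hIfin b).image _)).trans
      (Set.ncard_image_le (hIfin b)))
  obtain ⟨t0, ht0⟩ := hne _ (f a) (hhom a)
  -- uniqueness
  have huniq : ∀ (b : Fin (2 * B + 1) → J) (hab : Set.range a ⊆ Set.range b),
      (Set.range b).ncard ≤ (Set.range a).ncard + 2 →
      ∀ s ∈ I b, ∀ s' ∈ I b, π a b hab s = t0 → π a b hab s' = t0 → s = s' := by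
    intro b hab hb s hs s' hs' h1 h2
    have h3 : (I b).ncard = (I a).ncard := hst b hab hb
    have h4 : (π a b hab '' I b).ncard = (I b).ncard := by
      refine le_antisymm (Set.ncard_image_le (hIfin b)) ?_
      rw [h3]
      exact Set.ncard_le_ncard (hsub a b hab) ((hIfin b).image _)
    have h5 := Set.injOn_of_ncard_image_eq h4 (hIfin b)
    exact h5 hs hs' (h1.trans h2.symm)
  -- the extensions of the tuple
  have hane : (Set.range a).Nonempty := Set.range_nonempty a
  have hbx : ∀ x, ∃ b : Fin (2 * B + 1) → J, Set.range b = insert x (Set.range a) := by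
    intro x
    refine exists_tuple _ ⟨x, Set.mem_insert _ _⟩ ?_
    have := Set.ncard_insert_le x (Set.range a)
    omega
  choose bx hbx using hbx
  have hax : ∀ x, Set.range a ⊆ Set.range (bx x) := fun x => by
    rw [hbx x]
    exact Set.subset_insert _ _
  have hsx : ∀ x, ∃ s, π a (bx x) (hax x) s = t0 ∧ NT _ (f (bx x)) s :=
    fun x => hcomp a (bx x) (hax x) t0 ht0
  choose sx hsx1 hsx2 using hsx
  have hpx : ∀ x, ∃ j, bx x j = x := fun x => by
    have : x ∈ Set.range (bx x) := by
      rw [hbx x]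
      exact Set.mem_insert _ _
    exact this
  choose px hpx using hpx
  refine ⟨fun x => (sx x).1 (px x), fun x y => ?_⟩
  obtain ⟨b, hb⟩ : ∃ b : Fin (2 * B + 1) → J, Set.range b = insert x (insert y (Set.range a)) := by
    refine exists_tuple _ ⟨x, Set.mem_insert _ _⟩ ?_
    have h1 := Set.ncard_insert_le x (insert y (Set.range a))
    have h2 := Set.ncard_insert_le y (Set.range a)
    omega
  have hab : Set.range a ⊆ Set.range b := by
    rw [hb]
    exact (Set.subset_insert _ _).trans (Set.subset_insert _ _)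
  have hbc : (Set.range b).ncard ≤ (Set.range a).ncard + 2 := by
    rw [hb]
    have h1 := Set.ncard_insert_le x (insert y (Set.range a))
    have h2 := Set.ncard_insert_le y (Set.range a)
    omega
  obtain ⟨s, hs1, hs2⟩ := hcomp a b hab t0 ht0
  have hval : ∀ z, Set.range (bx z) ⊆ Set.range b → ∀ j, b j = z → s.1 j = (sx z).1 (px z) := by
    intro z hz j hj
    obtain ⟨s', hs1', hs2'⟩ := hcomp (bx z) b hz (sx z) (hsx2 z)
    have h1 : π a b hab s' = t0 := by
      apply Subtype.ext
      funext i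
      obtain ⟨k, hk⟩ := hax z ⟨i, rfl⟩
      obtain ⟨l, hl⟩ := hab ⟨i, rfl⟩
      rw [hπs a b hab s' i l hl.symm, ← hsx1 z, hπs a (bx z) (hax z) (sx z) i k hk.symm, ← hs1',
        hπs (bx z) b hz s' k l (hk.trans hl.symm)]
    have h2 : s' = s := huniq b hab hbc s' hs2' s hs2 h1 hs1
    rw [← h2, ← hπs (bx z) b hz s' (px z) j ((hpx z).trans hj.symm), hs1']
  obtain ⟨i, hi⟩ : ∃ i, b i = x := by
    have : x ∈ Set.range b := by
      rw [hb]
      exact Set.mem_insert _ _
    exact this
  obtain ⟨j, hj⟩ : ∃ j, b j = y := by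
    have : y ∈ Set.range b := by
      rw [hb]
      exact Set.mem_insert_of_mem _ (Set.mem_insert _ _)
    exact this
  have hxb : Set.range (bx x) ⊆ Set.range b := by
    rw [hbx x, hb]
    exact Set.insert_subset_insert (Set.subset_insert _ _)
  have hyb : Set.range (bx y) ⊆ Set.range b := by
    rw [hbx y, hb]
    exact Set.subset_insert _ _
  have hR := (s.2 i j).2
  rw [hi, hj, hval x hxb i hi, hval y hyb j hj] at hR
  exact hR

end Pool.Agent.Helper25.PH
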