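import Pool.Agent.Helper25.PH.Defs

/-! Module PH-10: slow walks -/

set_option autoImplicit false
set_option linter.all false

namespace Pool.Agent.Helper25.PH

/-- the slow walk: the element of `{t / R, t / R + 1}` with the parity of `t` -/
def kap (R t : ℤ) : ℤ := if Even (t / R - t) then t / R else t / R + 1

/-- PH-10a. -/
theorem kap_even (R t : ℤ) : Even (kap R t - t) := by
  unfold kap
  split_ifs with h
  · exact h
  · rw [Int.not_even_iff_odd] at h
    have e : t / R + 1 - t = (t / R - t) + 1 := by ring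
    rw [e]
    exact h.add_one

/-- PH-10b. -/
theorem kap_le (R t : ℤ) : t / R ≤ kap R t ∧ kap R t ≤ t / R + 1 := by
  unfold kap
  split_ifs with h <;> omega

/-- PH-10c. -/
theorem kap_period (R m t : ℤ) (hR : 0 < R) (hRo : Odd R) (hm : Odd m) :
    kap R (t + m * R) = kap R t + m := by
  have h1 : (t + m * R) / R = t / R + m := Int.add_mul_ediv_right t m hR.ne'
  have h2 : Even (t / R + m - (t + m * R)) ↔ Even (t / R - t) := by
    have e : t / R + m - (t + m * R) = (t / R - t) - m * (R - 1) := by ring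
    have h3 : Even (m * (R - 1)) := (Odd.sub_odd hRo odd_one).mul_left m
    rw [e, Int.even_sub]
    exact ⟨fun h => h.2 h3, fun h => ⟨fun _ => h3, fun _ => h⟩⟩
  unfold kap
  rw [h1]
  simp only [h2]
  split_ifs <;> ring

theorem kap_step_aux (R t t' : ℤ) (hR : 0 < R) (ho : Odd (t' - t)) (h1 : t ≤ t') (h2 : t' ≤ t + R) :
    |kap R t' - kap R t| = 1 := by
  have hq1 : t / R ≤ t' / R := Int.ediv_le_ediv hR h1
  have hq2 : t' / R ≤ t / R + 1 := by
    have := Int.ediv_le_ediv hR h2
    have e : (t + R) / R = t / R + 1 := by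
      have := Int.add_mul_ediv_right t 1 hR.ne'
      rwa [one_mul] at this
    rwa [e] at this
  have hk := kap_le R t
  have hk' := kap_le R t'
  have he : Odd (kap R t' - kap R t) := by
    have e : kap R t' - kap R t = ((kap R t' - t') - (kap R t - t)) + (t' - t) := by ring
    rw [e]
    exact ((kap_even R t').sub (kap_even R t)).add_odd ho
  obtain ⟨k, hk3⟩ := he
  rw [hk3]
  have h3 : k = 0 ∨ k = -1 := by omega
  rcases h3 with rfl | rfl <;> norm_num

/-- PH-10d. -/
theorem kap_step (R t t' : ℤ) (hR : 0 < R) (ho : Odd (t' - t)) (h : |t' - t| ≤ R) :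
    |kap R t' - kap R t| = 1 := by
  rw [abs_le] at h
  rcases le_total t t' with h1 | h1
  · exact kap_step_aux R t t' hR ho h1 (by omega)
  · rw [abs_sub_comm]
    refine kap_step_aux R t' t hR ?_ h1 (by omega)
    have e : t - t' = -(t' - t) := by ring
    rw [e]
    exact ho.neg

theorem kap_period_iter (R m : ℤ) (hR : 0 < R) (hRo : Odd R) (hm : Odd m) (k t : ℤ) :
    kap R (t + k * (m * R)) = kap R t + k * m := by
  induction k using Int.induction_on with
  | zero => simp
  | succ i ih =>
    have e : t + ((i : ℤ) + 1) * (m * R) = (t + i * (m * R)) + m * R := by ring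
    rw [e, kap_period R m _ hR hRo hm, ih]
    ring
  | pred i ih =>
    have e : t + -(i : ℤ) * (m * R) = (t + (-(i : ℤ) - 1) * (m * R)) + m * R := by ring
    rw [e, kap_period R m _ hR hRo hm] at ih
    have e2 : (-(i : ℤ) - 1) * m = -(i : ℤ) * m - m := by ring
    rw [e2]
    omega

/-- PH-10e. The thick cycle of length `7m` maps to the cycle of length `m`. -/
theorem thick_to_cyc (m : ℕ) (hm : Odd m) : HomTo (Thick (m * 7)) (Cyc m) := by
  have hm0 : 0 < m := hm.pos
  haveI : NeZero (m * 7) := ⟨by omega⟩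
  refine ⟨fun x => ((kap 7 (x.val : ℤ) : ℤ) : ZMod m), ?_⟩
  rintro x y ⟨d, hd, hd7, hy⟩
  have h1 : ((y.val : ℤ) : ZMod (m * 7)) = (((x.val : ℤ) + d : ℤ) : ZMod (m * 7)) := by
    push_cast
    rw [ZMod.natCast_zmod_val, ZMod.natCast_zmod_val]
    exact hy
  rw [ZMod.intCast_eq_intCast_iff_dvd_sub] at h1
  obtain ⟨k, hk⟩ := h1
  have h2 : (y.val : ℤ) = ((x.val : ℤ) + d) + (-k) * ((m : ℤ) * 7) := by
    push_cast at hk
    linear_combination -hk
  have h3 := kap_period_iter 7 (m : ℤ) (by norm_num) (by decide) (by exact_mod_cast hm) (-k)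
    ((x.val : ℤ) + d)
  rw [← h2] at h3
  have h4 := kap_step 7 (x.val : ℤ) ((x.val : ℤ) + d) (by norm_num) (by simpa using hd)
    (by simpa using hd7)
  have h5 : ((kap 7 (y.val : ℤ) : ℤ) : ZMod m) = ((kap 7 ((x.val : ℤ) + d) : ℤ) : ZMod m) := by
    rw [h3]
    push_cast
    simp
  show Cyc m _ _
  rw [Cyc]
  simp only
  rw [h5]
  rcases (abs_eq (by norm_num : (0 : ℤ) ≤ 1)).1 h4 with h6 | h6
  · left
    have : kap 7 ((x.val : ℤ) + d) = kap 7 (x.val : ℤ) + 1 := by omega
    rw [this]
    push_cast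
    ring
  · right
    have : kap 7 (x.val : ℤ) = kap 7 ((x.val : ℤ) + d) + 1 := by omega
    rw [this]
    push_cast
    ring

end Pool.Agent.Helper25.PH
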