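import Pool.Agent.Helper25.PH.Omega
import Pool.Agent.Helper53.SC.Cnf
import Pool.Agent.Helper35.AT.T9

/-! Module PH-18: the word of the Mycielskian -/

set_option autoImplicit false
set_option linter.all false

namespace Pool.Agent.Helper25.PH

open Pool.Agent.Helper96

namespace MycWord

/-- the number of vertices -/
def nO (w : List Bool) : ℕ :=
  ((List.range w.length).filter (fun q => decide ((q + 1) * (q + 1) ≤ w.length))).length

/-- the vertices of the Mycielskian; the apex is `(n, 0)` -/
def vt (r n : ℕ) : List (ℕ × ℕ) :=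
  ((List.range n).flatMap fun x => (List.range (r + 1)).map fun i => (x, i)) ++ [(n, 0)]

/-- adjacency -/
def adjb (r n : ℕ) (w : List Bool) (p q : ℕ × ℕ) : Bool :=
  (decide (p.1 = n) && (!decide (q.1 = n) && decide (q.2 = r))) ||
    (!decide (p.1 = n) && ((decide (q.1 = n) && decide (p.2 = r)) ||
      (!decide (q.1 = n) && (w.getD (p.1 * n + q.1) false &&
        ((decide (p.2 = 0) && decide (q.2 = 0)) || (decide (q.2 = p.2 + 1) ||
          decide (p.2 = q.2 + 1)))))))

/-- the word -/
def word (r : ℕ) (w : List Bool) : List Bool :=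
  (vt r (nO w)).flatMap fun v => (vt r (nO w)).map fun u => adjb r (nO w) w v u

theorem mem_vt (r n x i : ℕ) : (x, i) ∈ vt r n ↔ (x < n ∧ i < r + 1) ∨ (x = n ∧ i = 0) := by
  simp only [vt, List.mem_append, List.mem_flatMap, List.mem_range, List.mem_map, Prod.mk.injEq,
    List.mem_singleton]
  constructor
  · rintro (⟨y, hy, j, hj, rfl, rfl⟩ | h)
    · exact Or.inl ⟨hy, hj⟩
    · exact Or.inr h
  · rintro (⟨h1, h2⟩ | h)
    · exact Or.inl ⟨x, h1, i, h2, rfl, rfl⟩
    · exact Or.inr h

theorem code_length (n : ℕ) (A : Fin n → Fin n → Prop) : (code n A).length = n * n := by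
  unfold code
  rw [List.length_flatMap]
  simp

theorem nO_code (n : ℕ) (A : Fin n → Fin n → Prop) : nO (code n A) = n := by
  unfold nO
  rw [code_length]
  apply Pool.Agent.Helper35.AT.t9_count
  · nlinarith
  · intro i hi
    rw [decide_eq_true_eq]
    exact Nat.mul_le_mul hi hi
  · intro i hi _
    rw [decide_eq_false_iff_not, not_le]
    exact Nat.mul_lt_mul'' (by omega) (by omega)

theorem code_getD (n : ℕ) (A : Fin n → Fin n → Prop) (a b : Fin n) :
    (code n A).getD (a.1 * n + b.1) false = true ↔ A a b := by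
  classical
  unfold code
  rw [Pool.Agent.Helper35.AT.t9_getD false n _ (List.finRange n) (by simp) a.1 b.1 (by simp) b.2]
  simp

/-- the graph -/
def gr (r n : ℕ) (w : List Bool) (a b : Fin (vt r n).length) : Prop :=
  adjb r n w ((vt r n).get a) ((vt r n).get b) = true

theorem bool_eq_decide (b : Bool) (p : Prop) [Decidable p] (h : p ↔ b = true) :
    b = decide p := by
  cases b
  · rw [eq_comm, decide_eq_false_iff_not, h]
    simp
  · rw [eq_comm, decide_eq_true_eq, h]

theorem word_eq (r n : ℕ) (w : List Bool) :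
    ((vt r n).flatMap fun v => (vt r n).map fun u => adjb r n w v u) =
      code (vt r n).length (gr r n w) := by
  classical
  unfold code
  have h1 : ∀ (l : List (ℕ × ℕ)),
      l = (List.finRange l.length).map l.get := fun l => by
    rw [← List.ofFn_eq_map, List.ofFn_get]
  have h2 : ((vt r n).flatMap fun v => (vt r n).map fun u => adjb r n w v u) =
      ((List.finRange (vt r n).length).map (vt r n).get).flatMap
        (fun v => ((List.finRange (vt r n).length).map (vt r n).get).map
          fun u => adjb r n w v u) := by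
    rw [← h1 (vt r n)]
  rw [h2, List.flatMap_map]
  congr 1
  funext i
  rw [List.map_map]
  apply List.map_congr_left
  intro j _
  exact bool_eq_decide _ _ Iff.rfl

theorem adjb_tt (r n : ℕ) (A : Fin n → Fin n → Prop) (x y : Fin n) (i j : ℕ) :
    adjb r n (code n A) (x.1, i) (y.1, j) = true ↔
      A x y ∧ ((i = 0 ∧ j = 0) ∨ j = i + 1 ∨ i = j + 1) := by
  have hx : x.1 ≠ n := x.2.ne
  have hy : y.1 ≠ n := y.2.ne
  have := code_getD n A x y
  simp only [adjb, hx, hy, decide_false, Bool.false_and, Bool.false_or, Bool.not_false,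
    Bool.true_and, Bool.and_eq_true, Bool.or_eq_true, decide_eq_true_eq, this]

theorem adjb_tn (r n : ℕ) (w : List Bool) (x : Fin n) (i : ℕ) :
    adjb r n w (x.1, i) (n, 0) = true ↔ i = r := by
  have hx : x.1 ≠ n := x.2.ne
  simp [adjb, hx]

theorem adjb_nt (r n : ℕ) (w : List Bool) (x : Fin n) (i : ℕ) :
    adjb r n w (n, 0) (x.1, i) = true ↔ i = r := by
  have hx : x.1 ≠ n := x.2.ne
  simp [adjb, hx]

theorem adjb_nn (r n : ℕ) (w : List Bool) : ¬ adjb r n w (n, 0) (n, 0) = true := by
  simp [adjb]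

/-- the vertex of the Mycielskian -/
def toM (r n : ℕ) (p : ℕ × ℕ) : Option (Fin n × Fin (r + 1)) :=
  if h : p.1 < n then some (⟨p.1, h⟩, ⟨p.2 % (r + 1), Nat.mod_lt _ (by omega)⟩) else none

theorem homs (r n : ℕ) (A : Fin n → Fin n → Prop) :
    HomTo (gr r n (code n A)) (Myc r A) ∧ HomTo (Myc r A) (gr r n (code n A)) := by
  classical
  constructor
  · refine ⟨fun a => toM r n ((vt r n).get a), ?_⟩
    intro a b hab
    have ha := (mem_vt r n ((vt r n).get a).1 ((vt r n).get a).2).1 (List.get_mem _ a)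
    have hb := (mem_vt r n ((vt r n).get b).1 ((vt r n).get b).2).1 (List.get_mem _ b)
    unfold gr at hab
    change Myc r A (toM r n ((vt r n).get a)) (toM r n ((vt r n).get b))
    revert ha hb hab
    generalize (vt r n).get a = p
    generalize (vt r n).get b = q
    intro h ha hb
    rcases ha with ⟨hp1, hp2⟩ | ⟨hp1, hp2⟩ <;> rcases hb with ⟨hq1, hq2⟩ | ⟨hq1, hq2⟩
    · rw [toM, toM, dif_pos hp1, dif_pos hq1]
      have := (adjb_tt r n A ⟨p.1, hp1⟩ ⟨q.1, hq1⟩ p.2 q.2).1 h
      simp only [Myc, Nat.mod_eq_of_lt hp2, Nat.mod_eq_of_lt hq2]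
      exact this
    · rw [toM, toM, dif_pos hp1, dif_neg (by omega)]
      have e : q = (n, 0) := Prod.ext hq1 hq2
      rw [e] at h
      have := (adjb_tn r n (code n A) ⟨p.1, hp1⟩ p.2).1 h
      simp only [Myc, Nat.mod_eq_of_lt hp2]
      exact this
    · rw [toM, toM, dif_pos hq1, dif_neg (by omega)]
      have e : p = (n, 0) := Prod.ext hp1 hp2
      rw [e] at h
      have := (adjb_nt r n (code n A) ⟨q.1, hq1⟩ q.2).1 h
      simp only [Myc, Nat.mod_eq_of_lt hq2]
      exact this
    · exfalso
      have e : p = (n, 0) := Prod.ext hp1 hp2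
      have e' : q = (n, 0) := Prod.ext hq1 hq2
      rw [e, e'] at h
      exact adjb_nn r n (code n A) h
  · have h1 : ∀ p : Fin n × Fin (r + 1), ∃ a : Fin (vt r n).length,
        (vt r n).get a = (p.1.1, p.2.1) := fun p =>
      List.get_of_mem ((mem_vt r n _ _).2 (Or.inl ⟨p.1.2, p.2.2⟩))
    have h2 : ∃ a : Fin (vt r n).length, (vt r n).get a = (n, 0) :=
      List.get_of_mem ((mem_vt r n _ _).2 (Or.inr ⟨rfl, rfl⟩))
    choose g hg using h1
    obtain ⟨a0, ha0⟩ := h2
    refine ⟨fun u => match u with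
      | some p => g p
      | none => a0, ?_⟩
    intro u v huv
    rcases u with _ | p <;> rcases v with _ | q
    · exact absurd huv (by simp [Myc])
    · change adjb r n (code n A) ((vt r n).get a0) ((vt r n).get (g q)) = true
      rw [ha0, hg q]
      exact (adjb_nt r n (code n A) q.1 q.2.1).2 huv
    · change adjb r n (code n A) ((vt r n).get (g p)) ((vt r n).get a0) = true
      rw [ha0, hg p]
      exact (adjb_tn r n (code n A) p.1 p.2.1).2 huv
    · change adjb r n (code n A) ((vt r n).get (g p)) ((vt r n).get (g q)) = true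
      rw [hg p, hg q]
      exact (adjb_tt r n A p.1 q.1 p.2.1 q.2.1).2 huv

section
variable {α : Type} [Enc α]

theorem poly_nO {w : α → List Bool} (hw : Poly w) : Poly (fun a => nO (w a)) := by
  unfold nO
  refine Poly.length (Poly.filter
    (h := fun a q => decide ((q + 1) * (q + 1) ≤ (w a).length)) (by fun_prop) ?_)
  exact Poly.decide_le (by fun_prop) (by fun_prop)

attribute [local irreducible] nO
attribute [local fun_prop] poly_nO

theorem poly_vt (r : ℕ) {n : α → ℕ} (hn : Poly n) : Poly (fun a => vt r (n a)) := by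
  unfold vt
  refine Poly.append ?_ ?_
  · refine Poly.flatMap (h := fun a x => (List.range (r + 1)).map fun i => (x, i))
      (by fun_prop) ?_
    exact Helper96.Poly.map (h := fun (q : α × ℕ) i => (q.2, i))
      (Helper96.Poly.const _) (by fun_prop)
  · exact Poly.cons (by fun_prop) (Helper96.Poly.const _)

attribute [local irreducible] vt
attribute [local fun_prop] poly_vt

theorem poly_adjb (r : ℕ) {n : α → ℕ} {w : α → List Bool} {p q : α → ℕ × ℕ} (hn : Poly n)
    (hw : Poly w) (hp : Poly p) (hq : Poly q) :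
    Poly (fun a => adjb r (n a) (w a) (p a) (q a)) := by
  unfold adjb
  have h1 : Poly (fun a => (w a).getD ((p a).1 * n a + (q a).1) false) :=
    Poly.listGetD (by fun_prop) (by fun_prop) (Helper96.Poly.const _)
  fun_prop

attribute [local irreducible] adjb

theorem poly_word (r : ℕ) : Poly (word r) := by
  have h : Poly (fun w : List Bool => (vt r (nO w)).flatMap fun v =>
      (vt r (nO w)).map fun u => adjb r (nO w) w v u) := by
    refine Poly.flatMap (h := fun (w : List Bool) v =>
      (vt r (nO w)).map fun u => adjb r (nO w) w v u) (by fun_prop) ?_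
    refine Helper96.Poly.map (h := fun (q : List Bool × (ℕ × ℕ)) u =>
      adjb r (nO q.1) q.1 q.2 u) (f := fun q : List Bool × (ℕ × ℕ) => vt r (nO q.1))
      (by fun_prop) ?_
    exact poly_adjb (α := (List Bool × (ℕ × ℕ)) × (ℕ × ℕ)) r (by fun_prop) (by fun_prop)
      (by fun_prop) (by fun_prop)
  exact h

end

end MycWord

/-- PH-18a. -/
theorem myc_word (r : ℕ) : ∃ f : List Bool → List Bool, Poly f ∧
    ∀ (n : ℕ) (A : Fin n → Fin n → Prop), ∃ (n' : ℕ) (A' : Fin n' → Fin n' → Prop),
      f (code n A) = code n' A' ∧ HomTo A' (Myc r A) ∧ HomTo (Myc r A) A' := by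
  refine ⟨MycWord.word r, MycWord.poly_word r, fun n A => ?_⟩
  refine ⟨(MycWord.vt r n).length, MycWord.gr r n (code n A), ?_, (MycWord.homs r n A).1,
    (MycWord.homs r n A).2⟩
  unfold MycWord.word
  rw [MycWord.nO_code]
  exact MycWord.word_eq r n (code n A)

/-- PH-18b. -/
theorem gmyc_word (rs : List ℕ) : ∃ f : List Bool → List Bool, Poly f ∧
    ∀ (n : ℕ) (A : Fin n → Fin n → Prop), ∃ (n' : ℕ) (A' : Fin n' → Fin n' → Prop),
      f (code n A) = code n' A' ∧ HomTo A' (gmyc rs ⟨Fin n, A⟩).E ∧
        HomTo (gmyc rs ⟨Fin n, A⟩).E A' := by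
  induction rs with
  | nil =>
    exact ⟨fun w => w, Poly.id', fun n A => ⟨n, A, rfl, ⟨id, fun _ _ h => h⟩,
      ⟨id, fun _ _ h => h⟩⟩⟩
  | cons r rs ih =>
    obtain ⟨f, hf, hf'⟩ := ih
    obtain ⟨g, hg, hg'⟩ := myc_word r
    refine ⟨fun w => g (f w), hg.comp hf, fun n A => ?_⟩
    obtain ⟨n1, A1, h1, h2, h3⟩ := hf' n A
    obtain ⟨n2, A2, h4, h5, h6⟩ := hg' n1 A1
    refine ⟨n2, A2, (congrArg g h1).trans h4, ?_, ?_⟩
    · exact h5.trans (myc_map r h2)
    · exact HomTo.trans (myc_map r h3) h6

end Pool.Agent.Helper25.PH
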