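import Pool.Agent.Helper25.PH.Base
import Pool.Agent.Helper25.PH.Slow
import Pool.Agent.Helper25.PH.GapWord
import Pool.Agent.Helper25.PH.MycWord
import Pool.Agent.Helper69.TM.Equiv

/-! Module PH-19: the hardness theorem -/

set_option autoImplicit false
set_option linter.all false

namespace Pool.Agent.Helper25.PH

open Pool.Agent.Helper96

/-- PH-19a. Completeness. -/
theorem gap_complete {J Λ : Type} (R : J → Λ → J → Λ → Prop) (M K : ℕ)
    (h : ∃ σ : J → Λ, ∀ x y, R x (σ x) y (σ y)) : HomTo (Gap R M K) (Thick M) := by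
  obtain ⟨σ, hσ⟩ := h
  refine ⟨fun p => p.2 (fun i => σ (p.1 i)), ?_⟩
  rintro ⟨a, y⟩ ⟨b, z⟩ ⟨-, h2⟩
  refine h2 (fun i => σ (b i)) (fun i => σ (a i)) ?_ ?_ ?_
  · intro i j
    exact ⟨fun e => congrArg σ e, hσ _ _⟩
  · intro i j
    exact ⟨fun e => congrArg σ e, hσ _ _⟩
  · intro i j e
    exact congrArg σ e

theorem noIso_cyc (m : ℕ) : NoIso (cyc m) :=
  ⟨⟨(0 : ZMod m)⟩, fun x => ⟨(show ZMod m from x) + 1, Or.inl rfl⟩⟩

/-- PH-19b. -/
theorem hard {V W : Type} [Finite V] [Finite W] (G : SimpleGraph V) (H : SimpleGraph W)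
    (rs : List ℕ) (m : ℕ) (hm : Odd m) (hG : HomTo (gmyc rs (cyc m)).E G.Adj)
    (hH : ∀ (qs : List ℕ) (l : ℕ), qs.length = rs.length + 2 → Odd l → 3 ≤ l →
      ¬ HomTo (gmyc qs (cyc l)).E H.Adj) : NPHardPCSP G H := by
  have hfin : Fintype W := Fintype.ofFinite W
  obtain ⟨N, hN⟩ := ladder rs W
  have hm0 : m ≠ 0 := by
    rintro rfl
    exact absurd hm (by decide)
  have hM : Odd (m * 7) := hm.mul (by decide)
  have hne : NeZero (m * 7) := ⟨by positivity⟩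
  intro L hL
  obtain ⟨f1, hf1, -, hw⟩ := Pool.Agent.Helper99.SC.sl_cnf L hL
  obtain ⟨g, hg, hgs⟩ := gap_word (m * 7) (2 * BB (m * 7) N + 1)
  obtain ⟨f2, hf2, hf2s⟩ := gmyc_word rs
  refine ⟨fun w => f2 (g (f1 w).2), (Pool.Agent.Helper69.polyTimeFun_iff _).2 ?_, ?_, ?_⟩
  · exact hf2.comp (hg.comp (Poly.snd hf1))
  · intro w hwL
    obtain ⟨n, A, h1, h2, h3⟩ := hgs (f1 w).2
    obtain ⟨n', A', h4, h5, h6⟩ := hf2s n A
    refine ⟨n', A', ?_, ?_⟩
    · change f2 (g (f1 w).2) = _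
      rw [h1, h4]
    · have h7 : HomTo A (Cyc m) :=
        (h2.trans (gap_complete _ _ _ ((cnf_iff _).1 ((hw w).1 hwL)))).trans (thick_to_cyc m hm)
      have h8 : HomTo (gmyc rs ⟨Fin n, A⟩).E (gmyc rs (cyc m)).E :=
        gmyc_map rs (X := ⟨Fin n, A⟩) (Y := cyc m) h7
      exact (h5.trans h8).trans hG
  · intro w hwL
    obtain ⟨n, A, h1, h2, h3⟩ := hgs (f1 w).2
    obtain ⟨n', A', h4, h5, h6⟩ := hf2s n A
    refine ⟨n', A', ?_, ?_⟩
    · change f2 (g (f1 w).2) = _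
      rw [h1, h4]
    · intro hcon
      apply hwL
      rw [hw w, cnf_iff]
      have h8 : HomTo (gmyc rs ⟨_, Gap (fun (x : {x // x ∈ items (f1 w).2}) a y b =>
          Rb (f1 w).2 x.1 a y.1 b = true) (m * 7) (2 * BB (m * 7) N + 1)⟩).E H.Adj :=
        ((gmyc_map rs (X := ⟨_, Gap (fun (x : {x // x ∈ items (f1 w).2}) a y b =>
          Rb (f1 w).2 x.1 a y.1 b = true) (m * 7) (2 * BB (m * 7) N + 1)⟩) (Y := ⟨Fin n, A⟩)
            h3).trans h6).trans hcon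
      obtain ⟨V', hV', E', hcard, hsymm, hX, hZ⟩ := hN H.Adj (fun u v h => h.symm) _ h8
      refine base_sound hM hcard hsymm ?_ _ hX
      intro r r' l hl hl3 h9
      have h10 : NoIso (gmyc [r, r'] (cyc l)) := noIso_gmyc _ (noIso_cyc l)
      have h11 := hZ (gmyc [r, r'] (cyc l)) h10 h9
      rw [← gmyc_append] at h11
      exact hH (rs ++ [r, r']) l (by simp) hl hl3 h11

end Pool.Agent.Helper25.PH
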