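import Pool.Agent.Helper25.PH.Statement

/-!
# Project PH: further definitions
-/

set_option autoImplicit false
set_option linter.all false

namespace Pool.Agent.Helper25.PH

/-- the thick cycle: two vertices are adjacent if their difference is an odd number of absolute
value at most 7 -/
def Thick (M : ℕ) (x y : ZMod M) : Prop := ∃ d : ℤ, Odd d ∧ |d| ≤ 7 ∧ y = x + (d : ZMod M)

/-- the categorical power of the thick cycle -/
def PThick (M : ℕ) (F : Type) (y z : F → ZMod M) : Prop := ∀ j, Thick M (y j) (z j)

/-- the list `g 0, g 1, …, g n` -/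
def pl {W : Type} (g : ℕ → W) (n : ℕ) : List W := (List.range (n + 1)).map g

/-- all pairs of elements of the list (equal elements included) are related -/
def Cl {W : Type} (A : W → W → Prop) (l : List W) : Prop := ∀ a ∈ l, ∀ b ∈ l, A a b

/-- homotopy of paths in the clique complex of the relation `A`: insertion and deletion of
repetitions and of corners of triangles -/
inductive HE {W : Type} (A : W → W → Prop) : List W → List W → Prop
  | refl (P : List W) : HE A P P
  | symm {P Q : List W} : HE A P Q → HE A Q P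
  | trans {P Q R : List W} : HE A P Q → HE A Q R → HE A P R
  | dup (X Y : List W) (a : W) : A a a → HE A (X ++ a :: Y) (X ++ a :: a :: Y)
  | ins (X Y : List W) (a b c : W) : Cl A [a, b, c] →
      HE A (X ++ a :: b :: Y) (X ++ a :: c :: b :: Y)

/-- adjacency of closed walks of length `M` (maps `ZMod M → V`) -/
def AdL {V : Type} {M : ℕ} (E : V → V → Prop) (w w' : ZMod M → V) : Prop :=
  ∀ t, E (w t) (w' (t + 1)) ∧ E (w t) (w' (t - 1))

/-- the closed walk of the function `f` at the point `z` -/
def Psi {V F : Type} {M : ℕ} (f : (F → ZMod M) → V) (z : F → ZMod M) : ZMod M → V :=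
  fun t => f (fun j => 2 * z j + t)

open Classical in
/-- moving the coordinates in the set `A` by `s` -/
noncomputable def mv {F : Type} {M : ℕ} (A : Set F) (s : ℕ) (z : F → ZMod M) : F → ZMod M :=
  fun j => if j ∈ A then z j + (s : ZMod M) else z j

/-- the loop of closed walks in the direction of the set `A` is null-homotopic -/
def LT {V F : Type} {M : ℕ} (E : V → V → Prop) (f : (F → ZMod M) → V) (A : Set F)
    (z : F → ZMod M) : Prop :=
  HE (AdL E) (pl (fun s => Psi f (mv A s z)) M) [Psi f z]

/-- one flip of a path of fixed length -/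
def Flip {W : Type} (A : W → W → Prop) (P Q : List W) : Prop :=
  ∃ (X Y : List W) (a b b' c : W), P = X ++ a :: b :: c :: Y ∧ Q = X ++ a :: b' :: c :: Y ∧
    Cl A [a, b, b'] ∧ Cl A [b, b', c]

/-- flip equivalence -/
def FE {W : Type} (A : W → W → Prop) : List W → List W → Prop :=
  Relation.ReflTransGen (Flip A)

/-- paths: consecutive elements are related, and all elements are related to themselves -/
def IsPath {W : Type} (A : W → W → Prop) (P : List W) : Prop :=
  List.IsChain A P ∧ ∀ a ∈ P, A a a

/-- a filling: a homotopy (parameter `k`) of tori from the rotations of a closed walk `w` of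
length `m` to maps that do not depend on `s` -/
structure Fill {V : Type} (E : V → V → Prop) (m K : ℕ) where
  G : ℕ → ℤ → ℤ → V
  w : ℤ → V
  c : ℤ → V
  perS : ∀ k s t, G k (s + m) t = G k s t
  perT : ∀ k s t, G k s (t + m) = G k s t
  adj : ∀ (k k' : ℕ) (s s' t t' : ℤ), k' ≤ k + 1 → k ≤ k' + 1 → |s - s'| ≤ 1 → |t - t'| = 1 →
    E (G k s t) (G k' s' t')
  bd : ∀ s t, G 0 s t = w (t + 2 * s)
  cen : ∀ k s t, K ≤ k → G k s t = c t

/-- the graph `Ω_{r,h}(E)` -/
def Om (r : ℕ) {V : Type} (h : V) (E : V → V → Prop) (a b : Fin (r + 1) → V) : Prop :=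
  E (a (Fin.last r)) h ∧ E (b (Fin.last r)) h ∧ E (a 0) (b 0) ∧
    ∀ i : Fin r, E (a i.castSucc) (b i.succ) ∧ E (a i.succ) (b i.castSucc)

/-- no isolated vertices -/
def NoIso (X : Gr) : Prop := Nonempty X.V ∧ ∀ x, ∃ y, X.E x y

/-- partial solutions on the tuple `a` -/
def Valid {J Λ : Type} {K : ℕ} (R : J → Λ → J → Λ → Prop) (a : Fin K → J) (s : Fin K → Λ) :
    Prop :=
  ∀ i j, (a i = a j → s i = s j) ∧ R (a i) (s i) (a j) (s j)

/-- the gap graph of the constraint satisfaction instance `R` -/
def Gap {J Λ : Type} (R : J → Λ → J → Λ → Prop) (M K : ℕ)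
    (p q : (Fin K → J) × ((Fin K → Λ) → ZMod M)) : Prop :=
  (∀ i, ∃ j, p.1 i = q.1 j) ∧
    ∀ s s' : Fin K → Λ, Valid R p.1 s' → Valid R q.1 s → (∀ i j, p.1 i = q.1 j → s' i = s j) →
      Thick M (p.2 s') (q.2 s)

end Pool.Agent.Helper25.PH
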