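import Pool.Agent.Helper25.PH.Defs

/-! Module PH-15: the adjunction -/

set_option autoImplicit false
set_option linter.all false

namespace Pool.Agent.Helper25.PH

/-- PH-15a. -/
theorem myc_map (r : ℕ) {V W : Type} {E : V → V → Prop} {D : W → W → Prop} (h : HomTo E D) :
    HomTo (Myc r E) (Myc r D) := by
  obtain ⟨f, hf⟩ := h
  refine ⟨fun p => p.map (fun q => (f q.1, q.2)), ?_⟩
  rintro (_ | u) (_ | v) h
  · exact h
  · exact h
  · exact h
  · exact ⟨hf _ _ h.1, h.2⟩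

/-- PH-15b. -/
theorem gmyc_map (rs : List ℕ) {X Y : Gr} (h : HomTo X.E Y.E) :
    HomTo (gmyc rs X).E (gmyc rs Y).E := by
  induction rs with
  | nil => exact h
  | cons r rs ih => exact myc_map r ih

/-- PH-15c. -/
theorem gmyc_append (rs qs : List ℕ) (X : Gr) : gmyc (rs ++ qs) X = gmyc rs (gmyc qs X) := by
  induction rs with
  | nil => rfl
  | cons r rs ih =>
    show (⟨Option ((gmyc (rs ++ qs) X).V × Fin (r + 1)), Myc r (gmyc (rs ++ qs) X).E⟩ : Gr) = _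
    rw [ih]
    rfl

/-- PH-15d. -/
theorem noIso_gmyc (rs : List ℕ) {X : Gr} (h : NoIso X) : NoIso (gmyc rs X) := by
  induction rs with
  | nil => exact h
  | cons r rs ih =>
    refine ⟨⟨(none : Option ((gmyc rs X).V × Fin (r + 1)))⟩, ?_⟩
    show ∀ x : Option ((gmyc rs X).V × Fin (r + 1)), ∃ y, Myc r (gmyc rs X).E x y
    rintro (_ | ⟨x, i⟩)
    · obtain ⟨y⟩ := ih.1
      exact ⟨some (y, Fin.last r), by simp [Myc]⟩
    · obtain ⟨y, hy⟩ := ih.2 x
      obtain ⟨i, hi⟩ := i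
      cases i with
      | zero => exact ⟨some (y, ⟨0, hi⟩), hy, Or.inl ⟨rfl, rfl⟩⟩
      | succ i => exact ⟨some (y, ⟨i, by omega⟩), hy, Or.inr (Or.inr rfl)⟩

/-- PH-15e. From the Mycielskian to `Ω`. -/
theorem myc_to_om (r : ℕ) {X V : Type} {D : X → X → Prop} {E : V → V → Prop}
    (hE : ∀ u v, E u v → E v u) (h : HomTo (Myc r D) E) : ∃ h : V, HomTo D (Om r h E) := by
  obtain ⟨φ, hφ⟩ := h
  refine ⟨φ none, fun x i => φ (some (x, i)), ?_⟩
  intro u v huv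
  refine ⟨hφ _ _ (show Myc r D (some (u, Fin.last r)) none by simp [Myc]), ?_, ?_, ?_⟩
  · exact hφ _ _ (show Myc r D (some (v, Fin.last r)) none by simp [Myc])
  · exact hφ _ _ (show Myc r D (some (u, 0)) (some (v, 0)) from ⟨huv, Or.inl ⟨rfl, rfl⟩⟩)
  · intro i
    refine ⟨hφ _ _ ?_, hφ _ _ ?_⟩
    · exact ⟨huv, Or.inr (Or.inl (by simp))⟩
    · exact ⟨huv, Or.inr (Or.inr (by simp))⟩

/-- PH-15f. From `Ω` to the Mycielskian. -/
theorem om_to_myc (r : ℕ) {X V : Type} {D : X → X → Prop} {E : V → V → Prop}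
    (hE : ∀ u v, E u v → E v u) (hD : ∀ x, ∃ y, D x y) (h : V) (hh : HomTo D (Om r h E)) :
    HomTo (Myc r D) E := by
  obtain ⟨φ, hφ⟩ := hh
  have hlast : ∀ x, E (φ x (Fin.last r)) h := by
    intro x
    obtain ⟨y, hy⟩ := hD x
    exact (hφ _ _ hy).1
  refine ⟨fun p => match p with
    | none => h
    | some q => φ q.1 q.2, ?_⟩
  rintro (_ | ⟨x, i, hi⟩) (_ | ⟨y, j, hj⟩) hxy
  · exact hxy.elim
  · have h2 : j = r := hxy
    subst h2
    exact hE _ _ (hlast y)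
  · have h2 : i = r := hxy
    subst h2
    exact hlast x
  · obtain ⟨h1, h2⟩ := hxy
    simp only at h1 h2
    rcases h2 with ⟨h3, h4⟩ | h3 | h3
    · subst h3 h4
      exact (hφ _ _ h1).2.2.1
    · subst h3
      exact ((hφ _ _ h1).2.2.2 ⟨i, by omega⟩).1
    · subst h3
      exact ((hφ _ _ h1).2.2.2 ⟨j, by omega⟩).2

theorem om_symm (r : ℕ) {V : Type} {E : V → V → Prop} (hE : ∀ u v, E u v → E v u) (h : V)
    (a b : Fin (r + 1) → V) (hab : Om r h E a b) : Om r h E b a := by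
  obtain ⟨h1, h2, h3, h4⟩ := hab
  exact ⟨h2, h1, hE _ _ h3, fun i => ⟨hE _ _ (h4 i).2, hE _ _ (h4 i).1⟩⟩

/-- PH-15g. The ladder. -/
theorem ladder (rs : List ℕ) : ∀ (V : Type) [Fintype V], ∃ N : ℕ, ∀ (E : V → V → Prop),
    (∀ u v, E u v → E v u) → ∀ X : Gr, HomTo (gmyc rs X).E E →
      ∃ (V' : Type) (_ : Fintype V') (E' : V' → V' → Prop), Fintype.card V' ≤ N ∧
        (∀ u v, E' u v → E' v u) ∧ HomTo X.E E' ∧
        ∀ Z : Gr, NoIso Z → HomTo Z.E E' → HomTo (gmyc rs Z).E E := by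
  induction rs with
  | nil =>
    intro V _
    exact ⟨Fintype.card V, fun E hE X h => ⟨V, inferInstance, E, le_rfl, hE, h,
      fun Z _ hZ => hZ⟩⟩
  | cons r rs ih =>
    intro V _
    classical
    obtain ⟨N, hN⟩ := ih (Fin (r + 1) → V)
    refine ⟨N, fun E hE X h => ?_⟩
    obtain ⟨a, ha⟩ := myc_to_om r hE h
    obtain ⟨V', inst, E', hc, hs, hX, hZ⟩ := hN (Om r a E) (om_symm r hE a) X ha
    exact ⟨V', inst, E', hc, hs, hX,
      fun Z hnZ hZE => om_to_myc r hE (noIso_gmyc rs hnZ).2 a (hZ Z hnZ hZE)⟩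

end Pool.Agent.Helper25.PH
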