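import Pool.Agent.Helper25.PH.SysDefs

/-! Module PH-22: the system of `Ω` -/

set_option autoImplicit false
set_option linter.all false

namespace Pool.Agent.Helper25.PH

namespace SysOm

theorem dd_sum {P ι : Type} (s : Finset ι) (F : ι → List P → ZMod 2) (l : List P) :
    dd (fun m => ∑ t ∈ s, F t m) l = ∑ t ∈ s, dd (F t) l := by
  induction l generalizing F with
  | nil => simp [dd]
  | cons x l ih =>
    simp only [dd, Finset.sum_add_distrib]
    rw [ih (fun t m => F t (x :: m))]

theorem pr_zero {Q P : Type} (f g : Q → P) (l : List Q) :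
    pr f g (fun _ => (0 : ZMod 2)) l = 0 := by
  induction l with
  | nil => rfl
  | cons x l ih => simp only [pr, ih, add_zero]

/-- the level -/
def lv (r t : ℕ) : Fin (r + 1) := ⟨min r (if t ≤ r + 1 then r + 1 - t else t - r - 2), by omega⟩

/-- the sets of the path -/
def St {V : Type} (r : ℕ) (h : V) (p : PP (Fin (r + 1) → V)) (t : ℕ) : Set V :=
  if t = 0 ∨ t = 2 * r + 3 then {h} else (fun a : Fin (r + 1) → V => a (lv r t)) ''
    (if t % 2 = 0 then p.1 else p.2)

/-- the edges of the path -/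
def ev {V : Type} (r : ℕ) (h : V) (t : ℕ) (p : PP (Fin (r + 1) → V)) : PP V :=
  if t % 2 = 0 then (St r h p t, St r h p (t + 1)) else (St r h p (t + 1), St r h p t)

/-- the constant pair -/
def C0 {V : Type} (h : V) (E : V → V → Prop) : PP V := ({h}, {v | E v h})

/-- the stars of the path -/
def Mt {V : Type} (r : ℕ) (h : V) (E : V → V → Prop) (t : ℕ) (p : PP (Fin (r + 1) → V)) : PP V :=
  if t = 0 then C0 h E else if t = 2 * r + 3 then tw (C0 h E) else ev r h (t - 1) p ⊔ ev r h t p

section

variable {V : Type} {E : V → V → Prop} {r : ℕ} {h : V}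

theorem om_lev {a b : Fin (r + 1) → V} (hab : Om r h E a b) (i j : Fin (r + 1))
    (hij : (i.1 = 0 ∧ j.1 = 0) ∨ j.1 = i.1 + 1 ∨ i.1 = j.1 + 1) : E (a i) (b j) := by
  obtain ⟨i, hi⟩ := i
  obtain ⟨j, hj⟩ := j
  simp only at hij
  rcases hij with ⟨h3, h4⟩ | h3 | h3
  · subst h3 h4
    exact hab.2.2.1
  · subst h3
    exact (hab.2.2.2 ⟨i, by omega⟩).1
  · subst h3
    exact (hab.2.2.2 ⟨j, by omega⟩).2

theorem St_nonempty {p : PP (Fin (r + 1) → V)} (hp : good (Om r h E) p) (t : ℕ) :
    (St r h p t).Nonempty := by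
  unfold St
  split_ifs
  · exact Set.singleton_nonempty _
  · exact hp.1.image _
  · exact hp.2.1.image _

theorem St_mono {p q : PP (Fin (r + 1) → V)} (hpq : p ≤ q) (t : ℕ) :
    St r h p t ⊆ St r h q t := by
  unfold St
  split_ifs
  · exact subset_rfl
  · exact Set.image_mono hpq.1
  · exact Set.image_mono hpq.2

theorem lv_adj (t : ℕ) (h1 : 1 ≤ t) (h2 : t ≤ 2 * r + 1) :
    ((lv r t).1 = 0 ∧ (lv r (t + 1)).1 = 0) ∨ (lv r (t + 1)).1 = (lv r t).1 + 1 ∨
      (lv r t).1 = (lv r (t + 1)).1 + 1 := by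
  simp only [lv]
  split_ifs <;> omega

theorem St_joined (hE : ∀ u v, E u v → E v u) {p : PP (Fin (r + 1) → V)}
    (hp : good (Om r h E) p) (t : ℕ) (ht : t ≤ 2 * r + 2) (x y : V) (hx : x ∈ St r h p t)
    (hy : y ∈ St r h p (t + 1)) : E x y ∧ E y x := by
  suffices h' : E x y ∨ E y x by
    rcases h' with h' | h'
    · exact ⟨h', hE _ _ h'⟩
    · exact ⟨hE _ _ h', h'⟩
  obtain ⟨⟨a₀, ha₀⟩, ⟨b₀, hb₀⟩, hj⟩ := hp
  by_cases h0 : t = 0
  · subst h0
    have e1 : St r h p 0 = {h} := by simp [St]
    have e2 : St r h p (0 + 1) = (fun a : Fin (r + 1) → V => a (lv r 1)) '' p.2 := by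
      simp only [St]
      rw [if_neg (by omega), if_neg (by omega)]
    rw [e1] at hx
    rw [e2] at hy
    rw [Set.mem_singleton_iff] at hx
    subst hx
    obtain ⟨b, hb, rfl⟩ := hy
    right
    have e3 : lv r 1 = Fin.last r := by
      apply Fin.ext
      simp [lv]
    show E (b (lv r 1)) x
    rw [e3]
    exact (hj a₀ ha₀ b hb).2.1
  · by_cases h1 : t = 2 * r + 2
    · subst h1
      have e1 : St r h p (2 * r + 2 + 1) = {h} := by simp [St]
      have e2 : St r h p (2 * r + 2) = (fun a : Fin (r + 1) → V => a (lv r (2 * r + 2))) '' p.1 := by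
        simp only [St]
        rw [if_neg (by omega), if_pos (by omega)]
      rw [e1] at hy
      rw [e2] at hx
      rw [Set.mem_singleton_iff] at hy
      subst hy
      obtain ⟨a, ha, rfl⟩ := hx
      left
      have e3 : lv r (2 * r + 2) = Fin.last r := by
        apply Fin.ext
        simp only [lv, Fin.val_last]
        split_ifs <;> omega
      show E (a (lv r (2 * r + 2))) y
      rw [e3]
      exact (hj a ha b₀ hb₀).1
    · have hadj := lv_adj (r := r) t (by omega) (by omega)
      rcases Nat.mod_two_eq_zero_or_one t with h2 | h2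
      · have e1 : St r h p t = (fun a : Fin (r + 1) → V => a (lv r t)) '' p.1 := by
          simp only [St]
          rw [if_neg (by omega), if_pos h2]
        have e2 : St r h p (t + 1) = (fun a : Fin (r + 1) → V => a (lv r (t + 1))) '' p.2 := by
          simp only [St]
          rw [if_neg (by omega), if_neg (by omega)]
        rw [e1] at hx
        rw [e2] at hy
        obtain ⟨a, ha, rfl⟩ := hx
        obtain ⟨b, hb, rfl⟩ := hy
        left
        exact om_lev (hj a ha b hb) _ _ hadj
      · have e1 : St r h p t = (fun a : Fin (r + 1) → V => a (lv r t)) '' p.2 := by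
          simp only [St]
          rw [if_neg (by omega), if_neg (by omega)]
        have e2 : St r h p (t + 1) = (fun a : Fin (r + 1) → V => a (lv r (t + 1))) '' p.1 := by
          simp only [St]
          rw [if_neg (by omega), if_pos (by omega)]
        rw [e1] at hx
        rw [e2] at hy
        obtain ⟨b, hb, rfl⟩ := hx
        obtain ⟨a, ha, rfl⟩ := hy
        right
        refine om_lev (hj a ha b hb) _ _ ?_
        rcases hadj with h3 | h3 | h3
        · exact Or.inl ⟨h3.2, h3.1⟩
        · exact Or.inr (Or.inr h3)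
        · exact Or.inr (Or.inl h3)

theorem ev_good (hE : ∀ u v, E u v → E v u) {p : PP (Fin (r + 1) → V)}
    (hp : good (Om r h E) p) (t : ℕ) (ht : t ≤ 2 * r + 2) : good E (ev r h t p) := by
  unfold ev
  split_ifs
  · exact ⟨St_nonempty hp _, St_nonempty hp _, fun a ha b hb =>
      (St_joined hE hp t ht a b ha hb).1⟩
  · exact ⟨St_nonempty hp _, St_nonempty hp _, fun a ha b hb =>
      (St_joined hE hp t ht b a hb ha).2⟩

theorem ev_mono {p q : PP (Fin (r + 1) → V)} (hpq : p ≤ q) (t : ℕ) :
    ev r h t p ≤ ev r h t q := by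
  unfold ev
  split_ifs
  · exact ⟨St_mono hpq _, St_mono hpq _⟩
  · exact ⟨St_mono hpq _, St_mono hpq _⟩

theorem Mt_mono {p q : PP (Fin (r + 1) → V)} (hpq : p ≤ q) (t : ℕ) :
    Mt r h E t p ≤ Mt r h E t q := by
  unfold Mt
  split_ifs
  · exact le_rfl
  · exact le_rfl
  · exact sup_le_sup (ev_mono hpq _) (ev_mono hpq _)

theorem C0_good (hE : ∀ u v, E u v → E v u) (hne : ∃ v, E v h) : good E (C0 h E) := by
  refine ⟨Set.singleton_nonempty _, hne, ?_⟩
  intro a ha b hb
  rw [show a = h from ha]
  exact hE _ _ hb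

theorem tw_good (hE : ∀ u v, E u v → E v u) {p : PP V} (hp : good E p) : good E (tw p) :=
  ⟨hp.2.1, hp.1, fun a ha b hb => hE _ _ (hp.2.2 b hb a ha)⟩

theorem Mt_good (hE : ∀ u v, E u v → E v u) (hne : ∃ v, E v h) {p : PP (Fin (r + 1) → V)}
    (hp : good (Om r h E) p) (t : ℕ) (ht : t ≤ 2 * r + 3) : good E (Mt r h E t p) := by
  unfold Mt
  split_ifs with h0 h1
  · exact C0_good hE hne
  · exact tw_good hE (C0_good hE hne)
  · obtain ⟨s, rfl⟩ : ∃ s, t = s + 1 := ⟨t - 1, by omega⟩
    rw [Nat.add_sub_cancel]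
    have g1 := ev_good hE hp s (by omega)
    have g2 := ev_good hE hp (s + 1) (by omega)
    have j1 := St_joined hE hp s (by omega)
    have j2 := St_joined hE hp (s + 1) (by omega)
    refine ⟨g1.1.mono Set.subset_union_left, g1.2.1.mono Set.subset_union_left, ?_⟩
    rcases Nat.mod_two_eq_zero_or_one s with h2 | h2
    · have e1 : ev r h s p = (St r h p s, St r h p (s + 1)) := by
        simp only [ev]; rw [if_pos h2]
      have e2 : ev r h (s + 1) p = (St r h p (s + 1 + 1), St r h p (s + 1)) := by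
        simp only [ev]; rw [if_neg (by omega)]
      rw [e1, e2]
      intro a ha b hb
      have hb' : b ∈ St r h p (s + 1) := by
        rcases hb with hb | hb <;> exact hb
      rcases ha with ha | ha
      · exact (j1 a b ha hb').1
      · exact (j2 b a hb' ha).2
    · have e1 : ev r h s p = (St r h p (s + 1), St r h p s) := by
        simp only [ev]; rw [if_neg (by omega)]
      have e2 : ev r h (s + 1) p = (St r h p (s + 1), St r h p (s + 1 + 1)) := by
        simp only [ev]; rw [if_pos (by omega)]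
      rw [e1, e2]
      intro a ha b hb
      have ha' : a ∈ St r h p (s + 1) := by
        rcases ha with ha | ha <;> exact ha
      rcases hb with hb | hb
      · exact (j1 b a hb ha').2
      · exact (j2 a b ha' hb).1

theorem ev_le_left (hE : ∀ u v, E u v → E v u) {p : PP (Fin (r + 1) → V)}
    (hp : good (Om r h E) p) (t : ℕ) (ht : t ≤ 2 * r + 2) :
    ev r h t p ≤ Mt r h E t p := by
  unfold Mt
  split_ifs with h0 h1
  · subst h0
    have e0 : ev r h 0 p = (St r h p 0, St r h p (0 + 1)) := by simp [ev]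
    rw [e0]
    have e1 : St r h p 0 = {h} := by simp [St]
    refine ⟨?_, ?_⟩
    · rw [e1]
      exact subset_rfl
    · intro y hy
      exact (St_joined hE hp 0 (by omega) h y (by rw [e1]; rfl) hy).2
  · omega
  · exact le_sup_right

theorem ev_le_right (hE : ∀ u v, E u v → E v u) {p : PP (Fin (r + 1) → V)}
    (hp : good (Om r h E) p) (t : ℕ) (ht : t ≤ 2 * r + 2) :
    ev r h t p ≤ Mt r h E (t + 1) p := by
  by_cases h2 : t = 2 * r + 2
  · subst h2
    have e2 : Mt r h E (2 * r + 2 + 1) p = tw (C0 h E) := by simp [Mt]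
    rw [e2]
    have e0 : ev r h (2 * r + 2) p = (St r h p (2 * r + 2), St r h p (2 * r + 2 + 1)) := by
      simp only [ev]; rw [if_pos (by omega)]
    rw [e0]
    have e1 : St r h p (2 * r + 2 + 1) = {h} := by simp [St]
    refine ⟨?_, ?_⟩
    · intro x hx
      exact (St_joined hE hp (2 * r + 2) (by omega) x h hx (by rw [e1]; rfl)).1
    · rw [e1]
      exact subset_rfl
  · have e2 : Mt r h E (t + 1) p = ev r h t p ⊔ ev r h (t + 1) p := by
      have h3 : ¬ (t + 1 = 2 * r + 3) := by omega
      have h4 : ¬ (t + 1 = 0) := by omega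
      unfold Mt
      rw [if_neg h4, if_neg h3, Nat.add_sub_cancel]
    rw [e2]
    exact le_sup_left

theorem lv_symm (t : ℕ) (ht : t ≤ 2 * r + 2) (ht' : 1 ≤ t) : lv r (2 * r + 3 - t) = lv r t := by
  apply Fin.ext
  simp only [lv]
  split_ifs <;> omega

theorem St_tw (p : PP (Fin (r + 1) → V)) (t : ℕ) (ht : t ≤ 2 * r + 3) :
    St r h (tw p) t = St r h p (2 * r + 3 - t) := by
  simp only [St]
  by_cases h0 : t = 0 ∨ t = 2 * r + 3
  · have h1 : 2 * r + 3 - t = 0 ∨ 2 * r + 3 - t = 2 * r + 3 := by omega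
    rw [if_pos h0, if_pos h1]
  · have h1 : ¬ (2 * r + 3 - t = 0 ∨ 2 * r + 3 - t = 2 * r + 3) := by omega
    rw [if_neg h0, if_neg h1, lv_symm t (by omega) (by omega)]
    rcases Nat.mod_two_eq_zero_or_one t with h2 | h2
    · have h3 : ¬ ((2 * r + 3 - t) % 2 = 0) := by omega
      rw [if_pos h2, if_neg h3]
      rfl
    · have h3 : (2 * r + 3 - t) % 2 = 0 := by omega
      have h4 : ¬ (t % 2 = 0) := by omega
      rw [if_neg h4, if_pos h3]
      rfl

theorem ev_tw (p : PP (Fin (r + 1) → V)) (t : ℕ) (ht : t ≤ 2 * r + 2) :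
    ev r h t (tw p) = tw (ev r h (2 * r + 2 - t) p) := by
  simp only [ev]
  rw [St_tw p t (by omega), St_tw p (t + 1) (by omega)]
  have e1 : 2 * r + 3 - t = 2 * r + 2 - t + 1 := by omega
  have e2 : 2 * r + 3 - (t + 1) = 2 * r + 2 - t := by omega
  rw [e1, e2]
  rcases Nat.mod_two_eq_zero_or_one t with h2 | h2
  · rw [if_pos h2, if_pos (by omega)]
    rfl
  · rw [if_neg (by omega), if_neg (by omega)]
    rfl

theorem tw_tw {W : Type} (p : PP W) : tw (tw p) = p := rfl

theorem Mt_tw (p : PP (Fin (r + 1) → V)) (t : ℕ) (ht : t ≤ 2 * r + 3) :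
    Mt r h E t (tw p) = tw (Mt r h E (2 * r + 3 - t) p) := by
  by_cases h0 : t = 0
  · subst h0
    simp [Mt, tw_tw]
  · by_cases h1 : t = 2 * r + 3
    · subst h1
      simp [Mt]
    · simp only [Mt]
      rw [if_neg h0, if_neg h1, if_neg (by omega), if_neg (by omega),
        ev_tw p t (by omega), ev_tw p (t - 1) (by omega)]
      have e1 : 2 * r + 2 - (t - 1) = 2 * r + 3 - t := by omega
      have e2 : 2 * r + 3 - t - 1 = 2 * r + 2 - t := by omega
      rw [e1, e2, sup_comm (ev r h (2 * r + 2 - t) p)]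
      rfl

end

/-- the function of the new system -/
noncomputable def bet {V : Type} (E : V → V → Prop) (r : ℕ) (h : V) (α : List (PP V) → ZMod 2)
    (l : List (PP (Fin (r + 1) → V))) : ZMod 2 :=
  ∑ t ∈ Finset.range (2 * r + 3),
    (pr (ev r h t) (Mt r h E t) α l + pr (ev r h t) (Mt r h E (t + 1)) α l)

section

variable {V : Type} {E : V → V → Prop} {k : ℕ}

theorem two0 : (2 : ZMod 2) = 0 := rfl

/-- one summand -/
theorem one_summand (S : Sys E k) {Q : Type} [Preorder Q] (f g : Q → PP V) (l : List Q)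
    (hlen : 1 ≤ l.length) (hl : List.IsChain (· ≤ ·) l)
    (hf : ∀ p q, p ∈ l → q ∈ l → p ≤ q → f p ≤ f q) (hg : ∀ p q, p ∈ l → q ∈ l → p ≤ q → g p ≤ g q)
    (hfg : ∀ p ∈ l, f p ≤ g p) (hf' : ∀ p ∈ l, good E (f p)) (hg' : ∀ p ∈ l, good E (g p)) :
    dd (pr f g S.α) l = pr f g S.α l + pr (fun q => tw (f q)) (fun q => tw (g q)) S.α l +
      (S.α (l.map g) + S.α (l.map f)) := by
  have h1 := prism f g S.α l
  have h2 : pr f g (dd S.α) l = pr f g (fun m => S.α m + S.α (m.map tw)) l := by
    apply pr_congr f g _ _ l hl hf hg hfg hf' hg'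
    intro m hm hml
    exact S.rel m hm (by omega)
  rw [pr_add, pr_map_tw] at h2
  rw [h2] at h1
  linear_combination h1 - (pr f g S.α l + pr (fun q => tw (f q)) (fun q => tw (g q)) S.α l) * two0

end

theorem tele (u : ℕ → ZMod 2) (n : ℕ) :
    ∑ t ∈ Finset.range n, (u t + u (t + 1)) = u 0 + u n := by
  induction n with
  | zero => 
    simp only [Finset.range_zero, Finset.sum_empty]
    linear_combination (-(u 0)) * two0
  | succ n ih =>
    rw [Finset.sum_range_succ, ih]
    linear_combination (u n) * two0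

section

variable {V : Type} {E : V → V → Prop} {k r : ℕ} {h : V}

theorem key (hE : ∀ u v, E u v → E v u) (hne : ∃ v, E v h) (S : Sys E k)
    (l : List (PP (Fin (r + 1) → V))) (hl : Fl (Om r h E) l) (hlen : 1 ≤ l.length) :
    dd (bet E r h S.α) l = bet E r h S.α l + bet E r h S.α (l.map tw) +
      (S.α (l.map (fun _ => C0 h E)) + S.α (l.map (fun _ => tw (C0 h E)))) := by
  -- the value on the twisted list
  have htw : bet E r h S.α (l.map tw) = ∑ t ∈ Finset.range (2 * r + 3),
      (pr (fun q => tw (ev r h t q)) (fun q => tw (Mt r h E t q)) S.α l +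
        pr (fun q => tw (ev r h t q)) (fun q => tw (Mt r h E (t + 1) q)) S.α l) := by
    rw [← Finset.sum_range_reflect]
    apply Finset.sum_congr rfl
    intro t ht
    rw [Finset.mem_range] at ht
    have e1 : 2 * r + 3 - 1 - t = 2 * r + 2 - t := by omega
    rw [e1, pr_comp, pr_comp]
    have f1 : (fun q => ev r h t (tw q)) = fun q : PP (Fin (r + 1) → V) =>
        tw (ev r h (2 * r + 2 - t) q) := by
      funext q
      exact ev_tw q t (by omega)
    have f2 : (fun q => Mt r h E t (tw q)) = fun q : PP (Fin (r + 1) → V) =>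
        tw (Mt r h E (2 * r + 2 - t + 1) q) := by
      funext q
      rw [Mt_tw q t (by omega)]
      congr 2
      omega
    have f3 : (fun q => Mt r h E (t + 1) (tw q)) = fun q : PP (Fin (r + 1) → V) =>
        tw (Mt r h E (2 * r + 2 - t) q) := by
      funext q
      rw [Mt_tw q (t + 1) (by omega)]
      congr 2
      omega
    rw [f1, f2, f3, add_comm]
  -- the sum of the summands
  have hsum : dd (bet E r h S.α) l = ∑ t ∈ Finset.range (2 * r + 3),
      (dd (pr (ev r h t) (Mt r h E t) S.α) l + dd (pr (ev r h t) (Mt r h E (t + 1)) S.α) l) := by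
    have := dd_sum (Finset.range (2 * r + 3)) (fun t m =>
      pr (ev r h t) (Mt r h E t) S.α m + pr (ev r h t) (Mt r h E (t + 1)) S.α m) l
    show dd (fun m => ∑ t ∈ Finset.range (2 * r + 3),
      (pr (ev r h t) (Mt r h E t) S.α m + pr (ev r h t) (Mt r h E (t + 1)) S.α m)) l = _
    rw [this]
    apply Finset.sum_congr rfl
    intro t _
    exact dd_add _ _ l
  have hterm : ∀ t ∈ Finset.range (2 * r + 3),
      (dd (pr (ev r h t) (Mt r h E t) S.α) l + dd (pr (ev r h t) (Mt r h E (t + 1)) S.α) l) =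
      (pr (ev r h t) (Mt r h E t) S.α l + pr (ev r h t) (Mt r h E (t + 1)) S.α l) +
      (pr (fun q => tw (ev r h t q)) (fun q => tw (Mt r h E t q)) S.α l +
        pr (fun q => tw (ev r h t q)) (fun q => tw (Mt r h E (t + 1) q)) S.α l) +
      (S.α (l.map (Mt r h E t)) + S.α (l.map (Mt r h E (t + 1)))) := by
    intro t ht
    rw [Finset.mem_range] at ht
    rw [one_summand S (ev r h t) (Mt r h E t) l hlen hl.1
        (fun p q _ _ hpq => ev_mono hpq t) (fun p q _ _ hpq => Mt_mono hpq t)
        (fun p hp => ev_le_left hE (hl.2 p hp) t (by omega))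
        (fun p hp => ev_good hE (hl.2 p hp) t (by omega))
        (fun p hp => Mt_good hE hne (hl.2 p hp) t (by omega)),
      one_summand S (ev r h t) (Mt r h E (t + 1)) l hlen hl.1
        (fun p q _ _ hpq => ev_mono hpq t) (fun p q _ _ hpq => Mt_mono hpq (t + 1))
        (fun p hp => ev_le_right hE (hl.2 p hp) t (by omega))
        (fun p hp => ev_good hE (hl.2 p hp) t (by omega))
        (fun p hp => Mt_good hE hne (hl.2 p hp) (t + 1) (by omega))]
    linear_combination (S.α (l.map (ev r h t))) * two0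
  rw [hsum, Finset.sum_congr rfl hterm, Finset.sum_add_distrib, Finset.sum_add_distrib,
    tele (fun t => S.α (l.map (Mt r h E t))), htw]
  have e0 : Mt r h E 0 = fun _ => C0 h E := by
    funext q
    simp [Mt]
  have e1 : Mt r h E (2 * r + 3) = fun _ => tw (C0 h E) := by
    funext q
    simp [Mt]
  simp only [e0, e1]
  rfl

theorem bet_deg (S : Sys E k) (X Y : List (PP (Fin (r + 1) → V))) (p : PP (Fin (r + 1) → V)) :
    bet E r h S.α (X ++ p :: p :: Y) = 0 := by
  unfold bet
  apply Finset.sum_eq_zero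
  intro t _
  rw [pr_deg _ _ _ S.deg, pr_deg _ _ _ S.deg, add_zero]

theorem bet_len (hE : ∀ u v, E u v → E v u) (hne : ∃ v, E v h) (S : Sys E (k + 1))
    (l : List (PP (Fin (r + 1) → V))) (hl : Fl (Om r h E) l) (hlen : k + 1 < l.length) :
    bet E r h S.α l = 0 := by
  unfold bet
  apply Finset.sum_eq_zero
  intro t ht
  rw [Finset.mem_range] at ht
  rw [pr_congr (E := E) (ev r h t) (Mt r h E t) S.α (fun _ => 0) l hl.1
        (fun p q _ _ hpq => ev_mono hpq t) (fun p q _ _ hpq => Mt_mono hpq t)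
        (fun p hp => ev_le_left hE (hl.2 p hp) t (by omega))
        (fun p hp => ev_good hE (hl.2 p hp) t (by omega))
        (fun p hp => Mt_good hE hne (hl.2 p hp) t (by omega))
        (fun m hm hml => S.len m hm (by omega)),
    pr_congr (E := E) (ev r h t) (Mt r h E (t + 1)) S.α (fun _ => 0) l hl.1
        (fun p q _ _ hpq => ev_mono hpq t) (fun p q _ _ hpq => Mt_mono hpq (t + 1))
        (fun p hp => ev_le_right hE (hl.2 p hp) t (by omega))
        (fun p hp => ev_good hE (hl.2 p hp) t (by omega))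
        (fun p hp => Mt_good hE hne (hl.2 p hp) (t + 1) (by omega))
        (fun m hm hml => S.len m hm (by omega)),
    pr_zero, pr_zero, add_zero]

end

end SysOm

open SysOm in
/-- PH-22. -/
theorem sys_om {V : Type} {E : V → V → Prop} (hE : ∀ u v, E u v → E v u) {k : ℕ}
    (S : Sys E (k + 1)) (r : ℕ) (h : V) : Nonempty (Sys (Om r h E) k) := by
  by_cases hne : ∃ v, E v h
  · refine ⟨⟨bet E r h S.α, ?_, ?_, ?_, ?_⟩⟩
    · intro p hp
      have hk := key (r := r) hE hne S [p] ⟨List.isChain_singleton _, by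
        intro q hq
        rw [List.mem_singleton] at hq
        rw [hq]
        exact hp⟩ (by simp)
      have h1 := S.one (C0 h E) (C0_good hE hne)
      simp only [List.map_cons, List.map_nil] at hk
      rw [h1] at hk
      have h2 : dd (bet E r h S.α) [p] = 0 := by
        simp [dd, bet, pr]
      rw [h2] at hk
      linear_combination -hk - two0
    · intro l hl hlen
      rw [key hE hne S l hl (by omega)]
      match l, hlen with
      | p :: q :: l', _ =>
        have d1 := S.deg [] (l'.map (fun _ => C0 h E)) (C0 h E)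
        have d2 := S.deg [] (l'.map (fun _ => tw (C0 h E))) (tw (C0 h E))
        simp only [List.nil_append] at d1 d2
        simp only [List.map_cons] at d1 d2 ⊢
        rw [d1, d2, add_zero, add_zero]
    · exact fun X Y p => bet_deg S X Y p
    · exact fun l hl hlen => bet_len hE hne S l hl hlen
  · have hno : ∀ p : PP (Fin (r + 1) → V), ¬ good (Om r h E) p := by
      rintro p ⟨⟨a, ha⟩, ⟨b, hb⟩, hj⟩
      exact hne ⟨_, (hj a ha b hb).1⟩
    refine ⟨⟨fun _ => 0, fun p hp => (hno p hp).elim, ?_, fun _ _ _ => rfl, fun _ _ _ => rfl⟩⟩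
    intro l hl hlen
    match l, hlen with
    | p :: l', _ => exact (hno p (hl.2 p (by simp))).elim

end Pool.Agent.Helper25.PH
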