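import Pool.Agent.Helper25.PH.SysDefs

/-! Module PH-23: a graph with a system of length 0 has no odd closed walk -/

set_option autoImplicit false
set_option linter.all false

namespace Pool.Agent.Helper25.PH

private theorem good_tw {V : Type} {E : V → V → Prop} (hE : ∀ u v, E u v → E v u) {p : PP V}
    (hp : good E p) : good E (tw p) :=
  ⟨hp.2.1, hp.1, fun a ha b hb => hE _ _ (hp.2.2 b hb a ha)⟩

private theorem comp_eq {V : Type} {E : V → V → Prop} (hE : ∀ u v, E u v → E v u) (S : Sys E 0)
    {p q : PP V} (hp : good E p) (hq : good E q) (hpq : p ≤ q) : S.α [p] = S.α [q] := by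
  have hfl : Fl E [p, q] := by
    refine ⟨by simpa using hpq, ?_⟩
    intro x hx
    simp only [List.mem_cons, List.not_mem_nil, or_false] at hx
    rcases hx with rfl | rfl <;> assumption
  have hfl' : Fl E [tw p, tw q] := by
    refine ⟨by simpa using (show tw p ≤ tw q from ⟨hpq.2, hpq.1⟩), ?_⟩
    intro x hx
    simp only [List.mem_cons, List.not_mem_nil, or_false] at hx
    rcases hx with rfl | rfl
    · exact good_tw hE hp
    · exact good_tw hE hq
  have h1 := S.rel [p, q] hfl (by simp)
  have h2 := S.len [p, q] hfl (by simp)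
  have h3 := S.len [tw p, tw q] hfl' (by simp)
  simp only [dd, List.map_cons, List.map_nil, h2, h3, add_zero] at h1
  have h4 : S.α [q] + S.α [q] = 0 := CharTwo.add_self_eq_zero _
  have h5 : S.α [q] + S.α [p] = S.α [q] + S.α [q] := by rw [h1, h4]
  exact add_left_cancel h5

/-- PH-23. -/
theorem sys_zero {V : Type} {E : V → V → Prop} (hE : ∀ u v, E u v → E v u) (S : Sys E 0)
    (l : ℕ) (hl : Odd l) : ¬ HomTo (Cyc l) E := by
  rintro ⟨w, hw⟩
  have hadj : ∀ x : ZMod l, E (w x) (w (x + 1)) := fun x => hw _ _ (Or.inl rfl)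
  have hadj' : ∀ x : ZMod l, E (w (x + 1)) (w x) := fun x => hE _ _ (hadj x)
  set P : ℕ → PP V := fun j => if Even j then ({w (j : ZMod l)}, {w ((j : ZMod l) + 1)})
    else ({w ((j : ZMod l) + 1)}, {w (j : ZMod l)}) with hP
  have hgood : ∀ j, good E (P j) := by
    intro j
    by_cases hj : Even j
    · simp only [hP, if_pos hj]
      refine ⟨Set.singleton_nonempty _, Set.singleton_nonempty _, ?_⟩
      rintro a rfl b rfl
      exact hadj _
    · simp only [hP, if_neg hj]
      refine ⟨Set.singleton_nonempty _, Set.singleton_nonempty _, ?_⟩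
      rintro a rfl b rfl
      exact hadj' _
  have hstep : ∀ j, S.α [P j] = S.α [P (j + 1)] := by
    intro j
    have hc : ((j + 1 : ℕ) : ZMod l) = (j : ZMod l) + 1 := by push_cast; ring
    by_cases hj : Even j
    · have hj' : ¬ Even (j + 1) := by simpa [Nat.even_add_one] using hj
      have hg : good E (({w (j : ZMod l), w ((j : ZMod l) + 1 + 1)}, {w ((j : ZMod l) + 1)}) : PP V) := by
        refine ⟨⟨_, Or.inl rfl⟩, Set.singleton_nonempty _, ?_⟩
        rintro a (rfl | rfl) b rfl
        · exact hadj _
        · exact hadj' _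
      rw [comp_eq hE S (hgood j) hg, comp_eq hE S (hgood (j + 1)) hg]
      · simp only [hP, if_neg hj', hc]
        exact ⟨by intro x hx; exact Or.inr hx, le_rfl⟩
      · simp only [hP, if_pos hj]
        exact ⟨by intro x hx; exact Or.inl hx, le_rfl⟩
    · have hj' : Even (j + 1) := by simpa [Nat.even_add_one] using hj
      have hg : good E (({w ((j : ZMod l) + 1)}, {w (j : ZMod l), w ((j : ZMod l) + 1 + 1)}) : PP V) := by
        refine ⟨Set.singleton_nonempty _, ⟨_, Or.inl rfl⟩, ?_⟩
        rintro a rfl b (rfl | rfl)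
        · exact hadj' _
        · exact hadj _
      rw [comp_eq hE S (hgood j) hg, comp_eq hE S (hgood (j + 1)) hg]
      · simp only [hP, if_pos hj', hc]
        exact ⟨le_rfl, by intro x hx; exact Or.inr hx⟩
      · simp only [hP, if_neg hj]
        exact ⟨le_rfl, by intro x hx; exact Or.inl hx⟩
  have hall : ∀ j, S.α [P 0] = S.α [P j] := by
    intro j
    induction j with
    | zero => rfl
    | succ j ih => rw [ih, hstep j]
  have hlast : P l = tw (P 0) := by
    have h0 : ¬ Even l := Nat.not_even_iff_odd.mpr hl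
    simp only [hP, if_neg h0, tw, Even.zero, if_true]
    simp
  have h1 := S.one (P 0) (hgood 0)
  rw [← hlast, ← hall l, CharTwo.add_self_eq_zero] at h1
  exact absurd h1 (by decide)

end Pool.Agent.Helper25.PH
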