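import Pool.Agent.Helper25.PH.SysK
import Pool.Agent.Helper25.PH.SysOm
import Pool.Agent.Helper25.PH.SysZero
import Pool.Agent.Helper25.PH.Omega

/-! Module PH-24: iterated generalised Mycielskians of odd cycles need many colours -/

set_option autoImplicit false
set_option linter.all false

namespace Pool.Agent.Helper25.PH

/-- PH-24. (Stiebitz) The `k`-fold iterated generalised Mycielskian of an odd cycle is not
`(k + 2)`-colourable. -/
theorem not_colour (qs : List ℕ) (l : ℕ) (hl : Odd l) :
    ¬ HomTo (gmyc qs (cyc l)).E (fun a b : Fin (qs.length + 2) => a ≠ b) := by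
  have key : ∀ (qs : List ℕ) (V : Type) (E : V → V → Prop), (∀ u v, E u v → E v u) →
      Sys E qs.length → ¬ HomTo (gmyc qs (cyc l)).E E := by
    intro qs
    induction qs with
    | nil => intro V E hE S; exact sys_zero hE S l hl
    | cons r qs ih =>
      intro V E hE S h
      obtain ⟨v, hv⟩ := myc_to_om r hE h
      obtain ⟨S'⟩ := sys_om hE S r v
      refine ih _ (Om r v E) ?_ S' hv
      intro a b hab
      exact ⟨hab.2.1, hab.1, hE _ _ hab.2.2.1, fun i =>
        ⟨hE _ _ (hab.2.2.2 i).2, hE _ _ (hab.2.2.2 i).1⟩⟩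
  obtain ⟨S⟩ := sys_complete qs.length
  exact key qs _ _ (fun u v h => Ne.symm h) S

end Pool.Agent.Helper25.PH
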