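import Pool.Agent.Helper25.PH.Defs

/-! Module PH-6: the noise lemma -/

set_option autoImplicit false
set_option linter.all false

namespace Pool.Agent.Helper25.PH

section noiseAux

variable {F : Type} [Fintype F] [DecidableEq F]

private noncomputable def nChi (i : F) (δ : F → Bool) : ℝ := if δ i then 1 else -1

private def nFlip (i : F) (δ : F → Bool) : F → Bool := Function.update δ i (!δ i)

omit [Fintype F] in
private theorem nFlip_nFlip (i : F) (δ : F → Bool) : nFlip i (nFlip i δ) = δ := by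
  unfold nFlip
  simp

omit [Fintype F] in
private theorem nChi_flip (i : F) (δ : F → Bool) : nChi i (nFlip i δ) = - nChi i δ := by
  unfold nFlip nChi
  rw [Function.update_self]
  cases δ i <;> simp

omit [Fintype F] in
private theorem nChi_flip_ne {i j : F} (h : j ≠ i) (δ : F → Bool) :
    nChi j (nFlip i δ) = nChi j δ := by
  unfold nFlip nChi
  rw [Function.update_of_ne h]

private theorem sum_nFlip (i : F) (g : (F → Bool) → ℝ) :
    ∑ δ, g (nFlip i δ) = ∑ δ, g δ :=
  Fintype.sum_equiv (Function.Involutive.toPerm (nFlip i) (nFlip_nFlip i)) _ _ (fun _ => rfl)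

private theorem nCard : (∑ _δ : F → Bool, (1 : ℝ)) = 2 ^ Fintype.card F := by
  rw [Finset.sum_const, Finset.card_univ, Fintype.card_fun, Fintype.card_bool, nsmul_eq_mul,
    mul_one]
  push_cast
  ring

private theorem nOrth (i j : F) : ∑ δ : F → Bool, nChi i δ * nChi j δ =
    if i = j then (2 : ℝ) ^ Fintype.card F else 0 := by
  split_ifs with h
  · subst h
    rw [← nCard (F := F)]
    refine Finset.sum_congr rfl fun δ _ => ?_
    unfold nChi
    split_ifs <;> norm_num
  · have h1 := sum_nFlip i (fun δ => nChi i δ * nChi j δ)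
    have h2 : ∑ δ : F → Bool, nChi i (nFlip i δ) * nChi j (nFlip i δ) =
        - ∑ δ : F → Bool, nChi i δ * nChi j δ := by
      rw [← Finset.sum_neg_distrib]
      refine Finset.sum_congr rfl fun δ _ => ?_
      rw [nChi_flip, nChi_flip_ne (fun hh => h hh.symm)]
      ring
    have h3 : ∑ δ : F → Bool, nChi i (nFlip i δ) * nChi j (nFlip i δ) =
      ∑ δ : F → Bool, nChi i δ * nChi j δ := h1
    linarith

private theorem nBessel (h : (F → Bool) → ℝ) :
    ∑ i : F, (∑ δ : F → Bool, h δ * nChi i δ) ^ 2 ≤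
      (2 : ℝ) ^ Fintype.card F * ∑ δ : F → Bool, h δ ^ 2 := by
  obtain ⟨N, hN⟩ : ∃ N : ℝ, N = (2 : ℝ) ^ Fintype.card F := ⟨_, rfl⟩
  have hN0 : 0 < N := by rw [hN]; positivity
  obtain ⟨c, hc⟩ : ∃ c : F → ℝ, ∀ i, c i = ∑ δ : F → Bool, h δ * nChi i δ :=
    ⟨fun i => ∑ δ : F → Bool, h δ * nChi i δ, fun _ => rfl⟩
  have h0 : 0 ≤ ∑ δ : F → Bool, (N * h δ - ∑ i, c i * nChi i δ) ^ 2 :=
    Finset.sum_nonneg fun δ _ => sq_nonneg _
  have h1 : ∑ δ : F → Bool, (N * h δ - ∑ i, c i * nChi i δ) ^ 2 =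
      N ^ 2 * ∑ δ : F → Bool, h δ ^ 2 - 2 * N * ∑ δ : F → Bool, h δ * ∑ i, c i * nChi i δ +
        ∑ δ : F → Bool, (∑ i, c i * nChi i δ) * (∑ j, c j * nChi j δ) := by
    rw [Finset.mul_sum, Finset.mul_sum, ← Finset.sum_sub_distrib, ← Finset.sum_add_distrib]
    refine Finset.sum_congr rfl fun δ _ => ?_
    ring
  have h2 : ∑ δ : F → Bool, h δ * ∑ i, c i * nChi i δ = ∑ i, c i ^ 2 := by
    calc ∑ δ : F → Bool, h δ * ∑ i, c i * nChi i δ
        = ∑ δ : F → Bool, ∑ i, c i * (h δ * nChi i δ) := by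
          refine Finset.sum_congr rfl fun δ _ => ?_
          rw [Finset.mul_sum]
          refine Finset.sum_congr rfl fun i _ => ?_
          ring
      _ = ∑ i, ∑ δ : F → Bool, c i * (h δ * nChi i δ) := Finset.sum_comm
      _ = ∑ i, c i ^ 2 := by
          refine Finset.sum_congr rfl fun i _ => ?_
          rw [← Finset.mul_sum, ← hc i]
          ring
  have h3 : ∑ δ : F → Bool, (∑ i, c i * nChi i δ) * (∑ j, c j * nChi j δ) =
      N * ∑ i, c i ^ 2 := by
    calc ∑ δ : F → Bool, (∑ i, c i * nChi i δ) * (∑ j, c j * nChi j δ)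
        = ∑ δ : F → Bool, ∑ i, ∑ j, c i * c j * (nChi i δ * nChi j δ) := by
          refine Finset.sum_congr rfl fun δ _ => ?_
          rw [Finset.sum_mul_sum]
          refine Finset.sum_congr rfl fun i _ => Finset.sum_congr rfl fun j _ => ?_
          ring
      _ = ∑ i, ∑ δ : F → Bool, ∑ j, c i * c j * (nChi i δ * nChi j δ) := Finset.sum_comm
      _ = ∑ i, ∑ j, ∑ δ : F → Bool, c i * c j * (nChi i δ * nChi j δ) := by
          refine Finset.sum_congr rfl fun i _ => Finset.sum_comm
      _ = ∑ i, ∑ j, c i * c j * (if i = j then N else 0) := by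
          refine Finset.sum_congr rfl fun i _ => Finset.sum_congr rfl fun j _ => ?_
          rw [← Finset.mul_sum, nOrth, hN]
      _ = ∑ i, N * c i ^ 2 := by
          refine Finset.sum_congr rfl fun i _ => ?_
          rw [Finset.sum_eq_single i]
          · rw [if_pos rfl]; ring
          · intro j _ hj
            rw [if_neg (fun h => hj h.symm), mul_zero]
          · intro h
            exact absurd (Finset.mem_univ i) h
      _ = N * ∑ i, c i ^ 2 := by rw [Finset.mul_sum]
  rw [h1, h2, h3] at h0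
  have h4 : 0 ≤ N * (N * ∑ δ : F → Bool, h δ ^ 2 - ∑ i, c i ^ 2) := by
    have e : N * (N * ∑ δ : F → Bool, h δ ^ 2 - ∑ i, c i ^ 2) =
      N ^ 2 * ∑ δ : F → Bool, h δ ^ 2 - 2 * N * ∑ i, c i ^ 2 + N * ∑ i, c i ^ 2 := by ring
    rw [e]
    exact h0
  have h5 := nonneg_of_mul_nonneg_right h4 hN0
  have h6 : ∑ i : F, (∑ δ : F → Bool, h δ * nChi i δ) ^ 2 = ∑ i, c i ^ 2 := by
    refine Finset.sum_congr rfl fun i _ => ?_
    rw [hc i]
  rw [h6, ← hN]
  linarith

end noiseAux

/-- PH-6a. Bessel's inequality for the level one characters of the cube. -/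
theorem bessel {F : Type} [Fintype F] [DecidableEq F] (h : (F → Bool) → ℝ) :
    ∑ i : F, (∑ δ : F → Bool, h δ * (if δ i then 1 else -1)) ^ 2 ≤
      (2 : ℝ) ^ Fintype.card F * ∑ δ : F → Bool, h δ ^ 2 :=
  nBessel h

section noiseAux2

variable {F : Type} [Fintype F] [DecidableEq F]

/-- the two ends of a direction -/
private theorem nTwo (i : F) (g : (F → Bool) → ℝ) :
    ∑ δ : F → Bool, (g (Function.update δ i true) - g (Function.update δ i false)) =
      2 * ∑ δ : F → Bool, g δ * nChi i δ := by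
  have h1 : ∑ δ : F → Bool, g (nFlip i δ) * nChi i (nFlip i δ) = ∑ δ : F → Bool, g δ * nChi i δ :=
    sum_nFlip i (fun δ => g δ * nChi i δ)
  have h2 : 2 * ∑ δ : F → Bool, g δ * nChi i δ =
      ∑ δ : F → Bool, (g δ * nChi i δ + g (nFlip i δ) * nChi i (nFlip i δ)) := by
    rw [Finset.sum_add_distrib, h1]
    ring
  rw [h2]
  refine Finset.sum_congr rfl fun δ _ => ?_
  rw [nChi_flip]
  unfold nFlip nChi
  cases hi : δ i
  · have e : Function.update δ i false = δ := by
      rw [← hi]; exact Function.update_eq_self i δ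
    simp [e]
    ring
  · have e : Function.update δ i true = δ := by
      rw [← hi]; exact Function.update_eq_self i δ
    simp [e]
    ring

private theorem nAvg {M : ℕ} [NeZero M] (i : F) (G : (F → ZMod M) → ℝ) :
    ∑ x : F → ZMod M, ∑ t : ZMod M, ∑ a : ZMod M,
      G (Function.update (fun j => x j + t) i a) = (M : ℝ) ^ 2 * ∑ y : F → ZMod M, G y := by
  have h1 : ∀ t a : ZMod M, ∑ x : F → ZMod M, G (Function.update (fun j => x j + t) i a) =
      ∑ x : F → ZMod M, G (Function.update x i a) := by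
    intro t a
    refine Fintype.sum_equiv (Equiv.addRight (fun _ : F => t)) _ _ (fun x => ?_)
    rfl
  have h2 : ∑ a : ZMod M, ∑ x : F → ZMod M, G (Function.update x i a) =
      (M : ℝ) * ∑ y : F → ZMod M, G y := by
    have inv : Function.Involutive (fun p : ZMod M × (F → ZMod M) =>
        ((p.2 i, Function.update p.2 i p.1) : ZMod M × (F → ZMod M))) := by
      rintro ⟨a, x⟩
      simp
    have h3 : ∑ p : ZMod M × (F → ZMod M), G (Function.update p.2 i p.1) =
        ∑ p : ZMod M × (F → ZMod M), G p.2 :=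
      Fintype.sum_equiv (Function.Involutive.toPerm _ inv) _ _ (fun p => rfl)
    rw [Fintype.sum_prod_type, Fintype.sum_prod_type] at h3
    rw [h3]
    simp [ZMod.card]
  calc ∑ x : F → ZMod M, ∑ t : ZMod M, ∑ a : ZMod M,
      G (Function.update (fun j => x j + t) i a)
      = ∑ t : ZMod M, ∑ x : F → ZMod M, ∑ a : ZMod M,
          G (Function.update (fun j => x j + t) i a) := Finset.sum_comm
    _ = ∑ t : ZMod M, ∑ a : ZMod M, ∑ x : F → ZMod M,
          G (Function.update (fun j => x j + t) i a) := by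
        refine Finset.sum_congr rfl fun t _ => Finset.sum_comm
    _ = ∑ t : ZMod M, (M : ℝ) * ∑ y : F → ZMod M, G y := by
        refine Finset.sum_congr rfl fun t _ => ?_
        rw [← h2]
        refine Finset.sum_congr rfl fun a _ => h1 t a
    _ = (M : ℝ) ^ 2 * ∑ y : F → ZMod M, G y := by
        rw [Finset.sum_const, Finset.card_univ, ZMod.card, nsmul_eq_mul]
        ring

end noiseAux2

/-- PH-6b. For all but boundedly many coordinates `i` there is a point `x` such that for every `t`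
some value `v` is taken by `f` in all the small cubes at `x + t` with the `i`-th coordinate
replaced by any `a`. -/
theorem noise {V F : Type} [Fintype V] [Fintype F] [DecidableEq F] {M : ℕ} (hM : Odd M)
    (f : (F → ZMod M) → V) (S : Finset F)
    (hS : 4 * M ^ 4 * (Fintype.card V) ^ 2 < S.card) :
    ∃ i ∈ S, ∃ x : F → ZMod M, ∀ t : ZMod M, ∃ v : V, ∀ a : ZMod M, ∃ u : F → ZMod M,
      u i = a ∧ (∀ j, j ≠ i → u j = x j + t ∨ u j = x j + t + 2) ∧ f u = v := by
  classical
  have hM0 : 0 < M := hM.pos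
  haveI : NeZero M := ⟨hM0.ne'⟩
  have hMR : (0 : ℝ) < M := by exact_mod_cast hM0
  haveI : Nonempty V := ⟨f (fun _ => 0)⟩
  have hV0 : 0 < Fintype.card V := Fintype.card_pos
  obtain ⟨w, hw⟩ : ∃ w : ℝ, w = (Fintype.card V : ℝ) := ⟨_, rfl⟩
  have hwR : 0 < w := by rw [hw]; exact_mod_cast hV0
  obtain ⟨N, hN⟩ : ∃ N : ℝ, N = (2 : ℝ) ^ Fintype.card F := ⟨_, rfl⟩
  have hN0 : 0 < N := by rw [hN]; positivity
  -- the small cubes
  let ad : (F → ZMod M) → (F → Bool) → (F → ZMod M) := fun y δ j => y j + (if δ j then 2 else 0)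
  let ind : V → (F → ZMod M) → (F → Bool) → ℝ := fun v y δ => if f (ad y δ) = v then 1 else 0
  have hind0 : ∀ v y δ, ind v y δ ^ 2 = ind v y δ := by
    intro v y δ
    show (if f (ad y δ) = v then (1 : ℝ) else 0) ^ 2 = if f (ad y δ) = v then (1 : ℝ) else 0
    split_ifs <;> norm_num
  have hindsum : ∀ y δ, ∑ v, ind v y δ = 1 := by
    intro y δ
    show ∑ v, (if f (ad y δ) = v then (1 : ℝ) else 0) = 1
    rw [Finset.sum_ite_eq]
    simp
  let E : F → (F → ZMod M) → ℝ := fun i y => ∑ v, (∑ δ, ind v y δ * nChi i δ) ^ 2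
  have hE0 : ∀ i y, 0 ≤ E i y := fun i y => Finset.sum_nonneg fun v _ => sq_nonneg _
  have hE1 : ∀ y, ∑ i, E i y ≤ N * N := by
    intro y
    calc ∑ i, E i y = ∑ v, ∑ i, (∑ δ, ind v y δ * nChi i δ) ^ 2 := Finset.sum_comm
      _ ≤ ∑ v, N * ∑ δ, ind v y δ := by
          refine Finset.sum_le_sum fun v _ => ?_
          have h1 := nBessel (ind v y)
          rw [← hN] at h1
          refine le_trans h1 (le_of_eq ?_)
          congr 1
          exact Finset.sum_congr rfl fun δ _ => hind0 v y δ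
      _ = N * ∑ δ, ∑ v, ind v y δ := by
          rw [← Finset.mul_sum, Finset.sum_comm]
      _ = N * N := by
          congr 1
          rw [hN, ← nCard (F := F)]
          exact Finset.sum_congr rfl fun δ _ => hindsum y δ
  obtain ⟨Q, hQ⟩ : ∃ Q : ℝ, Q = (∑ _y : F → ZMod M, (1 : ℝ)) := ⟨_, rfl⟩
  have hQ0 : 0 < Q := by
    rw [hQ, Finset.sum_const, Finset.card_univ, nsmul_eq_mul, mul_one]
    exact_mod_cast Fintype.card_pos
  -- a good coordinate
  obtain ⟨i, hiS, hi⟩ : ∃ i ∈ S, 4 * (M : ℝ) ^ 4 * w ^ 2 * ∑ y, E i y < N * N * Q := by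
    by_contra hcon
    push Not at hcon
    have h1 : ∑ i ∈ S, N * N * Q ≤ ∑ i ∈ S, 4 * (M : ℝ) ^ 4 * w ^ 2 * ∑ y, E i y :=
      Finset.sum_le_sum hcon
    rw [Finset.sum_const, nsmul_eq_mul, ← Finset.mul_sum] at h1
    have h2 : ∑ i ∈ S, ∑ y, E i y ≤ N * N * Q := by
      calc ∑ i ∈ S, ∑ y, E i y ≤ ∑ i, ∑ y, E i y :=
            Finset.sum_le_sum_of_subset_of_nonneg (Finset.subset_univ S)
              (fun i _ _ => Finset.sum_nonneg fun y _ => hE0 i y)
        _ = ∑ y, ∑ i, E i y := Finset.sum_comm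
        _ ≤ ∑ _y : F → ZMod M, N * N := Finset.sum_le_sum fun y _ => hE1 y
        _ = N * N * Q := by
            rw [hQ, Finset.mul_sum]
            exact Finset.sum_congr rfl fun y _ => (mul_one _).symm
    have h3 : 4 * (M : ℝ) ^ 4 * w ^ 2 * ∑ i ∈ S, ∑ y, E i y ≤ 4 * (M : ℝ) ^ 4 * w ^ 2 * (N * N * Q) :=
      mul_le_mul_of_nonneg_left h2 (by positivity)
    have h4 : (4 * (M : ℝ) ^ 4 * w ^ 2) < (S.card : ℝ) := by
      rw [hw]
      exact_mod_cast hS
    have h5 : 0 < N * N * Q := by positivity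
    have h6 : (4 * (M : ℝ) ^ 4 * w ^ 2) * (N * N * Q) < (S.card : ℝ) * (N * N * Q) :=
      mul_lt_mul_of_pos_right h4 h5
    linarith
  refine ⟨i, hiS, ?_⟩
  -- a good point
  obtain ⟨x, hx⟩ : ∃ x : F → ZMod M, ∀ t a : ZMod M,
      4 * (M : ℝ) ^ 2 * w ^ 2 * E i (Function.update (fun j => x j + t) i a) < N * N := by
    by_contra hcon
    push Not at hcon
    have h1 : ∀ x : F → ZMod M, N * N ≤ 4 * (M : ℝ) ^ 2 * w ^ 2 *
        ∑ t : ZMod M, ∑ a : ZMod M, E i (Function.update (fun j => x j + t) i a) := by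
      intro x
      obtain ⟨t, a, hta⟩ := hcon x
      refine le_trans hta (mul_le_mul_of_nonneg_left ?_ (by positivity))
      refine le_trans ?_ (Finset.single_le_sum
        (f := fun t => ∑ a : ZMod M, E i (Function.update (fun j => x j + t) i a))
        (fun t _ => Finset.sum_nonneg fun a _ => hE0 i _) (Finset.mem_univ t))
      exact Finset.single_le_sum
        (f := fun a => E i (Function.update (fun j => x j + t) i a))
        (fun a _ => hE0 i _) (Finset.mem_univ a)
    have h2 : ∑ _x : F → ZMod M, N * N ≤ ∑ x : F → ZMod M, 4 * (M : ℝ) ^ 2 * w ^ 2 *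
        ∑ t : ZMod M, ∑ a : ZMod M, E i (Function.update (fun j => x j + t) i a) :=
      Finset.sum_le_sum fun x _ => h1 x
    have h3 : ∑ _x : F → ZMod M, N * N = N * N * Q := by
      rw [hQ, Finset.mul_sum]
      exact Finset.sum_congr rfl fun y _ => (mul_one _).symm
    rw [h3, ← Finset.mul_sum, nAvg i (E i)] at h2
    have h4 : 4 * (M : ℝ) ^ 2 * w ^ 2 * ((M : ℝ) ^ 2 * ∑ y, E i y) =
      4 * (M : ℝ) ^ 4 * w ^ 2 * ∑ y, E i y := by ring
    rw [h4] at h2
    linarith
  refine ⟨x, fun t => ?_⟩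
  let y : ZMod M → (F → ZMod M) := fun a => Function.update (fun j => x j + t) i a
  let P : V → ZMod M → ℝ := fun v a => ∑ δ, ind v (y a) (Function.update δ i false)
  have hup : ∀ (a : ZMod M) (δ : F → Bool), ad (y (a + 2)) (Function.update δ i false) =
      ad (y a) (Function.update δ i true) := by
    intro a δ
    funext j
    show y (a + 2) j + (if Function.update δ i false j then 2 else 0) =
      y a j + (if Function.update δ i true j then 2 else 0)
    by_cases hj : j = i
    · subst hj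
      simp [y]
    · simp [y, Function.update_of_ne hj]
  have hP2 : ∀ v a, P v (a + 2) - P v a = 2 * ∑ δ, ind v (y a) δ * nChi i δ := by
    intro v a
    rw [← nTwo i (ind v (y a)), Finset.sum_sub_distrib]
    congr 1
    refine Finset.sum_congr rfl fun δ _ => ?_
    show (if f (ad (y (a + 2)) (Function.update δ i false)) = v then (1 : ℝ) else 0) =
      (if f (ad (y a) (Function.update δ i true)) = v then (1 : ℝ) else 0)
    rw [hup]
  have hstep : ∀ v a, (M : ℝ) * w * |P v (a + 2) - P v a| < N := by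
    intro v a
    have h1 : (∑ δ, ind v (y a) δ * nChi i δ) ^ 2 ≤ E i (y a) :=
      Finset.single_le_sum (f := fun v => (∑ δ, ind v (y a) δ * nChi i δ) ^ 2)
        (fun v _ => sq_nonneg _) (Finset.mem_univ v)
    have h2 := hx t a
    have h3 : ((M : ℝ) * w * |P v (a + 2) - P v a|) ^ 2 < N ^ 2 := by
      rw [mul_pow, sq_abs, hP2]
      have e : ((M : ℝ) * w) ^ 2 * (2 * ∑ δ, ind v (y a) δ * nChi i δ) ^ 2 =
        4 * (M : ℝ) ^ 2 * w ^ 2 * (∑ δ, ind v (y a) δ * nChi i δ) ^ 2 := by ring
      rw [e]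
      calc 4 * (M : ℝ) ^ 2 * w ^ 2 * (∑ δ, ind v (y a) δ * nChi i δ) ^ 2
          ≤ 4 * (M : ℝ) ^ 2 * w ^ 2 * E i (y a) := mul_le_mul_of_nonneg_left h1 (by positivity)
        _ < N * N := h2
        _ = N ^ 2 := by ring
    exact lt_of_pow_lt_pow_left₀ 2 hN0.le h3
  have hwalk : ∀ v (j : ℕ), (M : ℝ) * w * |P v ((2 * j : ℕ) : ZMod M) - P v 0| ≤ j * N := by
    intro v j
    induction j with
    | zero => simp
    | succ j ih =>
      have h1 := hstep v ((2 * j : ℕ) : ZMod M)
      have e : (((2 * (j + 1) : ℕ)) : ZMod M) = ((2 * j : ℕ) : ZMod M) + 2 := by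
        push_cast
        ring
      rw [e]
      have h2 : |P v (((2 * j : ℕ) : ZMod M) + 2) - P v 0| ≤
          |P v (((2 * j : ℕ) : ZMod M) + 2) - P v ((2 * j : ℕ) : ZMod M)| +
            |P v ((2 * j : ℕ) : ZMod M) - P v 0| := abs_sub_le _ _ _
      have h3 := mul_le_mul_of_nonneg_left h2 (show 0 ≤ (M : ℝ) * w by positivity)
      rw [mul_add] at h3
      push_cast
      push_cast at h1 ih h3
      linarith
  have hclose : ∀ v a, w * |P v a - P v 0| < N := by
    intro v a
    obtain ⟨k, hk⟩ := hM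
    -- a = 2 * j
    have h2 : (2 : ZMod M) * ((k + 1 : ℕ) : ZMod M) = 1 := by
      have : ((2 * (k + 1) : ℕ) : ZMod M) = ((M + 1 : ℕ) : ZMod M) := by
        congr 1
        omega
      push_cast at this
      rw [ZMod.natCast_self, zero_add] at this
      push_cast
      exact this
    obtain ⟨j, hj, hj'⟩ : ∃ j : ℕ, j < M ∧ ((2 * j : ℕ) : ZMod M) = a := by
      refine ⟨(((k + 1 : ℕ) : ZMod M) * a).val, ZMod.val_lt _, ?_⟩
      push_cast
      rw [ZMod.natCast_zmod_val]
      push_cast at h2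
      rw [← mul_assoc, h2, one_mul]
    have h3 := hwalk v j
    rw [hj'] at h3
    have h4 : (j : ℝ) * N < M * N := mul_lt_mul_of_pos_right (by exact_mod_cast hj) hN0
    have h5 : (M : ℝ) * (w * |P v a - P v 0|) < M * N := by
      rw [← mul_assoc]
      linarith
    exact lt_of_mul_lt_mul_left h5 hMR.le
  obtain ⟨v, hv⟩ : ∃ v, N ≤ w * P v 0 := by
    by_contra hcon
    push Not at hcon
    have h1 : ∑ v, w * P v 0 < ∑ _v : V, N :=
      Finset.sum_lt_sum_of_nonempty Finset.univ_nonempty fun v _ => hcon v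
    rw [← Finset.mul_sum, Finset.sum_const, Finset.card_univ, nsmul_eq_mul, ← hw] at h1
    have h2 : ∑ v, P v 0 = N := by
      calc ∑ v, P v 0 = ∑ δ, ∑ v, ind v (y 0) (Function.update δ i false) := Finset.sum_comm
        _ = N := by
          rw [hN, ← nCard (F := F)]
          exact Finset.sum_congr rfl fun δ _ => hindsum _ _
    rw [h2] at h1
    exact lt_irrefl _ h1
  refine ⟨v, fun a => ?_⟩
  have h1 := hclose v a
  have h2 : 0 < P v a := by
    have h3 : P v 0 - P v a ≤ |P v a - P v 0| := by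
      rw [abs_sub_comm]
      exact le_abs_self _
    have h4 := mul_le_mul_of_nonneg_left h3 hwR.le
    rw [mul_sub] at h4
    have h5 : 0 < w * P v a := by linarith
    exact (mul_pos_iff_of_pos_left hwR).1 h5
  obtain ⟨δ, -, hδ⟩ : ∃ δ ∈ (Finset.univ : Finset (F → Bool)),
      ind v (y a) (Function.update δ i false) ≠ 0 :=
    Finset.exists_ne_zero_of_sum_ne_zero h2.ne'
  have hδ' : f (ad (y a) (Function.update δ i false)) = v := by
    by_contra h3
    exact hδ (if_neg h3)
  refine ⟨ad (y a) (Function.update δ i false), ?_, ?_, hδ'⟩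
  · show y a i + (if Function.update δ i false i then 2 else 0) = a
    simp [y]
  · intro j hj
    show y a j + (if Function.update δ i false j then 2 else 0) = x j + t ∨
      y a j + (if Function.update δ i false j then 2 else 0) = x j + t + 2
    simp only [y, Function.update_of_ne hj]
    cases δ j <;> simp

end Pool.Agent.Helper25.PH
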