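import Pool.Agent.Helper25.PH.Loops
import Pool.Agent.Helper25.PH.Noise

/-! Module PH-7: boundedly many directions are not null-homotopic -/

set_option autoImplicit false
set_option linter.all false

namespace Pool.Agent.Helper25.PH

/-- mixed adjacency through a point of the power of the thick cycle -/
private theorem hom_of_diff {V F : Type} {M : ℕ} {E : V → V → Prop} {f : (F → ZMod M) → V}
    (hf : IsHom (PThick M F) E f) (u v : F → ZMod M)
    (h : ∀ j, ∃ d : ℤ, Odd d ∧ |d| ≤ 7 ∧ v j = u j + (d : ZMod M)) : E (f u) (f v) :=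
  hf u v fun j => h j

/-- PH-7. -/
theorem bdd {V F : Type} [Fintype V] [Finite F] {M : ℕ} (hM : Odd M) {E : V → V → Prop}
    (hE : ∀ u v, E u v → E v u) {f : (F → ZMod M) → V} (hf : IsHom (PThick M F) E f)
    (S : Finset F) (hS : ∀ i ∈ S, ¬ LT E f {i} 0) :
    S.card ≤ 4 * M ^ 4 * (Fintype.card V) ^ 2 := by
  classical
  haveI : Fintype F := Fintype.ofFinite F
  by_contra hcon
  push Not at hcon
  obtain ⟨i, hi, x, hx⟩ := noise hM f S hcon
  choose c hc using hx
  obtain ⟨k, hk⟩ := hM
  have h2 : (2 : ZMod M) * ((k : ZMod M) + 1) = 1 := by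
    have h3 : ((M : ℕ) : ZMod M) = 0 := ZMod.natCast_self M
    have h4 : ((2 * k + 1 : ℕ) : ZMod M) = 0 := by rw [← hk]; exact h3
    push_cast at h4
    calc (2 : ZMod M) * ((k : ZMod M) + 1) = (2 * (k : ZMod M) + 1) + 1 := by ring
      _ = 1 := by rw [h4, zero_add]
  let z : F → ZMod M := fun j => ((k : ZMod M) + 1) * x j
  have hz : ∀ j, 2 * z j = x j := by
    intro j
    calc 2 * z j = (2 * ((k : ZMod M) + 1)) * x j := by simp only [z]; ring
      _ = x j := by rw [h2, one_mul]
  -- the walk `c` is adjacent to itself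
  have hcc : AdL E c c := by
    intro t
    constructor
    · obtain ⟨u, hu1, hu2, hu3⟩ := hc t 0
      obtain ⟨v, hv1, hv2, hv3⟩ := hc (t + 1) 1
      rw [← hu3, ← hv3]
      refine hom_of_diff hf u v fun j => ?_
      by_cases hj : j = i
      · subst hj
        refine ⟨1, by decide, by norm_num, ?_⟩
        rw [hu1, hv1]; push_cast; ring
      · rcases hu2 j hj with h | h <;> rcases hv2 j hj with h' | h' <;> rw [h, h']
        · exact ⟨1, by decide, by norm_num, by push_cast; ring⟩
        · exact ⟨3, by decide, by norm_num, by push_cast; ring⟩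
        · exact ⟨-1, by decide, by norm_num, by push_cast; ring⟩
        · exact ⟨1, by decide, by norm_num, by push_cast; ring⟩
    · obtain ⟨u, hu1, hu2, hu3⟩ := hc t 0
      obtain ⟨v, hv1, hv2, hv3⟩ := hc (t - 1) 1
      rw [← hu3, ← hv3]
      refine hom_of_diff hf u v fun j => ?_
      by_cases hj : j = i
      · subst hj
        refine ⟨1, by decide, by norm_num, ?_⟩
        rw [hu1, hv1]; push_cast; ring
      · rcases hu2 j hj with h | h <;> rcases hv2 j hj with h' | h' <;> rw [h, h']
        · exact ⟨-1, by decide, by norm_num, by push_cast; ring⟩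
        · exact ⟨1, by decide, by norm_num, by push_cast; ring⟩
        · exact ⟨-3, by decide, by norm_num, by push_cast; ring⟩
        · exact ⟨-1, by decide, by norm_num, by push_cast; ring⟩
  -- the values of the loop
  have hval : ∀ (s : ℕ) (t : ZMod M) (j : F), (2 * (mv {i} s z) j + t : ZMod M) =
      if j = i then x j + 2 * (s : ZMod M) + t else x j + t := by
    intro s t j
    unfold mv
    by_cases hj : j = i
    · rw [if_pos (show j ∈ ({i} : Set F) from hj), if_pos hj, mul_add, hz]
    · rw [if_neg (show j ∉ ({i} : Set F) from hj), if_neg hj, hz]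
  have hgc : ∀ s : ℕ, AdL E (Psi f (mv {i} s z)) c := by
    intro s t
    constructor
    · obtain ⟨v, hv1, hv2, hv3⟩ := hc (t + 1) (x i + 2 * (s : ZMod M) + t + 1)
      rw [← hv3]
      refine hom_of_diff hf _ v fun j => ?_
      rw [hval]
      by_cases hj : j = i
      · subst hj
        rw [if_pos rfl]
        exact ⟨1, by decide, by norm_num, by rw [hv1]; push_cast; ring⟩
      · rw [if_neg hj]
        rcases hv2 j hj with h' | h' <;> rw [h']
        · exact ⟨1, by decide, by norm_num, by push_cast; ring⟩
        · exact ⟨3, by decide, by norm_num, by push_cast; ring⟩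
    · obtain ⟨v, hv1, hv2, hv3⟩ := hc (t - 1) (x i + 2 * (s : ZMod M) + t + 1)
      rw [← hv3]
      refine hom_of_diff hf _ v fun j => ?_
      rw [hval]
      by_cases hj : j = i
      · subst hj
        rw [if_pos rfl]
        exact ⟨1, by decide, by norm_num, by rw [hv1]; push_cast; ring⟩
      · rw [if_neg hj]
        rcases hv2 j hj with h' | h' <;> rw [h']
        · exact ⟨-1, by decide, by norm_num, by push_cast; ring⟩
        · exact ⟨1, by decide, by norm_num, by push_cast; ring⟩
  have hcg : ∀ s : ℕ, AdL E c (Psi f (mv {i} s z)) := fun s => AdL.symm hE (hgc s)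
  have hgg : ∀ s s' : ℕ, (s' = s ∨ s' = s + 1) → AdL E (Psi f (mv {i} s z)) (Psi f (mv {i} s' z)) := by
    intro s s' hs
    refine psi_adj hf _ _ fun j => ?_
    unfold mv
    by_cases hj : j ∈ ({i} : Set F)
    · rw [if_pos hj, if_pos hj]
      rcases hs with rfl | rfl
      · exact ⟨0, by norm_num, by push_cast; ring⟩
      · exact ⟨1, by norm_num, by push_cast; ring⟩
    · rw [if_neg hj, if_neg hj]
      exact ⟨0, by norm_num, by push_cast; ring⟩
  have hg0 : Psi f (mv {i} 0 z) = Psi f z := by
    congr 1
    funext j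
    unfold mv
    split_ifs <;> simp
  have hgM : Psi f (mv {i} M z) = Psi f (mv {i} 0 z) := by
    rw [mv_M, hg0]
  have key : LT E f {i} z := by
    have h1 := HE.cone (A := AdL E) M (fun s => Psi f (mv {i} s z)) c (by
      intro a ha b hb
      simp only [List.mem_cons, List.not_mem_nil, or_false] at ha hb
      rcases ha with rfl | rfl <;> rcases hb with rfl | rfl
      · exact hgg 0 0 (Or.inl rfl)
      · exact hgc 0
      · exact hcg 0
      · exact hcc) (by
      intro s hs a ha b hb
      simp only [List.mem_cons, List.not_mem_nil, or_false] at ha hb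
      rcases ha with rfl | rfl | rfl <;> rcases hb with rfl | rfl | rfl
      · exact hgg s s (Or.inl rfl)
      · exact hgg s (s + 1) (Or.inr rfl)
      · exact hgc s
      · exact AdL.symm hE (hgg s (s + 1) (Or.inr rfl))
      · exact hgg (s + 1) (s + 1) (Or.inl rfl)
      · exact hgc (s + 1)
      · exact hcg s
      · exact hcg (s + 1)
      · exact hcc) hgM
    unfold LT
    rw [← hg0]
    exact h1
  exact hS i hi (LT.move hE ⟨k, hk⟩ hf {i} z 0 key)

end Pool.Agent.Helper25.PH
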