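import Pool.Agent.Helper25.PH.Defs

/-! Module PH-9: a flip equivalence as a map of a rectangle -/

set_option autoImplicit false
set_option linter.all false

namespace Pool.Agent.Helper25.PH

variable {W : Type} {A : W → W → Prop}

/-- positions at distance at most one of `P` and `Q` are related -/
private def Near (A : W → W → Prop) (P Q : List W) : Prop :=
  ∀ (s s' : ℕ) (x y : W), s' ≤ s + 1 → s ≤ s' + 1 → P[s]? = some x → Q[s']? = some y → A x y

private theorem near_self (hA : ∀ a b, A a b → A b a) {P : List W} (hP : IsPath A P) :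
    Near A P P := by
  have hc := List.isChain_iff_getElem.1 hP.1
  have hstep : ∀ (s : ℕ) (x y : W), P[s]? = some x → P[s + 1]? = some y → A x y := by
    intro s x y hx hy
    obtain ⟨h1, rfl⟩ := List.getElem?_eq_some_iff.1 hx
    obtain ⟨h2, rfl⟩ := List.getElem?_eq_some_iff.1 hy
    exact hc s h2
  intro s s' x y h1 h2 hx hy
  rcases Nat.lt_trichotomy s s' with h | h | h
  · obtain rfl : s' = s + 1 := by omega
    exact hstep s x y hx hy
  · subst h
    obtain rfl : x = y := by rw [hx] at hy; exact Option.some.inj hy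
    exact hP.2 x (List.mem_of_getElem? hx)
  · obtain rfl : s = s' + 1 := by omega
    exact hA _ _ (hstep s' y x hy hx)

private theorem flip_get {P Q : List W} (h : Flip A P Q) :
    ∃ (p : ℕ) (a b b' c : W), 1 ≤ p ∧ p + 1 < P.length ∧ P[p - 1]? = some a ∧ P[p]? = some b ∧
      P[p + 1]? = some c ∧ Cl A [a, b, b'] ∧ Cl A [b, b', c] ∧ Q.length = P.length ∧
      Q[p]? = some b' ∧ ∀ s, s ≠ p → Q[s]? = P[s]? := by
  obtain ⟨X, Y, a, b, b', c, rfl, rfl, h1, h2⟩ := h
  refine ⟨X.length + 1, a, b, b', c, by omega, by simp; omega, ?_, ?_, ?_, h1, h2, by simp, ?_, ?_⟩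
  · simp
  · rw [List.getElem?_append_right (by omega)]
    simp
  · rw [List.getElem?_append_right (by omega)]
    have e : X.length + 1 + 1 - X.length = 2 := by omega
    rw [e]; rfl
  · rw [List.getElem?_append_right (by omega)]
    simp
  · intro s hs
    rcases Nat.lt_or_ge s X.length with h | h
    · rw [List.getElem?_append_left h, List.getElem?_append_left h]
    · rw [List.getElem?_append_right h, List.getElem?_append_right h]
      obtain ⟨j, rfl⟩ := Nat.exists_eq_add_of_le h
      rw [Nat.add_sub_cancel_left]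
      match j with
      | 0 => rfl
      | 1 => exact absurd rfl hs
      | j + 2 => rfl

private theorem near_flip (hA : ∀ a b, A a b → A b a) {P Q : List W} (h : Flip A P Q)
    (hP : Near A P P) : Near A P Q ∧ Near A Q P ∧ Near A Q Q := by
  obtain ⟨p, a, b, b', c, hp1, hp2, ha, hb, hc, c1, c2, hl, hq, hne⟩ := flip_get h
  have hab : A a b' := c1 a (by simp) b' (by simp)
  have hbb : A b b' := c1 b (by simp) b' (by simp)
  have hcb : A c b' := c2 c (by simp) b' (by simp)
  have hb'b' : A b' b' := c1 b' (by simp) b' (by simp)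
  have key : Near A P Q := by
    intro s s' x y h1 h2 hx hy
    by_cases hs' : s' = p
    · subst hs'
      obtain rfl : b' = y := by rw [hq] at hy; exact Option.some.inj hy
      rcases Nat.lt_trichotomy s s' with h | h | h
      · obtain rfl : s = s' - 1 := by omega
        obtain rfl : a = x := by rw [ha] at hx; exact Option.some.inj hx
        exact hab
      · subst h
        obtain rfl : b = x := by rw [hb] at hx; exact Option.some.inj hx
        exact hbb
      · obtain rfl : s = s' + 1 := by omega
        obtain rfl : c = x := by rw [hc] at hx; exact Option.some.inj hx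
        exact hcb
    · rw [hne s' hs'] at hy
      exact hP s s' x y h1 h2 hx hy
  have key' : Near A Q P := fun s s' x y h1 h2 hx hy => hA _ _ (key s' s y x h2 h1 hy hx)
  refine ⟨key, key', ?_⟩
  intro s s' x y h1 h2 hx hy
  by_cases hs : s = p
  · by_cases hs' : s' = p
    · subst hs
      subst hs'
      obtain rfl : b' = x := by rw [hq] at hx; exact Option.some.inj hx
      obtain rfl : b' = y := by rw [hq] at hy; exact Option.some.inj hy
      exact hb'b'
    · rw [hne s' hs'] at hy
      exact key' s s' x y h1 h2 hx hy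
  · rw [hne s hs] at hx
    exact key s s' x y h1 h2 hx hy

/-- PH-9. -/
theorem FE.rings (hA : ∀ a b, A a b → A b a) {P Q : List W} {N : ℕ} (h : FE A P Q)
    (hP : IsPath A P) (hN : P.length = N + 1) :
    ∃ (K : ℕ) (g : ℕ → ℕ → W), (∀ s, s ≤ N → P[s]? = some (g 0 s)) ∧
      (∀ k s, K ≤ k → s ≤ N → Q[s]? = some (g k s)) ∧
      (∀ k k' s s', k' ≤ k + 1 → k ≤ k' + 1 → s ≤ N → s' ≤ N → s' ≤ s + 1 → s ≤ s' + 1 →
        A (g k s) (g k' s')) ∧
      (∀ k, g k 0 = g 0 0) ∧ (∀ k, g k N = g 0 N) := by
  have hnear := near_self hA hP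
  clear hP
  unfold FE at h
  induction h using Relation.ReflTransGen.head_induction_on with
  | refl =>
    obtain ⟨d⟩ : Nonempty W := by
      cases Q with
      | nil => simp at hN
      | cons d _ => exact ⟨d⟩
    have hg : ∀ s, s ≤ N → Q[s]? = some (Q.getD s d) := by
      intro s hs
      have hlt : s < Q.length := by omega
      rw [List.getD_eq_getElem _ _ hlt, List.getElem?_eq_getElem hlt]
    refine ⟨0, fun _ s => Q.getD s d, hg, fun _ s _ hs => hg s hs, ?_, fun _ => rfl, fun _ => rfl⟩
    intro k k' s s' _ _ hs hs' h1 h2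
    exact hnear s s' _ _ h1 h2 (hg s hs) (hg s' hs')
  | head hPR hRQ ih =>
    rename_i P R
    obtain ⟨n1, n2, n3⟩ := near_flip hA hPR hnear
    obtain ⟨p, a, b, b', c, hp1, hp2, -, -, -, -, -, hl, -, hne⟩ := flip_get hPR
    obtain ⟨K, g, g1, g2, g3, g4, g5⟩ := ih (by omega) n3
    have hPn : P ≠ [] := by
      rintro rfl
      simp at hN
    have hg : ∀ s, s ≤ N → P[s]? = some (P.getD s (P.head hPn)) := by
      intro s hs
      have hlt : s < P.length := by omega
      rw [List.getD_eq_getElem _ _ hlt, List.getElem?_eq_getElem hlt]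
    let g' : ℕ → ℕ → W := fun k s => match k with
      | 0 => P.getD s (P.head hPn)
      | k + 1 => g k s
    have e0 : g' 0 0 = g 0 0 := by
      have h1 := hg 0 (by omega)
      have h2 := g1 0 (by omega)
      rw [hne 0 (by omega), h1] at h2
      exact Option.some.inj h2
    have eN : g' 0 N = g 0 N := by
      have h1 := hg N le_rfl
      have h2 := g1 N le_rfl
      rw [hne N (by omega), h1] at h2
      exact Option.some.inj h2
    refine ⟨K + 1, g', hg, ?_, ?_, ?_, ?_⟩
    · intro k s hk hs
      obtain ⟨k, rfl⟩ : ∃ k', k = k' + 1 := ⟨k - 1, by omega⟩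
      exact g2 k s (by omega) hs
    · intro k k' s s' hk hk' hs hs' h1 h2
      match k, k' with
      | 0, 0 => exact hnear s s' _ _ h1 h2 (hg s hs) (hg s' hs')
      | 0, 1 => exact n1 s s' _ _ h1 h2 (hg s hs) (g1 s' hs')
      | 1, 0 => exact n2 s s' _ _ h1 h2 (g1 s hs) (hg s' hs')
      | 0, k' + 2 => omega
      | k + 2, 0 => omega
      | k + 1, k' + 1 => exact g3 k k' s s' (by omega) (by omega) hs hs' h1 h2
    · intro k
      match k with
      | 0 => rfl
      | k + 1 => exact (g4 k).trans e0.symm
    · intro k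
      match k with
      | 0 => rfl
      | k + 1 => exact (g5 k).trans eN.symm

end Pool.Agent.Helper25.PH
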