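import Pool.Agent.Helper25.PH.FE1
import Pool.Agent.Helper25.PH.Rings
import Pool.Agent.Helper25.PH.Slow

/-! Module PH-11: a filling from a null-homotopy of the rotations of a closed walk -/

set_option autoImplicit false
set_option linter.all false

namespace Pool.Agent.Helper25.PH

/-- the monotone maps between `s ↦ s / R` and `s ↦ min s M` -/
def sg (R M c s : ℤ) : ℤ := min (min (s / R + c) s) M

/-- PH-11a. Properties of `sg` on `[0, M R]`. -/
theorem sg_props (R M : ℤ) (hR : 3 ≤ R) (hM : 0 < M) (c c' s s' : ℤ) (hc : 0 ≤ c) (hc' : 0 ≤ c')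
    (hcc : |c - c'| ≤ 1) (hs : 0 ≤ s) (hs' : 0 ≤ s') (h : |s - s'| ≤ 1) (hsM : s ≤ M * R)
    (hsM' : s' ≤ M * R) :
    |sg R M c s - sg R M c' s'| ≤ 2 ∧ sg R M c 0 = 0 ∧ sg R M c (M * R) = M ∧
      sg R M 0 s = s / R ∧ sg R M M s = min s M := by
  have hR0 : 0 < R := by linarith
  have hq : ∀ x y : ℤ, x ≤ y + 1 → x / R ≤ y / R + 1 := by
    intro x y hxy
    have h1 : x / R ≤ (y + R) / R := Int.ediv_le_ediv hR0 (by linarith)
    rwa [Int.add_ediv_of_dvd_right (dvd_refl R), Int.ediv_self hR0.ne'] at h1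
  have h1 := abs_le.1 h
  have h2 := abs_le.1 hcc
  have q1 := hq s s' (by linarith)
  have q2 := hq s' s (by linarith)
  have q3 : 0 ≤ s / R := Int.ediv_nonneg hs hR0.le
  have q4 : s / R ≤ s := Int.ediv_le_self R hs
  have q5 : s / R ≤ M := by
    have : s / R ≤ (M * R) / R := Int.ediv_le_ediv hR0 hsM
    rwa [Int.mul_ediv_cancel _ hR0.ne'] at this
  have q6 : (M * R) / R = M := Int.mul_ediv_cancel _ hR0.ne'
  have q7 : M ≤ M * R := by nlinarith
  refine ⟨?_, ?_, ?_, ?_, ?_⟩
  · rw [abs_le]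
    unfold sg
    constructor <;> omega
  · unfold sg
    rw [Int.zero_ediv]
    omega
  · unfold sg
    rw [q6]
    omega
  · unfold sg
    omega
  · unfold sg
    omega

theorem near_mod (m : ℤ) (hm : 0 < m) (s s' : ℤ) (h : |s - s'| ≤ 1) :
    ∃ a a' : ℤ, 0 ≤ a ∧ a ≤ m ∧ 0 ≤ a' ∧ a' ≤ m ∧ |a - a'| ≤ 1 ∧
      (s % m = a ∨ (s % m = 0 ∧ a = m)) ∧ (s' % m = a' ∨ (s' % m = 0 ∧ a' = m)) := by
  have key : ∀ x y : ℤ, x ≤ y → y ≤ x + 1 → ∃ a a' : ℤ, 0 ≤ a ∧ a ≤ m ∧ 0 ≤ a' ∧ a' ≤ m ∧
      |a - a'| ≤ 1 ∧ (x % m = a ∨ (x % m = 0 ∧ a = m)) ∧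
      (y % m = a' ∨ (y % m = 0 ∧ a' = m)) := by
    intro x y hxy hyx
    have e0 : 0 ≤ x % m := Int.emod_nonneg _ hm.ne'
    have e1 : x % m < m := Int.emod_lt_of_pos _ hm
    refine ⟨x % m, x % m + (y - x), e0, e1.le, by linarith, by linarith, ?_, Or.inl rfl, ?_⟩
    · rw [abs_le]; constructor <;> linarith
    · have hy : y % m = (x % m + (y - x)) % m := by
        rw [Int.emod_add_emod]
        congr 1
        ring
      rcases lt_or_ge (x % m + (y - x)) m with hlt | hge
      · left
        rw [hy, Int.emod_eq_of_lt (by linarith) hlt]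
      · right
        have he : x % m + (y - x) = m := by linarith
        rw [hy, he, Int.emod_self]
        exact ⟨rfl, rfl⟩
  have h1 := abs_le.1 h
  rcases le_total s s' with hle | hle
  · exact key s s' hle (by linarith)
  · obtain ⟨a, a', b1, b2, b3, b4, b5, b6, b7⟩ := key s' s hle (by linarith)
    exact ⟨a', a, b3, b4, b1, b2, by rwa [abs_sub_comm], b7, b6⟩

theorem rot_adj {V : Type} {E : V → V → Prop} {M : ℕ}
    (w : ZMod M → V) (hw : ∀ t t', Thick M t t' → E (w t) (w t')) (x y : ZMod M)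
    (h : ∃ d : ℤ, |d| ≤ 3 ∧ y = x + (d : ZMod M)) :
    AdL E (fun t => w (t + 2 * x)) (fun t => w (t + 2 * y)) := by
  obtain ⟨d, hd, rfl⟩ := h
  have hd' := abs_le.1 hd
  intro t
  refine ⟨hw _ _ ⟨2 * d + 1, ⟨d, rfl⟩, ?_, ?_⟩, hw _ _ ⟨2 * d - 1, ⟨d - 1, by ring⟩, ?_, ?_⟩⟩
  · rw [abs_le]; constructor <;> linarith
  · push_cast; ring
  · rw [abs_le]; constructor <;> linarith
  · push_cast; ring

theorem adL_symm {V : Type} {M : ℕ} {E : V → V → Prop} (hE : ∀ u v, E u v → E v u)
    {w w' : ZMod M → V} (h : AdL E w w') : AdL E w' w := by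
  intro t
  refine ⟨hE _ _ ?_, hE _ _ ?_⟩
  · have := (h (t + 1)).2; simpa using this
  · have := (h (t - 1)).1; simpa using this

/-- PH-11b. A null-homotopy of the loop of rotations of a thick closed walk gives a filling. -/
theorem exists_fill {V : Type} {E : V → V → Prop} (hE : ∀ u v, E u v → E v u) {M : ℕ}
    (hM : Odd M) (w : ZMod M → V) (hw : ∀ t t', Thick M t t' → E (w t) (w t'))
    (ht : HE (AdL E) (pl (fun s : ℕ => fun t => w (t + 2 * (s : ZMod M))) M) [w]) :
    ∃ m K : ℕ, Odd m ∧ 3 ≤ m ∧ Nonempty (Fill E m K) := by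
  have hM0 : 0 < M := hM.pos
  have hMM : ((M : ℤ) : ZMod M) = 0 := by simp
  have hMM' : ((M : ℕ) : ZMod M) = 0 := by simp
  set rot : ZMod M → (ZMod M → V) := fun x t => w (t + 2 * x) with hrot
  have rot0 : rot 0 = w := by
    funext t; simp [hrot]
  have hA : ∀ a b : ZMod M → V, AdL E a b → AdL E b a := fun a b h => adL_symm hE h
  have radj : ∀ x y : ZMod M, (∃ d : ℤ, |d| ≤ 3 ∧ y = x + (d : ZMod M)) →
      AdL E (rot x) (rot y) := fun x y h => rot_adj w hw x y h
  have rself : ∀ x, AdL E (rot x) (rot x) := fun x => radj x x ⟨0, by norm_num, by simp⟩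
  -- the path
  set P : List (ZMod M → V) := pl (fun s : ℕ => rot (s : ZMod M)) M with hPdef
  have hPlen : P.length = M + 1 := by simp [hPdef, pl]
  have hPget : ∀ i, i ≤ M → P[i]? = some (rot (i : ZMod M)) := by
    intro i hi
    simp only [hPdef, pl, List.getElem?_map]
    rw [List.getElem?_range (by omega)]
    rfl
  have pathOf : ∀ (L : List (ZMod M → V)) (N : ℕ), L.length = N + 1 →
      (∀ i, i ≤ N → L[i]? = some (rot ((min i M : ℕ) : ZMod M))) → IsPath (AdL E) L := by
    intro L N hL hg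
    constructor
    · rw [List.isChain_iff_getElem]
      intro i hi
      have h1 : L[i]? = some L[i] := List.getElem?_eq_getElem (by omega)
      have h2 : L[i + 1]? = some L[i + 1] := List.getElem?_eq_getElem hi
      rw [hg i (by omega)] at h1
      rw [hg (i + 1) (by omega)] at h2
      rw [← Option.some.inj h1, ← Option.some.inj h2]
      apply radj
      rcases lt_or_ge i M with hlt | hge
      · refine ⟨1, by norm_num, ?_⟩
        rw [min_eq_left hlt.le, min_eq_left (show i + 1 ≤ M from hlt)]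
        push_cast; ring
      · refine ⟨0, by norm_num, ?_⟩
        rw [min_eq_right hge, min_eq_right (show M ≤ i + 1 by omega)]
        simp
    · intro a ha
      obtain ⟨i, hi, rfl⟩ := List.getElem_of_mem ha
      have h1 : L[i]? = some L[i] := List.getElem?_eq_getElem hi
      rw [hg i (by omega)] at h1
      rw [← Option.some.inj h1]
      exact rself _
  have hPpath : IsPath (AdL E) P := pathOf P M hPlen (by
    intro i hi
    rw [hPget i hi, min_eq_left hi])
  have hPlast : P.getLast? = some w := by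
    rw [List.getLast?_eq_getElem?, hPlen]
    have := hPget M le_rfl
    rw [show M + 1 - 1 = M by omega, this, hMM', rot0]
  obtain ⟨-, -, -, p, q, hpq, hFE⟩ := HE.pad hA ht hPpath w hPlast
  have hq : q = M + p := by
    have : M + 1 + p = 1 + q := by simpa [hPlen] using hpq
    omega
  set R : ℕ := 2 * p + 3 with hRdef
  set m : ℕ := M * R with hmdef
  have hmM : M + p ≤ m := by
    rw [hmdef, hRdef]
    nlinarith
  have hR3 : (3 : ℤ) ≤ (R : ℤ) := by rw [hRdef]; push_cast; linarith
  have hR0 : (0 : ℤ) < (R : ℤ) := by linarith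
  have hRodd : Odd (R : ℤ) := ⟨p + 1, by rw [hRdef]; push_cast; ring⟩
  have hModd : Odd (M : ℤ) := by exact_mod_cast hM
  have hmodd : Odd m := by
    rw [hmdef]
    exact hM.mul ⟨p + 1, by rw [hRdef]; ring⟩
  have hm3 : 3 ≤ m := by
    rw [hmdef, hRdef]; nlinarith
  have hmz : (m : ℤ) = (M : ℤ) * (R : ℤ) := by rw [hmdef]; push_cast; ring
  have hm0 : (0 : ℤ) < (m : ℤ) := by exact_mod_cast (by omega : 0 < m)
  have hMz : (0 : ℤ) < (M : ℤ) := by exact_mod_cast hM0
  have hFE2 := FE.ctx hFE [] (List.replicate (m - M - p) w)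
  set L : List (ZMod M → V) := [] ++ (P ++ List.replicate p w) ++ List.replicate (m - M - p) w
    with hLdef
  set Q : List (ZMod M → V) := [] ++ ([w] ++ List.replicate q w) ++ List.replicate (m - M - p) w
    with hQdef
  have hLlen : L.length = m + 1 := by
    simp only [hLdef, List.nil_append, List.length_append, List.length_replicate, hPlen]
    omega
  have hQlen : Q.length = m + 1 := by
    simp only [hQdef, List.nil_append, List.length_append, List.length_replicate,
      List.length_singleton]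
    omega
  have hrM : rot ((M : ℕ) : ZMod M) = w := by rw [hMM', rot0]
  have hLget : ∀ i, i ≤ m → L[i]? = some (rot ((min i M : ℕ) : ZMod M)) := by
    intro i hi
    simp only [hLdef, List.nil_append, List.append_assoc]
    rcases le_or_gt i M with hiM | hiM
    · rw [List.getElem?_append_left (by rw [hPlen]; omega), hPget i hiM, min_eq_left hiM]
    · rw [List.getElem?_append_right (by rw [hPlen]; omega), List.replicate_append_replicate,
        hPlen, List.getElem?_replicate, if_pos (by omega), min_eq_right hiM.le, hrM]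
  have hQget : ∀ i, i ≤ m → Q[i]? = some w := by
    intro i hi
    have hQ' : Q = List.replicate (m + 1) w := by
      simp only [hQdef, List.nil_append]
      rw [show ([w] : List (ZMod M → V)) = List.replicate 1 w from rfl,
        List.replicate_append_replicate, List.replicate_append_replicate]
      congr 1
      omega
    rw [hQ', List.getElem?_replicate, if_pos (by omega)]
  obtain ⟨K0, g, hg0, hgK, hgadj, hgl, hgr⟩ :=
    FE.rings hA hFE2 (pathOf L m hLlen hLget) hLlen
  have g0 : ∀ s, s ≤ m → g 0 s = rot ((min s M : ℕ) : ZMod M) := by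
    intro s hs
    have := hg0 s hs
    rw [hLget s hs] at this
    exact (Option.some.inj this).symm
  have gK : ∀ k s, K0 ≤ k → s ≤ m → g k s = w := by
    intro k s hk hs
    have := hgK k s hk hs
    rw [hQget s hs] at this
    exact (Option.some.inj this).symm
  have gl : ∀ k, g k 0 = w := by
    intro k
    rw [hgl k, g0 0 (by omega)]
    simp [rot0]
  have gr : ∀ k, g k m = w := by
    intro k
    rw [hgr k, g0 m le_rfl, min_eq_right (by omega), hrM]
  -- the second family
  set H : ℕ → ℤ → (ZMod M → V) := fun c a =>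
    if c < M then rot ((sg R M c a : ℤ) : ZMod M) else g (c - (M + 1)) a.toNat with hHdef
  have sgp := fun (c c' s s' : ℤ) => sg_props (R : ℤ) (M : ℤ) hR3 hMz c c' s s'
  have H0 : ∀ c, H c 0 = w := by
    intro c
    simp only [hHdef]
    split_ifs with hc
    · have h1 := (sgp (c : ℤ) c 0 0 (by positivity) (by positivity) (by simp) le_rfl le_rfl
        (by simp) (by positivity) (by positivity)).2.1
      rw [h1]; simp [rot0]
    · simpa using gl _
  have Hm : ∀ c, H c (m : ℤ) = w := by
    intro c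
    simp only [hHdef]
    split_ifs with hc
    · have h1 := (sgp (c : ℤ) c 0 0 (by positivity) (by positivity) (by simp) le_rfl le_rfl
        (by simp) (by positivity) (by positivity)).2.2.1
      rw [hmz, h1]; simp [rot0]
    · simpa using gr _
  have Hrot : ∀ c a, c ≤ M → 0 ≤ a → a ≤ (m : ℤ) →
      H c a = rot ((sg R M c a : ℤ) : ZMod M) := by
    intro c a hc ha ham
    simp only [hHdef]
    split_ifs with hc'
    · rfl
    · have hcM : c = M := by omega
      have h1 := (sgp (c : ℤ) c a a (by positivity) (by positivity) (by simp) ha ha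
        (by simp) (by rw [← hmz]; exact ham) (by rw [← hmz]; exact ham)).2.2.2.2
      subst hcM
      rw [h1, show c - (c + 1) = 0 by omega, g0 a.toNat (by omega)]
      congr 1
      have h2 : ((min a.toNat c : ℕ) : ℤ) = min a (c : ℤ) := by
        rw [Nat.cast_min, Int.toNat_of_nonneg ha]
      rw [← h2, Int.cast_natCast]
  have Hg : ∀ c a, M ≤ c → H c a = g (c - (M + 1)) a.toNat := by
    intro c a hc
    simp only [hHdef]
    rw [if_neg (by omega)]
  have Hadj : ∀ (c c' : ℕ) (a a' : ℤ), c' ≤ c + 1 → c ≤ c' + 1 → 0 ≤ a → a ≤ (m : ℤ) → 0 ≤ a' →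
      a' ≤ (m : ℤ) → |a - a'| ≤ 1 → AdL E (H c a) (H c' a') := by
    intro c c' a a' h1 h2 ha ham ha' ham' haa
    have haa' := abs_le.1 haa
    by_cases hcM : c ≤ M ∧ c' ≤ M
    · rw [Hrot c a hcM.1 ha ham, Hrot c' a' hcM.2 ha' ham']
      apply radj
      have h3 := (sgp (c' : ℤ) c a' a (by positivity) (by positivity)
        (by rw [abs_le]; constructor <;> omega) ha' ha (by rwa [abs_sub_comm])
        (by rw [← hmz]; exact ham') (by rw [← hmz]; exact ham)).1
      refine ⟨sg R M c' a' - sg R M c a, by linarith, ?_⟩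
      push_cast; ring
    · have hc1 : M ≤ c := by omega
      have hc2 : M ≤ c' := by omega
      rw [Hg c a hc1, Hg c' a' hc2]
      apply hgadj <;> omega
  have Hmod : ∀ (c : ℕ) (s a : ℤ), (s % (m : ℤ) = a ∨ (s % (m : ℤ) = 0 ∧ a = (m : ℤ))) →
      H c (s % (m : ℤ)) = H c a := by
    rintro c s a (h | ⟨h, rfl⟩)
    · rw [h]
    · rw [h, H0, Hm]
  have kper : ∀ t : ℤ, kap R (t + (m : ℤ)) = kap R t + M := by
    intro t
    rw [hmz]
    exact kap_period R M t hR0 hRodd hModd
  -- the filling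
  let G : ℕ → ℤ → ℤ → V := fun k s t =>
    match k with
    | 0 => w ((kap R (t + 2 * s) : ℤ) : ZMod M)
    | c + 1 => H c (s % (m : ℤ)) ((kap R t : ℤ) : ZMod M)
  have hstep : ∀ t t' : ℤ, |t - t'| = 1 → ((kap R t' : ℤ) : ZMod M) = (kap R t : ℤ) + 1 ∨
      ((kap R t' : ℤ) : ZMod M) = (kap R t : ℤ) - 1 := by
    intro t t' h
    have h1 : |kap R t' - kap R t| = 1 := by
      apply kap_step R t t' hR0
      · rcases (abs_eq (by norm_num : (0 : ℤ) ≤ 1)).1 h with h | h
        · exact ⟨-1, by linarith⟩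
        · exact ⟨0, by linarith⟩
      · rw [abs_sub_comm, h]; linarith
    rcases (abs_eq (by norm_num : (0 : ℤ) ≤ 1)).1 h1 with h | h
    · left
      rw [show kap R t' = kap R t + 1 by linarith]
      push_cast; ring
    · right
      rw [show kap R t' = kap R t - 1 by linarith]
      push_cast; ring
  have hrel : ∀ (u v : ZMod M → V) (t t' : ℤ), AdL E u v → |t - t'| = 1 →
      E (u ((kap R t : ℤ) : ZMod M)) (v ((kap R t' : ℤ) : ZMod M)) := by
    intro u v t t' huv h
    rcases hstep t t' h with h1 | h1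
    · rw [h1]; exact (huv _).1
    · rw [h1]; exact (huv _).2
  have adj01 : ∀ s s' t t' : ℤ, |s - s'| ≤ 1 → |t - t'| = 1 → E (G 0 s t) (G 1 s' t') := by
    intro s s' t t' hs ht'
    have hs1 := abs_le.1 hs
    have e0 : 0 ≤ s' % (m : ℤ) := Int.emod_nonneg _ hm0.ne'
    have e1 : s' % (m : ℤ) < m := Int.emod_lt_of_pos _ hm0
    have h1 : G 1 s' t' = w ((kap R t' + 2 * (s' / R) : ℤ) : ZMod M) := by
      show H 0 (s' % (m : ℤ)) ((kap R t' : ℤ) : ZMod M) = _
      rw [Hrot 0 _ (by omega) e0 e1.le]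
      have h2 := (sgp (0 : ℤ) 0 (s' % (m : ℤ)) (s' % (m : ℤ)) le_rfl le_rfl (by simp) e0 e0
        (by simp) (by rw [← hmz]; exact e1.le) (by rw [← hmz]; exact e1.le)).2.2.2.1
      simp only [Nat.cast_zero]
      rw [h2]
      have h3 : s' / (R : ℤ) = s' % (m : ℤ) / (R : ℤ) + M * (s' / (m : ℤ)) := by
        have h4 : s' = s' % (m : ℤ) + (M * (s' / (m : ℤ))) * R := by
          have := Int.emod_add_mul_ediv s' (m : ℤ)
          rw [hmz] at this ⊢
          linarith
        conv_lhs => rw [h4]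
        rw [Int.add_mul_ediv_right _ _ hR0.ne']
      rw [h3]
      simp only [hrot]
      congr 1
      push_cast
      simp only [CharP.cast_eq_zero]
      ring
    rw [h1]
    show E (w ((kap R (t + 2 * s) : ℤ) : ZMod M)) _
    apply hw
    refine ⟨kap R t' + 2 * (s' / R) - kap R (t + 2 * s), ?_, ?_, by push_cast; ring⟩
    · obtain ⟨x, hx⟩ := kap_even R t'
      obtain ⟨y, hy⟩ := kap_even R (t + 2 * s)
      rcases (abs_eq (by norm_num : (0 : ℤ) ≤ 1)).1 ht' with h | h
      · exact ⟨x - y + (s' / R) - s - 1, by linarith⟩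
      · exact ⟨x - y + (s' / R) - s, by linarith⟩
    · have k1 := kap_le R t'
      have k2 := kap_le R (t + 2 * s)
      have d1 := Int.mul_ediv_self_le (x := t') (k := (R : ℤ)) hR0.ne'
      have d2 := Int.lt_mul_ediv_self_add (x := t') (k := (R : ℤ)) hR0
      have d3 := Int.mul_ediv_self_le (x := s') (k := (R : ℤ)) hR0.ne'
      have d4 := Int.lt_mul_ediv_self_add (x := s') (k := (R : ℤ)) hR0
      have d5 := Int.mul_ediv_self_le (x := t + 2 * s) (k := (R : ℤ)) hR0.ne'
      have d6 := Int.lt_mul_ediv_self_add (x := t + 2 * s) (k := (R : ℤ)) hR0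
      have ht2 := abs_le.1 ht'.le
      have u1 : (R : ℤ) * (t' / R + 2 * (s' / R) - (t + 2 * s) / R) < R * 2 := by
        linarith
      have u2 : (R : ℤ) * (-4) < (R : ℤ) * (t' / R + 2 * (s' / R) - (t + 2 * s) / R) := by
        linarith
      have u3 := lt_of_mul_lt_mul_left u1 hR0.le
      have u4 := lt_of_mul_lt_mul_left u2 hR0.le
      rw [abs_le]
      constructor <;> linarith
  have adjpos : ∀ (c c' : ℕ) (s s' t t' : ℤ), c' ≤ c + 1 → c ≤ c' + 1 → |s - s'| ≤ 1 →
      |t - t'| = 1 → E (G (c + 1) s t) (G (c' + 1) s' t') := by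
    intro c c' s s' t t' h1 h2 hs ht'
    obtain ⟨a, a', b1, b2, b3, b4, b5, b6, b7⟩ := near_mod (m : ℤ) hm0 s s' hs
    show E (H c (s % (m : ℤ)) _) (H c' (s' % (m : ℤ)) _)
    rw [Hmod c s a b6, Hmod c' s' a' b7]
    exact hrel _ _ t t' (Hadj c c' a a' h1 h2 b1 b2 b3 b4 b5) ht'
  refine ⟨m, M + 2 + K0, hmodd, hm3, ⟨{
    G := G
    w := fun t => w ((kap R t : ℤ) : ZMod M)
    c := fun t => w ((kap R t : ℤ) : ZMod M)
    perS := ?_
    perT := ?_
    adj := ?_
    bd := ?_
    cen := ?_ }⟩⟩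
  · intro k s t
    match k with
    | 0 =>
      show w ((kap R (t + 2 * (s + (m : ℤ))) : ℤ) : ZMod M) = w ((kap R (t + 2 * s) : ℤ) : ZMod M)
      rw [show t + 2 * (s + (m : ℤ)) = (t + 2 * s + m) + m by ring, kper, kper]
      push_cast
      simp
    | c + 1 =>
      show H c ((s + (m : ℤ)) % (m : ℤ)) _ = H c (s % (m : ℤ)) _
      rw [Int.add_emod_right]
  · intro k s t
    match k with
    | 0 =>
      show w ((kap R (t + (m : ℤ) + 2 * s) : ℤ) : ZMod M) = w ((kap R (t + 2 * s) : ℤ) : ZMod M)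
      rw [show t + (m : ℤ) + 2 * s = (t + 2 * s) + m by ring, kper]
      push_cast
      simp
    | c + 1 =>
      show H c (s % (m : ℤ)) ((kap R (t + (m : ℤ)) : ℤ) : ZMod M) =
        H c (s % (m : ℤ)) ((kap R t : ℤ) : ZMod M)
      rw [kper]
      push_cast
      simp
  · intro k k' s s' t t' hk hk' hs ht'
    match k, k' with
    | 0, 0 =>
      show E (w ((kap R (t + 2 * s) : ℤ) : ZMod M)) (w ((kap R (t' + 2 * s') : ℤ) : ZMod M))
      apply hw
      have hs1 := abs_le.1 hs
      have ht2 := abs_le.1 ht'.le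
      have h1 : |kap R (t' + 2 * s') - kap R (t + 2 * s)| = 1 := by
        apply kap_step _ _ _ hR0
        · rcases (abs_eq (by norm_num : (0 : ℤ) ≤ 1)).1 ht' with h | h
          · exact ⟨s' - s - 1, by linarith⟩
          · exact ⟨s' - s, by linarith⟩
        · rw [abs_le]; constructor <;> linarith
      refine ⟨kap R (t' + 2 * s') - kap R (t + 2 * s), ?_, by rw [h1]; norm_num,
        by push_cast; ring⟩
      rcases (abs_eq (by norm_num : (0 : ℤ) ≤ 1)).1 h1 with h | h
      · rw [h]; exact ⟨0, by norm_num⟩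
      · rw [h]; exact ⟨-1, by norm_num⟩
    | 0, c + 1 =>
      have : c = 0 := by omega
      subst this
      exact adj01 s s' t t' hs ht'
    | c + 1, 0 =>
      have : c = 0 := by omega
      subst this
      exact hE _ _ (adj01 s' s t' t (by rwa [abs_sub_comm]) (by rwa [abs_sub_comm]))
    | c + 1, c' + 1 =>
      exact adjpos c c' s s' t t' (by omega) (by omega) hs ht'
  · intro s t
    rfl
  · intro k s t hk
    match k with
    | 0 => omega
    | c + 1 =>
      show H c (s % (m : ℤ)) _ = _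
      have e0 : 0 ≤ s % (m : ℤ) := Int.emod_nonneg _ hm0.ne'
      have e1 : s % (m : ℤ) < m := Int.emod_lt_of_pos _ hm0
      rw [Hg c _ (by omega), gK _ _ (by omega) (by omega)]

end Pool.Agent.Helper25.PH
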