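import Pool.Agent.Helper25.PH.Defs

/-! Module PH-12: a filling gives a homomorphism from an iterated Mycielskian -/

set_option autoImplicit false
set_option linter.all false

namespace Pool.Agent.Helper25.PH

namespace Sph

/-- the residue of `x` modulo `m` with the parity of `p` -/
def rep (m : ℕ) (x p : ℤ) : ℤ := if (x - p) % 2 = 0 then x else x + m

/-- neighbours on the cycle -/
def CC (m : ℕ) (x x' : ℤ) : Prop := ∃ q : ℤ, x' = x + 1 + m * q ∨ x' = x - 1 + m * q

theorem rep_par {m : ℕ} (hm : Odd m) (x p : ℤ) : (rep m x p - p) % 2 = 0 := by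
  obtain ⟨k, rfl⟩ := hm
  unfold rep
  split_ifs with h
  · exact h
  · push_cast
    omega

theorem rep_eq (m : ℕ) (x p : ℤ) : ∃ e : ℤ, rep m x p = x + m * e := by
  unfold rep
  split_ifs with h
  · exact ⟨0, by ring⟩
  · exact ⟨1, by ring⟩

theorem rep_congr (m : ℕ) (x p p' : ℤ) (h : (p - p') % 2 = 0) : rep m x p = rep m x p' := by
  unfold rep
  have : (x - p) % 2 = 0 ↔ (x - p') % 2 = 0 := by omega
  simp only [this]

theorem even_of_mul {m z : ℤ} (hm : m % 2 = 1) (h : (m * z) % 2 = 0) : z % 2 = 0 := by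
  rcases Int.emod_two_eq_zero_or_one z with h0 | h1
  · exact h0
  · rw [Int.mul_emod, hm, h1] at h
    norm_num at h

theorem rep_near {m : ℕ} (hm : Odd m) {x x' p p' : ℤ} (h : CC m x x') (hp : (p - p') % 2 = 1) :
    CC (2 * m) (rep m x p) (rep m x' p') := by
  obtain ⟨q, hq⟩ := h
  obtain ⟨e, he⟩ := rep_eq m x p
  obtain ⟨e', he'⟩ := rep_eq m x' p'
  have h1 := rep_par hm x p
  have h2 := rep_par hm x' p'
  have hm' : (m : ℤ) % 2 = 1 := by
    obtain ⟨k, rfl⟩ := hm
    push_cast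
    omega
  have key : ((m : ℤ) * (q + e' - e)) % 2 = 0 := by
    have : (m : ℤ) * (q + e' - e) = m * q + m * e' - m * e := by ring
    rw [this]
    omega
  have h3 := even_of_mul hm' key
  obtain ⟨z, hz⟩ : ∃ z, q + e' - e = 2 * z := ⟨(q + e' - e) / 2, by omega⟩
  refine ⟨z, ?_⟩
  have h4 : (m : ℤ) * q + m * e' - m * e = ((2 * m : ℕ) : ℤ) * z := by
    have : (m : ℤ) * q + m * e' - m * e = m * (q + e' - e) := by ring
    rw [this, hz]
    push_cast
    ring
  rcases hq with hq | hq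
  · left
    rw [he, he', ← h4, hq]
    ring
  · right
    rw [he, he', ← h4, hq]
    ring

section

variable {V : Type} {E : V → V → Prop} {m K : ℕ} (Φ : Fill E m K)

theorem perS' (k : ℕ) (s t : ℤ) (q : ℤ) : Φ.G k (s + m * q) t = Φ.G k s t := by
  induction q using Int.induction_on with
  | zero => simp
  | succ i ih =>
    have : s + (m : ℤ) * (i + 1) = (s + m * i) + m := by ring
    rw [this, Φ.perS, ih]
  | pred i ih =>
    have : s + (m : ℤ) * (-i) = (s + m * (-i - 1)) + m := by ring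
    rw [this, Φ.perS] at ih
    exact ih

theorem perT' (k : ℕ) (s t : ℤ) (q : ℤ) : Φ.G k s (t + m * q) = Φ.G k s t := by
  induction q using Int.induction_on with
  | zero => simp
  | succ i ih =>
    have : t + (m : ℤ) * (i + 1) = (t + m * i) + m := by ring
    rw [this, Φ.perT, ih]
  | pred i ih =>
    have : t + (m : ℤ) * (-i) = (t + m * (-i - 1)) + m := by ring
    rw [this, Φ.perT] at ih
    exact ih

/-- the discs -/
def B (k : ℕ) (b : ℤ) : V := Φ.G k (b / 2) (b % 2)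

theorem cAdj {t t' : ℤ} (h : |t - t'| = 1) : E (Φ.c t) (Φ.c t') := by
  have := Φ.adj K K 0 0 t t' (by omega) (by omega) (by simp) h
  rwa [Φ.cen K 0 t le_rfl, Φ.cen K 0 t' le_rfl] at this

theorem B_cen {k : ℕ} (hk : K ≤ k) (b : ℤ) : B Φ k b = Φ.c (b % 2) := Φ.cen k _ _ hk

theorem B_per (k : ℕ) (b q : ℤ) : B Φ k (b + ((2 * m : ℕ) : ℤ) * q) = B Φ k b := by
  unfold B
  have h : b + ((2 * m : ℕ) : ℤ) * q = b + 2 * (m * q) := by
    push_cast
    ring
  have h1 : (b + 2 * ((m : ℤ) * q)) / 2 = b / 2 + m * q := by omega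
  have h2 : (b + 2 * ((m : ℤ) * q)) % 2 = b % 2 := by omega
  rw [h, h1, h2, perS']

theorem B_adj {k k' : ℕ} (h1 : k' ≤ k + 1) (h2 : k ≤ k' + 1) {b b' : ℤ}
    (h : CC (2 * m) b b' ∨ (K ≤ k ∧ K ≤ k' ∧ (b - b') % 2 = 1)) : E (B Φ k b) (B Φ k' b') := by
  rcases h with ⟨q, hq | hq⟩ | ⟨h3, h4, h5⟩
  · rw [hq, B_per]
    refine Φ.adj _ _ _ _ _ _ h1 h2 (abs_le.2 ⟨by omega, by omega⟩) ?_
    rcases Int.emod_two_eq_zero_or_one b with h0 | h0
    · have : b % 2 - (b + 1) % 2 = -1 := by omega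
      rw [this]
      norm_num
    · have : b % 2 - (b + 1) % 2 = 1 := by omega
      rw [this]
      norm_num
  · rw [hq, B_per]
    refine Φ.adj _ _ _ _ _ _ h1 h2 (abs_le.2 ⟨by omega, by omega⟩) ?_
    rcases Int.emod_two_eq_zero_or_one b with h0 | h0
    · have : b % 2 - (b - 1) % 2 = -1 := by omega
      rw [this]
      norm_num
    · have : b % 2 - (b - 1) % 2 = 1 := by omega
      rw [this]
      norm_num
  · rw [B_cen Φ h3, B_cen Φ h4]
    apply cAdj
    rcases Int.emod_two_eq_zero_or_one b with h0 | h0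
    · have : b % 2 - b' % 2 = -1 := by omega
      rw [this]
      norm_num
    · have : b % 2 - b' % 2 = 1 := by omega
      rw [this]
      norm_num

/-- the map on the level `j` of the outer Mycielskian -/
def Fm (j i : ℕ) (x : ℤ) : V :=
  if j ≤ m + 1 then
    (if (i + j) % 2 = 0 then Φ.G i (rep m x i / 2 - ((j / 2 : ℕ) : ℤ)) j else B Φ i (rep m x i))
  else B Φ (max i (j - m - 1)) (rep m x (j + 1))

/-- the relation between the levels and the indices of two adjacent vertices -/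
def NbR (m K i i' : ℕ) (x x' : ℤ) : Prop :=
  (i = 0 ∧ i' = 0 ∧ CC m x x') ∨
    ((i' = i + 1 ∨ i = i' + 1) ∧ (CC m x x' ∨ (K ≤ i ∧ K ≤ i')))

theorem w_per (t q : ℤ) : Φ.w (t + m * q) = Φ.w t := by
  have h1 := Φ.bd 0 (t + m * q)
  have h2 := Φ.bd 0 t
  rw [perT'] at h1
  rw [h1] at h2
  simpa using h2

theorem w_adj {x x' : ℤ} (h : CC m x x') : E (Φ.w x) (Φ.w x') := by
  have h0 : ∀ t, Φ.w t = Φ.G 0 0 t := by
    intro t
    rw [Φ.bd]
    simp
  obtain ⟨q, rfl | rfl⟩ := h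
  · rw [w_per, h0, h0]
    refine Φ.adj 0 0 0 0 _ _ (by omega) (by omega) (by simp) ?_
    have : x - (x + 1) = -1 := by ring
    rw [this]
    norm_num
  · rw [w_per, h0, h0]
    refine Φ.adj 0 0 0 0 _ _ (by omega) (by omega) (by simp) ?_
    have : x - (x - 1) = 1 := by ring
    rw [this]
    norm_num

theorem w_rep (x p : ℤ) : Φ.w (rep m x p) = Φ.w x := by
  obtain ⟨e, he⟩ := rep_eq m x p
  rw [he, w_per]

theorem B_zero (b : ℤ) : B Φ 0 b = Φ.w b := by
  unfold B
  rw [Φ.bd]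
  congr 1
  omega

theorem Fm_zero_low (hm : Odd m) {j : ℕ} (hj : j ≤ m + 1) (x : ℤ) : Fm Φ j 0 x = Φ.w x := by
  unfold Fm
  rw [if_pos hj]
  split_ifs with h
  · rw [Φ.bd, ← w_rep Φ x ((0 : ℕ) : ℤ)]
    congr 1
    have h1 := rep_par hm x ((0 : ℕ) : ℤ)
    push_cast at h1 ⊢
    omega
  · rw [B_zero, w_rep]

theorem Fm_zero (hm : Odd m) (i : ℕ) (x : ℤ) : Fm Φ 0 i x = B Φ i (rep m x i) := by
  unfold Fm
  rw [if_pos (Nat.zero_le _)]
  split_ifs with h
  · unfold B
    have h1 := rep_par hm x i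
    have h2 : rep m x i % 2 = 0 := by omega
    rw [h2]
    simp
  · rfl

theorem Fm_top (hm : Odd m) {j : ℕ} (hj : m + 1 ≤ j) (i : ℕ) (x : ℤ) :
    Fm Φ j i x = B Φ (max i (j - m - 1)) (rep m x (j + 1)) := by
  rcases eq_or_lt_of_le hj with rfl | hj
  · have h0 : max i (m + 1 - m - 1) = i := by
      have : m + 1 - m - 1 = 0 := by omega
      rw [this]
      exact Nat.max_eq_left (Nat.zero_le _)
    rw [h0]
    unfold Fm
    rw [if_pos le_rfl]
    have hm2 : m % 2 = 1 := by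
      obtain ⟨k, rfl⟩ := hm
      omega
    split_ifs with h
    · have h1 := rep_par hm x i
      have h2 := rep_par hm x (((m + 1 : ℕ) : ℤ) + 1)
      obtain ⟨e, he⟩ : ∃ e : ℤ, rep m x (((m + 1 : ℕ) : ℤ) + 1) = rep m x i + m * e ∧
          (e = 1 ∨ e = -1) := by
        have h3 : ∀ p, rep m x p = x ∨ rep m x p = x + m := by
          intro p
          unfold rep
          split_ifs
          · exact Or.inl rfl
          · exact Or.inr rfl
        rcases h3 i with h4 | h4 <;> rcases h3 (((m + 1 : ℕ) : ℤ) + 1) with h5 | h5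
        · exfalso
          rw [h4] at h1
          rw [h5] at h2
          push_cast at h2
          omega
        · exact ⟨1, by rw [h4, h5]; ring, Or.inl rfl⟩
        · exact ⟨-1, by rw [h4, h5]; ring, Or.inr rfl⟩
        · exfalso
          rw [h4] at h1
          rw [h5] at h2
          push_cast at h2
          omega
      have hT : Φ.G i (rep m x i / 2 - (((m + 1) / 2 : ℕ) : ℤ)) ((m + 1 : ℕ) : ℤ) =
          Φ.G i (rep m x i / 2 - (((m + 1) / 2 : ℕ) : ℤ)) 1 := by
        have : ((m + 1 : ℕ) : ℤ) = 1 + m * 1 := by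
          push_cast
          ring
        rw [this, perT']
      rw [hT, he.1]
      unfold B
      rcases he.2 with rfl | rfl
      · have h5 : (rep m x i + m * 1) % 2 = 1 := by omega
        have h6 : (rep m x i + m * 1) / 2 =
            rep m x i / 2 - (((m + 1) / 2 : ℕ) : ℤ) + m * 1 := by
          push_cast
          omega
        rw [h5, h6, perS']
      · have h5 : (rep m x i + m * (-1)) % 2 = 1 := by omega
        have h6 : (rep m x i + m * (-1)) / 2 = rep m x i / 2 - (((m + 1) / 2 : ℕ) : ℤ) := by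
          push_cast
          omega
        rw [h5, h6]
    · congr 1
      apply rep_congr
      push_cast
      omega
  · unfold Fm
    rw [if_neg (by omega)]

/-- the main step -/
theorem Fm_adj (hm : Odd m) {j i i' : ℕ} {x x' : ℤ} (h : NbR m K i i' x x') :
    E (Fm Φ j i x) (Fm Φ (j + 1) i' x') := by
  rcases Nat.lt_or_ge m j with hj | hj
  · rw [Fm_top Φ hm (by omega), Fm_top Φ hm (by omega)]
    rcases h with ⟨rfl, rfl, h1⟩ | ⟨h1, h2⟩
    · refine B_adj Φ (by omega) (by omega) (Or.inl (rep_near hm h1 (by push_cast; omega)))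
    · rcases h2 with h2 | ⟨h2, h3⟩
      · exact B_adj Φ (by omega) (by omega) (Or.inl (rep_near hm h2 (by push_cast; omega)))
      · refine B_adj Φ (by omega) (by omega) (Or.inr ⟨by omega, by omega, ?_⟩)
        have h5 := rep_par hm x (j + 1)
        have h6 := rep_par hm x' (((j + 1 : ℕ) : ℤ) + 1)
        omega
  · rcases h with ⟨rfl, rfl, h1⟩ | ⟨h1, h2⟩
    · rw [Fm_zero_low Φ hm (by omega), Fm_zero_low Φ hm (by omega)]
      exact w_adj Φ h1
    · have hp : ((i : ℤ) - i') % 2 = 1 := by omega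
      have h3 := rep_par hm x i
      have h4 := rep_par hm x' i'
      unfold Fm
      rw [if_pos (show j ≤ m + 1 by omega), if_pos (show j + 1 ≤ m + 1 by omega)]
      by_cases hij : (i + j) % 2 = 0
      · rw [if_pos hij, if_pos (show (i' + (j + 1)) % 2 = 0 by omega)]
        rcases h2 with h2 | ⟨h2, h2'⟩
        · obtain ⟨q, hq⟩ := rep_near hm h2 hp
          have h5 : ((2 * m : ℕ) : ℤ) * q = 2 * (m * q) := by
            push_cast
            ring
          rw [h5] at hq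
          have h6 : Φ.G i' (rep m x' i' / 2 - (((j + 1) / 2 : ℕ) : ℤ)) ((j + 1 : ℕ) : ℤ) =
              Φ.G i' (rep m x' i' / 2 - (((j + 1) / 2 : ℕ) : ℤ) - m * q) ((j + 1 : ℕ) : ℤ) := by
            have := perS' Φ i' (rep m x' i' / 2 - (((j + 1) / 2 : ℕ) : ℤ) - m * q)
              ((j + 1 : ℕ) : ℤ) q
            rw [← this]
            congr 1
            ring
          rw [h6]
          refine Φ.adj _ _ _ _ _ _ (by omega) (by omega) (abs_le.2 ⟨?_, ?_⟩) ?_
          · push_cast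
            rcases hq with hq | hq <;> omega
          · push_cast
            rcases hq with hq | hq <;> omega
          · have : (j : ℤ) - ((j + 1 : ℕ) : ℤ) = -1 := by
              push_cast
              ring
            rw [this]
            norm_num
        · rw [Φ.cen i _ _ h2, Φ.cen i' _ _ h2']
          apply cAdj
          have : (j : ℤ) - ((j + 1 : ℕ) : ℤ) = -1 := by
            push_cast
            ring
          rw [this]
          norm_num
      · rw [if_neg hij, if_neg (show ¬ (i' + (j + 1)) % 2 = 0 by omega)]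
        rcases h2 with h2 | ⟨h2, h2'⟩
        · exact B_adj Φ (by omega) (by omega) (Or.inl (rep_near hm h2 hp))
        · exact B_adj Φ (by omega) (by omega) (Or.inr ⟨h2, h2', by omega⟩)

theorem Fm_adj0 (hm : Odd m) {i i' : ℕ} {x x' : ℤ} (h : NbR m K i i' x x') :
    E (Fm Φ 0 i x) (Fm Φ 0 i' x') := by
  rcases h with ⟨rfl, rfl, h1⟩ | ⟨h1, h2⟩
  · rw [Fm_zero_low Φ hm (by omega), Fm_zero_low Φ hm (by omega)]
    exact w_adj Φ h1
  · rw [Fm_zero Φ hm, Fm_zero Φ hm]
    have hp : ((i : ℤ) - i') % 2 = 1 := by omega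
    have h3 := rep_par hm x i
    have h4 := rep_par hm x' i'
    rcases h2 with h2 | ⟨h2, h2'⟩
    · exact B_adj Φ (by omega) (by omega) (Or.inl (rep_near hm h2 hp))
    · exact B_adj Φ (by omega) (by omega) (Or.inr ⟨h2, h2', by omega⟩)

theorem Fm_apex (hm : Odd m) (i : ℕ) (x : ℤ) :
    E (Fm Φ (m + 1 + K) i x) (Φ.c ((((m + 1 + K + 1) % 2 : ℕ) : ℤ) + 1)) := by
  rw [Fm_top Φ hm (by omega), B_cen Φ (by omega)]
  apply cAdj
  have h1 := rep_par hm x (((m + 1 + K : ℕ) : ℤ) + 1)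
  have : rep m x (((m + 1 + K : ℕ) : ℤ) + 1) % 2 -
      ((((m + 1 + K + 1) % 2 : ℕ) : ℤ) + 1) = -1 := by
    push_cast at h1 ⊢
    omega
  rw [this]
  norm_num

end

theorem NbR.symm {m K i i' : ℕ} {x x' : ℤ} (h : NbR m K i i' x x') : NbR m K i' i x' x := by
  have hC : CC m x x' → CC m x' x := by
    rintro ⟨q, hq | hq⟩
    · exact ⟨-q, Or.inr (by rw [hq]; ring)⟩
    · exact ⟨-q, Or.inl (by rw [hq]; ring)⟩
  rcases h with ⟨h1, h2, h3⟩ | ⟨h1, h2⟩
  · exact Or.inl ⟨h2, h1, hC h3⟩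
  · exact Or.inr ⟨h1.symm, h2.imp hC fun h => ⟨h.2, h.1⟩⟩

/-- the level -/
def lv {m K : ℕ} : Option (ZMod m × Fin (K + 1)) → ℕ
  | some p => p.2
  | none => K + 1

/-- the index -/
def xx {m K : ℕ} : Option (ZMod m × Fin (K + 1)) → ℤ
  | some p => (p.1.val : ℤ)
  | none => 0

theorem cc_of_cyc {m : ℕ} (hm : Odd m) {x y : ZMod m} (h : Cyc m x y) :
    CC m (x.val : ℤ) (y.val : ℤ) := by
  have : NeZero m := ⟨by
    rintro rfl
    exact absurd hm (by decide)⟩
  have hx : ((x.val : ℤ) : ZMod m) = x := by simp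
  have hy : ((y.val : ℤ) : ZMod m) = y := by simp
  rcases h with h | h
  · have h1 : (((y.val : ℤ) - (x.val + 1) : ℤ) : ZMod m) = 0 := by
      push_cast
      simp [h]
    obtain ⟨q, hq⟩ := (ZMod.intCast_zmod_eq_zero_iff_dvd _ _).1 h1
    exact ⟨q, Or.inl (by linarith)⟩
  · have h1 : (((y.val : ℤ) - (x.val - 1) : ℤ) : ZMod m) = 0 := by
      push_cast
      simp [h]
    obtain ⟨q, hq⟩ := (ZMod.intCast_zmod_eq_zero_iff_dvd _ _).1 h1
    exact ⟨q, Or.inr (by linarith)⟩

theorem nbR_of_myc {m K : ℕ} (hm : Odd m) {y y' : Option (ZMod m × Fin (K + 1))}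
    (h : Myc K (Cyc m) y y') : NbR m K (lv y) (lv y') (xx y) (xx y') := by
  rcases y with _ | p <;> rcases y' with _ | p'
  · exact h.elim
  · have h1 : p'.2.1 = K := h
    refine Or.inr ⟨Or.inr ?_, Or.inr ⟨?_, ?_⟩⟩ <;> simp [lv, h1]
  · have h1 : p.2.1 = K := h
    refine Or.inr ⟨Or.inl ?_, Or.inr ⟨?_, ?_⟩⟩ <;> simp [lv, h1]
  · obtain ⟨h1, h2⟩ := h
    have h3 := cc_of_cyc hm h1
    rcases h2 with h2 | h2 | h2
    · exact Or.inl ⟨h2.1, h2.2, h3⟩
    · exact Or.inr ⟨Or.inl h2, Or.inl h3⟩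
    · exact Or.inr ⟨Or.inr h2, Or.inl h3⟩

end Sph

open Sph in
/-- PH-12. -/
theorem Fill.hom {V : Type} {E : V → V → Prop} (hE : ∀ u v, E u v → E v u) {m K : ℕ}
    (hm : Odd m) (Φ : Fill E m K) : ∃ r r' : ℕ, HomTo (Myc r (Myc r' (Cyc m))) E := by
  refine ⟨m + 1 + K, K, fun z => match z with
    | some p => Fm Φ p.2 (lv p.1) (xx p.1)
    | none => Φ.c ((((m + 1 + K + 1) % 2 : ℕ) : ℤ) + 1), ?_⟩
  rintro (_ | ⟨y, j⟩) (_ | ⟨y', j'⟩) h
  · exact h.elim
  · have h1 : j'.1 = m + 1 + K := h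
    refine hE _ _ ?_
    show E (Fm Φ j'.1 (lv y') (xx y')) _
    rw [h1]
    exact Fm_apex Φ hm _ _
  · have h1 : j.1 = m + 1 + K := h
    show E (Fm Φ j.1 (lv y) (xx y)) _
    rw [h1]
    exact Fm_apex Φ hm _ _
  · obtain ⟨h1, h2⟩ := h
    have h3 := nbR_of_myc hm h1
    show E (Fm Φ j.1 (lv y) (xx y)) (Fm Φ j'.1 (lv y') (xx y'))
    rcases h2 with ⟨h4, h5⟩ | h4 | h4
    · have h4' : j.1 = 0 := h4
      have h5' : j'.1 = 0 := h5
      rw [h4', h5']
      exact Fm_adj0 Φ hm h3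
    · have h4' : j'.1 = j.1 + 1 := h4
      rw [h4']
      exact Fm_adj Φ hm h3
    · have h4' : j.1 = j'.1 + 1 := h4
      rw [h4']
      exact hE _ _ (Fm_adj Φ hm h3.symm)

end Pool.Agent.Helper25.PH
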