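import Pool.Agent.Helper25.PH.Loops
import Pool.Agent.Helper25.PH.FillEx
import Pool.Agent.Helper25.PH.Sphere

/-! Module PH-13: some direction is not null-homotopic -/

set_option autoImplicit false
set_option linter.all false

namespace Pool.Agent.Helper25.PH

/-- PH-13. -/
theorem exists_nt {V F : Type} [Finite F] {M : ℕ} (hM : Odd M) {E : V → V → Prop}
    (hE : ∀ u v, E u v → E v u)
    (hH : ∀ r r' l : ℕ, Odd l → 3 ≤ l → ¬ HomTo (Myc r (Myc r' (Cyc l))) E)
    {f : (F → ZMod M) → V} (hf : IsHom (PThick M F) E f) : ∃ i, ¬ LT E f {i} 0 := by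
  classical
  by_contra hcon
  push Not at hcon
  have h1 : LT E f Set.univ 0 :=
    LT.finite hE hf Set.univ Set.finite_univ 0 (fun i _ => hcon i)
  have hw : ∀ t t' : ZMod M, Thick M t t' → E (f (fun _ => t)) (f (fun _ => t')) := by
    intro t t' h
    exact hf _ _ (fun _ => h)
  obtain ⟨m, K, hm, hm3, ⟨Φ⟩⟩ := exists_fill (E := E) hE hM (fun t => f (fun _ => t)) hw (by
    have e1 : (fun s : ℕ => Psi f (mv (Set.univ : Set F) s 0))
        = (fun s : ℕ => fun t : ZMod M => f (fun _ => t + 2 * (s : ZMod M))) := by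
      funext s t
      simp only [Psi, mv, Set.mem_univ, if_true, Pi.zero_apply, zero_add]
      congr 1
      funext j
      ring
    have e2 : Psi f (0 : F → ZMod M) = (fun t : ZMod M => f (fun _ => t)) := by
      funext t
      simp [Psi]
    unfold LT at h1
    rw [e1, e2] at h1
    exact h1)
  obtain ⟨r, r', hr⟩ := Fill.hom hE hm Φ
  exact hH r r' m hm hm3 hr

end Pool.Agent.Helper25.PH
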