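import Pool.Agent.Helper25.PH.Sound
import Pool.Agent.Helper25.PH.Bdd
import Pool.Agent.Helper25.PH.Nonempty

/-! Module PH-14: soundness of the gap graph -/

set_option autoImplicit false
set_option linter.all false

namespace Pool.Agent.Helper25.PH

/-- the bound on the number of selected coordinates -/
def BB (M N : ℕ) : ℕ := 4 * M ^ 4 * N ^ 2

/-- PH-14. -/
theorem base_sound {V J Λ : Type} [Fintype V] [Finite J] [Finite Λ] {M N : ℕ} (hM : Odd M)
    {E : V → V → Prop} (hN : Fintype.card V ≤ N) (hE : ∀ u v, E u v → E v u)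
    (hH : ∀ r r' l : ℕ, Odd l → 3 ≤ l → ¬ HomTo (Myc r (Myc r' (Cyc l))) E)
    (R : J → Λ → J → Λ → Prop) (h : HomTo (Gap R M (2 * BB M N + 1)) E) :
    ∃ σ : J → Λ, ∀ x y, R x (σ x) y (σ y) := by
  refine sound_core E M (BB M N) (fun F f i => ¬ LT E f {i} 0) ?_ ?_ ?_ R h
  · intro F _ f hf
    exact exists_nt hM hE hH hf
  · intro F _ f hf S hS
    exact (bdd hM hE hf S hS).trans
      (Nat.mul_le_mul_left _ (Nat.pow_le_pow_left hN 2))
  · intro F F' _ _ f f' π hf hf' hc t ht
    exact LT.compat hE π hf hf' hc t ht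

end Pool.Agent.Helper25.PH
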