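import Pool.Agent.Helper25.PH.Defs
import Pool.Agent.Helper53.SC.Cnf

/-! Module PH-16: the binary constraint satisfaction instance of a list of clauses -/

set_option autoImplicit false
set_option linter.all false

namespace Pool.Agent.Helper25.PH

open Pool.Agent.Helper96

/-- the items: `(i, t)`, `i` a clause and `t ≤` its length -/
def items (cls : List (List (ℕ × Bool))) : List (ℕ × ℕ) :=
  (List.range cls.length).flatMap fun i =>
    (List.range ((cls.getD i []).length + 1)).map fun t => (i, t)

/-- the length of the clause of an item -/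
def ilen (cls : List (List (ℕ × Bool))) (x : ℕ × ℕ) : ℕ := (cls.getD x.1 []).length

/-- the literal of an item -/
def ilit (cls : List (List (ℕ × Bool))) (x : ℕ × ℕ) : ℕ × Bool :=
  (cls.getD x.1 []).getD x.2 (0, false)

/-- a label `(p, q, b)`: `p` a literal before the item is true, `q` a literal up to the item is
true, `b` the value of the variable of the item -/
abbrev Lab := Bool × Bool × Bool

/-- the unary constraints -/
def okU (cls : List (List (ℕ × Bool))) (x : ℕ × ℕ) (a : Lab) : Bool :=
  (!decide (x.2 = 0) || !a.1) && (!decide (x.2 = ilen cls x) || a.1) &&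
    (decide (x.2 = ilen cls x) || !a.2.1 || a.1 || decide (a.2.2 = (ilit cls x).2))

/-- the binary constraints -/
def okB (cls : List (List (ℕ × Bool))) (x : ℕ × ℕ) (a : Lab) (y : ℕ × ℕ) (b : Lab) : Bool :=
  (!decide (x = y) || decide (a = b)) &&
  (!(decide (x.1 = y.1) && decide (y.2 = x.2 + 1)) || decide (a.2.1 = b.1)) &&
    (decide (x.2 = ilen cls x) || decide (y.2 = ilen cls y) ||
      !decide ((ilit cls x).1 = (ilit cls y).1) || decide (a.2.2 = b.2.2))

/-- the constraint relation -/
def Rb (cls : List (List (ℕ × Bool))) (x : ℕ × ℕ) (a : Lab) (y : ℕ × ℕ) (b : Lab) : Bool :=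
  okU cls x a && okU cls y b && okB cls x a y b && okB cls y b x a

theorem mem_items (cls : List (List (ℕ × Bool))) (i t : ℕ) :
    (i, t) ∈ items cls ↔ i < cls.length ∧ t ≤ (cls.getD i []).length := by
  simp only [items, List.mem_flatMap, List.mem_range, List.mem_map, Prod.mk.injEq]
  constructor
  · rintro ⟨j, hj, t', ht', rfl, rfl⟩
    exact ⟨hj, by omega⟩
  · rintro ⟨h1, h2⟩
    exact ⟨i, h1, t, by omega, rfl, rfl⟩

/-- PH-16a. -/
theorem poly_items : Poly items := by
  unfold items
  refine Helper96.Poly.flatMap (h := fun (cls : List (List (ℕ × Bool))) i =>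
    (List.range ((cls.getD i []).length + 1)).map fun t => (i, t)) (by fun_prop) ?_
  refine Helper96.Poly.map (h := fun (q : List (List (ℕ × Bool)) × ℕ) (t : ℕ) => (q.2, t))
    (f := fun q : List (List (ℕ × Bool)) × ℕ => List.range ((q.1.getD q.2 []).length + 1))
    ?_ (by fun_prop)
  have h1 : Poly (fun q : List (List (ℕ × Bool)) × ℕ => q.1.getD q.2 []) :=
    Helper96.Poly.listGetD (by fun_prop) (by fun_prop) (by fun_prop)
  exact Helper96.Poly.range (Helper96.Poly.succ (Helper96.Poly.length h1))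

/-- PH-16b. -/
theorem poly_Rb (a b : Lab) : Poly (fun q : List (List (ℕ × Bool)) × ((ℕ × ℕ) × (ℕ × ℕ)) =>
    Rb q.1 q.2.1 a q.2.2 b) := by
  have h1 : Poly (fun q : List (List (ℕ × Bool)) × (ℕ × ℕ) => q.1.getD q.2.1 []) :=
    Helper96.Poly.listGetD (by fun_prop) (by fun_prop) (by fun_prop)
  have h2 : Poly (fun q : List (List (ℕ × Bool)) × (ℕ × ℕ) => ilen q.1 q.2) :=
    Helper96.Poly.length h1
  have h3 : Poly (fun q : List (List (ℕ × Bool)) × (ℕ × ℕ) => ilit q.1 q.2) :=
    Helper96.Poly.listGetD (by fun_prop) h1 (by fun_prop)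
  have x2 : Poly (fun q : List (List (ℕ × Bool)) × ((ℕ × ℕ) × (ℕ × ℕ)) => ilen q.1 q.2.1) :=
    h2.comp (f := fun q : List (List (ℕ × Bool)) × ((ℕ × ℕ) × (ℕ × ℕ)) => (q.1, q.2.1))
      (by fun_prop)
  have y2 : Poly (fun q : List (List (ℕ × Bool)) × ((ℕ × ℕ) × (ℕ × ℕ)) => ilen q.1 q.2.2) :=
    h2.comp (f := fun q : List (List (ℕ × Bool)) × ((ℕ × ℕ) × (ℕ × ℕ)) => (q.1, q.2.2))
      (by fun_prop)
  have x3 : Poly (fun q : List (List (ℕ × Bool)) × ((ℕ × ℕ) × (ℕ × ℕ)) => ilit q.1 q.2.1) :=
    h3.comp (f := fun q : List (List (ℕ × Bool)) × ((ℕ × ℕ) × (ℕ × ℕ)) => (q.1, q.2.1))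
      (by fun_prop)
  have y3 : Poly (fun q : List (List (ℕ × Bool)) × ((ℕ × ℕ) × (ℕ × ℕ)) => ilit q.1 q.2.2) :=
    h3.comp (f := fun q : List (List (ℕ × Bool)) × ((ℕ × ℕ) × (ℕ × ℕ)) => (q.1, q.2.2))
      (by fun_prop)
  unfold Rb okU okB
  generalize hg1 : (fun q : List (List (ℕ × Bool)) × ((ℕ × ℕ) × (ℕ × ℕ)) => ilen q.1 q.2.1) = g1
    at x2
  generalize hg2 : (fun q : List (List (ℕ × Bool)) × ((ℕ × ℕ) × (ℕ × ℕ)) => ilen q.1 q.2.2) = g2
    at y2
  generalize hg3 : (fun q : List (List (ℕ × Bool)) × ((ℕ × ℕ) × (ℕ × ℕ)) => ilit q.1 q.2.1) = g3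
    at x3
  generalize hg4 : (fun q : List (List (ℕ × Bool)) × ((ℕ × ℕ) × (ℕ × ℕ)) => ilit q.1 q.2.2) = g4
    at y3
  have e1 : ∀ q : List (List (ℕ × Bool)) × ((ℕ × ℕ) × (ℕ × ℕ)), ilen q.1 q.2.1 = g1 q :=
    fun q => congrFun hg1 q
  have e2 : ∀ q : List (List (ℕ × Bool)) × ((ℕ × ℕ) × (ℕ × ℕ)), ilen q.1 q.2.2 = g2 q :=
    fun q => congrFun hg2 q
  have e3 : ∀ q : List (List (ℕ × Bool)) × ((ℕ × ℕ) × (ℕ × ℕ)), ilit q.1 q.2.1 = g3 q :=
    fun q => congrFun hg3 q
  have e4 : ∀ q : List (List (ℕ × Bool)) × ((ℕ × ℕ) × (ℕ × ℕ)), ilit q.1 q.2.2 = g4 q :=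
    fun q => congrFun hg4 q
  simp only [e1, e2, e3, e4]
  clear e1 e2 e3 e4 hg1 hg2 hg3 hg4
  fun_prop

/-- PH-16c. -/
theorem cnf_iff (cls : List (List (ℕ × Bool))) :
    (∃ β : ℕ → Bool, ∀ c ∈ cls, ∃ l ∈ c, β l.1 = l.2) ↔
      ∃ σ : {x // x ∈ items cls} → Lab, ∀ x y, Rb cls x.1 (σ x) y.1 (σ y) = true := by
  classical
  constructor
  · rintro ⟨β, hβ⟩
    let P : ℕ → ℕ → Bool := fun i t =>
      decide (∃ t', t' < t ∧ β (ilit cls (i, t')).1 = (ilit cls (i, t')).2)
    have hP0 : ∀ i, P i 0 = false := by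
      intro i
      simp [P]
    have hPl : ∀ i < cls.length, P i (cls.getD i []).length = true := by
      intro i hi
      have hc : cls.getD i [] ∈ cls := by
        rw [List.getD_eq_getElem?_getD, List.getElem?_eq_getElem hi]
        exact List.getElem_mem hi
      obtain ⟨l, hl, h1⟩ := hβ _ hc
      obtain ⟨t, ht, h2⟩ := List.getElem_of_mem hl
      have h3 : ilit cls (i, t) = l := by
        unfold ilit
        rw [List.getD_eq_getElem?_getD (l := cls.getD i []), List.getElem?_eq_getElem ht]
        simpa using h2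
      simp only [P, decide_eq_true_eq]
      exact ⟨t, ht, by rw [h3]; exact h1⟩
    have hPs : ∀ i t, P i (t + 1) = true → P i t = false →
        β (ilit cls (i, t)).1 = (ilit cls (i, t)).2 := by
      intro i t h1 h2
      simp only [P, decide_eq_true_eq] at h1
      simp only [P, decide_eq_false_iff_not] at h2
      obtain ⟨t', ht', h3⟩ := h1
      rcases Nat.lt_succ_iff_lt_or_eq.1 ht' with h4 | h4
      · exact absurd ⟨t', h4, h3⟩ h2
      · rw [← h4]; exact h3
    have hU : ∀ x ∈ items cls, okU cls x (P x.1 x.2, P x.1 (x.2 + 1), β (ilit cls x).1) = true := by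
      rintro ⟨i, t⟩ hx
      have hi := ((mem_items cls i t).1 hx).1
      simp only [okU, Bool.and_eq_true, Bool.or_eq_true, Bool.not_eq_true', decide_eq_true_eq,
        decide_eq_false_iff_not]
      refine ⟨⟨?_, ?_⟩, ?_⟩
      · by_cases h : t = 0
        · right; subst h; exact hP0 i
        · left; exact h
      · by_cases h : t = ilen cls (i, t)
        · right
          have := hPl i hi
          change t = (cls.getD i []).length at h
          rw [h]; exact this
        · left; exact h
      · cases h1 : P i (t + 1)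
        · left; left; right; rfl
        · cases h2 : P i t
          · right; exact hPs i t h1 h2
          · left; right; rfl
    have hB : ∀ x y : ℕ × ℕ, okB cls x (P x.1 x.2, P x.1 (x.2 + 1), β (ilit cls x).1)
        y (P y.1 y.2, P y.1 (y.2 + 1), β (ilit cls y).1) = true := by
      rintro ⟨i, t⟩ ⟨j, s⟩
      simp only [okB, Bool.and_eq_true, Bool.or_eq_true, Bool.not_eq_true', decide_eq_true_eq,
        decide_eq_false_iff_not, Bool.and_eq_false_iff]
      refine ⟨⟨?_, ?_⟩, ?_⟩
      · by_cases h : ((i, t) : ℕ × ℕ) = (j, s)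
        · right
          obtain ⟨rfl, rfl⟩ := Prod.mk.inj h
          rfl
        · left; exact h
      · by_cases h1 : i = j
        · by_cases h2 : s = t + 1
          · right; subst h1; subst h2; rfl
          · left; right; exact h2
        · left; left; exact h1
      · by_cases h1 : (ilit cls (i, t)).1 = (ilit cls (j, s)).1
        · right; rw [h1]
        · left; right; exact h1
    refine ⟨fun x => (P x.1.1 x.1.2, P x.1.1 (x.1.2 + 1), β (ilit cls x.1).1), ?_⟩
    intro x y
    simp only [Rb, Bool.and_eq_true]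
    exact ⟨⟨⟨hU x.1 x.2, hU y.1 y.2⟩, hB x.1 y.1⟩, hB y.1 x.1⟩
  · rintro ⟨σ, hσ⟩
    have hU : ∀ x, okU cls x.1 (σ x) = true := by
      intro x
      have h := hσ x x
      simp only [Rb, Bool.and_eq_true] at h
      exact h.1.1.1
    have hB : ∀ x y, okB cls x.1 (σ x) y.1 (σ y) = true := by
      intro x y
      have h := hσ x y
      simp only [Rb, Bool.and_eq_true] at h
      exact h.1.2
    refine ⟨fun v => decide (∃ x : {x // x ∈ items cls}, x.1.2 ≠ ilen cls x.1 ∧
      (ilit cls x.1).1 = v ∧ (σ x).2.2 = true), ?_⟩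
    intro c hc
    obtain ⟨i, hi, hic⟩ := List.getElem_of_mem hc
    have hget : cls.getD i [] = c := by
      rw [List.getD_eq_getElem?_getD, List.getElem?_eq_getElem hi]
      exact hic
    have hm : ∀ t, t ≤ c.length → (i, t) ∈ items cls := by
      intro t ht
      rw [mem_items, hget]
      exact ⟨hi, ht⟩
    have hlen : ∀ t, ilen cls (i, t) = c.length := by
      intro t
      unfold ilen
      rw [hget]
    have h0 : ∀ (h : 0 ≤ c.length), (σ ⟨(i, 0), hm 0 h⟩).1 = false := by
      intro h
      have := hU ⟨(i, 0), hm 0 h⟩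
      simp only [okU, Bool.and_eq_true, Bool.or_eq_true, Bool.not_eq_true', decide_eq_true_eq,
        decide_eq_false_iff_not] at this
      rcases this.1.1 with h1 | h1
      · exact absurd trivial h1
      · exact h1
    have hl : ∀ (h : c.length ≤ c.length), (σ ⟨(i, c.length), hm _ h⟩).1 = true := by
      intro h
      have := hU ⟨(i, c.length), hm _ h⟩
      simp only [okU, Bool.and_eq_true, Bool.or_eq_true, Bool.not_eq_true', decide_eq_true_eq,
        decide_eq_false_iff_not, hlen] at this
      rcases this.1.2 with h1 | h1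
      · exact absurd trivial h1
      · exact h1
    have key : ∃ t, ∃ (h1 : t ≤ c.length) (h2 : t + 1 ≤ c.length),
        (σ ⟨(i, t), hm t h1⟩).1 = false ∧ (σ ⟨(i, t + 1), hm (t + 1) h2⟩).1 = true := by
      by_contra hne
      push Not at hne
      have hall : ∀ t (h : t ≤ c.length), (σ ⟨(i, t), hm t h⟩).1 = false := by
        intro t
        induction t with
        | zero => exact fun h => h0 h
        | succ t ih =>
          intro h
          have h1 := hne t (by omega) h (ih (by omega))
          simpa using h1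
      have h2 := hall c.length le_rfl
      rw [hl le_rfl] at h2
      exact absurd h2 (by simp)
    obtain ⟨t, h1, h2, h3, h4⟩ := key
    have h5 : (σ ⟨(i, t), hm t h1⟩).2.1 = true := by
      have := hB ⟨(i, t), hm t h1⟩ ⟨(i, t + 1), hm (t + 1) h2⟩
      simp only [okB, Bool.and_eq_true, Bool.or_eq_true, Bool.not_eq_true', decide_eq_true_eq,
        decide_eq_false_iff_not, Bool.and_eq_false_iff] at this
      rcases this.1.2 with (h6 | h6) | h6
      · exact absurd trivial h6
      · exact absurd trivial h6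
      · rw [h6]; exact h4
    have h6 : (σ ⟨(i, t), hm t h1⟩).2.2 = (ilit cls (i, t)).2 := by
      have := hU ⟨(i, t), hm t h1⟩
      simp only [okU, Bool.and_eq_true, Bool.or_eq_true, Bool.not_eq_true', decide_eq_true_eq,
        decide_eq_false_iff_not, hlen] at this
      rcases this.2 with ((h7 | h7) | h7) | h7
      · omega
      · rw [h5] at h7; exact absurd h7 (by simp)
      · rw [h3] at h7; exact absurd h7 (by simp)
      · exact h7
    have h7 : ilit cls (i, t) ∈ c := by
      unfold ilit
      rw [hget]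
      change c.getD t (0, false) ∈ c
      rw [List.getD_eq_getElem?_getD, List.getElem?_eq_getElem (by omega)]
      exact List.getElem_mem _
    refine ⟨ilit cls (i, t), h7, ?_⟩
    rw [← h6]
    cases h8 : (σ ⟨(i, t), hm t h1⟩).2.2
    · simp only [decide_eq_false_iff_not]
      rintro ⟨y, hy1, hy2, hy3⟩
      have := hB ⟨(i, t), hm t h1⟩ y
      simp only [okB, Bool.and_eq_true, Bool.or_eq_true, Bool.not_eq_true', decide_eq_true_eq,
        decide_eq_false_iff_not, Bool.and_eq_false_iff, hlen] at this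
      rcases this.2 with ((h9 | h9) | h9) | h9
      · omega
      · exact hy1 h9
      · exact h9 hy2.symm
      · rw [h8, hy3] at h9
        exact absurd h9 (by simp)
    · simp only [decide_eq_true_eq]
      refine ⟨⟨(i, t), hm t h1⟩, ?_, rfl, h8⟩
      change t ≠ ilen cls (i, t)
      rw [hlen]
      omega

end Pool.Agent.Helper25.PH
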