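import Pool.Agent.Helper25.PH.Defs

/-! Module PH-8: homotopic paths are flip equivalent after padding -/

set_option autoImplicit false
set_option linter.all false

namespace Pool.Agent.Helper25.PH

variable {W : Type} {A : W → W → Prop}

theorem Flip.ctx {P Q : List W} (h : Flip A P Q) (X Y : List W) :
    Flip A (X ++ P ++ Y) (X ++ Q ++ Y) := by
  obtain ⟨X', Y', a, b, b', c, rfl, rfl, h1, h2⟩ := h
  exact ⟨X ++ X', Y' ++ Y, a, b, b', c, by simp, by simp, h1, h2⟩

/-- PH-8a. Context. -/
theorem FE.ctx {P Q : List W} (h : FE A P Q) (X Y : List W) :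
    FE A (X ++ P ++ Y) (X ++ Q ++ Y) := by
  induction h with
  | refl => exact Relation.ReflTransGen.refl
  | tail _ h1 ih => exact ih.tail (Flip.ctx h1 X Y)

theorem Flip.symm' {P Q : List W} (h : Flip A P Q) : Flip A Q P := by
  obtain ⟨X, Y, a, b, b', c, rfl, rfl, h1, h2⟩ := h
  refine ⟨X, Y, a, b', b, c, rfl, rfl, ?_, ?_⟩
  · intro x hx y hy
    refine h1 x ?_ y ?_
    · simp only [List.mem_cons, List.not_mem_nil, or_false] at hx ⊢
      tauto
    · simp only [List.mem_cons, List.not_mem_nil, or_false] at hy ⊢
      tauto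
  · intro x hx y hy
    refine h2 x ?_ y ?_
    · simp only [List.mem_cons, List.not_mem_nil, or_false] at hx ⊢
      tauto
    · simp only [List.mem_cons, List.not_mem_nil, or_false] at hy ⊢
      tauto

theorem FE.symm' {P Q : List W} (h : FE A P Q) : FE A Q P := by
  induction h with
  | refl => exact Relation.ReflTransGen.refl
  | tail _ h1 ih => exact Relation.ReflTransGen.head h1.symm' ih

theorem Cl.two {a b : W} (haa : A a a) (hbb : A b b) (hab : A a b) (hba : A b a) :
    Cl A [a, b, a] := by
  intro x hx y hy
  simp only [List.mem_cons, List.not_mem_nil, or_false] at hx hy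
  rcases hx with rfl | rfl | rfl <;> rcases hy with rfl | rfl | rfl <;> assumption

/-- PH-8b. A repetition at the end of a path can be moved to its beginning. -/
theorem FE.shift (hA : ∀ a b, A a b → A b a) (b : W) (Y : List W) (h : IsPath A (b :: Y)) :
    FE A ((b :: Y) ++ [(b :: Y).getLast (by simp)]) (b :: b :: Y) := by
  induction Y generalizing b with
  | nil => exact Relation.ReflTransGen.refl
  | cons y Y ih =>
    have hch := List.isChain_cons_cons.1 h.1
    have hp : IsPath A (y :: Y) := ⟨hch.2, fun a ha => h.2 a (List.mem_cons_of_mem _ ha)⟩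
    have hbb : A b b := h.2 b (by simp)
    have hyy : A y y := h.2 y (by simp)
    have hby : A b y := hch.1
    have hyb : A y b := hA _ _ hby
    have h1 := FE.ctx (ih y hp) [b] []
    have e1 : [b] ++ ((y :: Y) ++ [(y :: Y).getLast (by simp)]) ++ [] =
        (b :: y :: Y) ++ [(b :: y :: Y).getLast (by simp)] := by
      simp
    rw [e1] at h1
    refine h1.tail ?_
    exact ⟨[], Y, b, y, b, y, by simp, by simp, Cl.two hbb hyy hby hyb, Cl.two hyy hbb hyb hby⟩

theorem pad_aux (hA : ∀ a b, A a b → A b a) {P Q : List W} (h : HE A P Q) :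
    Q.head? = P.head? ∧ Q.getLast? = P.getLast? ∧ (IsPath A P ↔ IsPath A Q) ∧
      ∀ v, IsPath A P → P.getLast? = some v →
        ∃ p q : ℕ, P.length + p = Q.length + q ∧
          FE A (P ++ List.replicate p v) (Q ++ List.replicate q v) := by
  induction h with
  | refl P => exact ⟨rfl, rfl, Iff.rfl, fun v _ _ => ⟨0, 0, rfl, Relation.ReflTransGen.refl⟩⟩
  | symm _ ih =>
    obtain ⟨h1, h2, h3, h4⟩ := ih
    refine ⟨h1.symm, h2.symm, h3.symm, ?_⟩
    intro v hQ hv
    obtain ⟨p, q, h5, h6⟩ := h4 v (h3.2 hQ) (by rw [← h2]; exact hv)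
    exact ⟨q, p, h5.symm, h6.symm'⟩
  | @trans P Q R _ _ ih1 ih2 =>
    obtain ⟨h1, h2, h3, h4⟩ := ih1
    obtain ⟨k1, k2, k3, k4⟩ := ih2
    refine ⟨k1.trans h1, k2.trans h2, h3.trans k3, ?_⟩
    intro v hP hv
    obtain ⟨p, q, h5, h6⟩ := h4 v hP hv
    obtain ⟨q', r, k5, k6⟩ := k4 v (h3.1 hP) (by rw [h2]; exact hv)
    refine ⟨p + q', r + q, by omega, ?_⟩
    have e1 := FE.ctx h6 [] (List.replicate q' v)
    have e2 := FE.ctx k6 [] (List.replicate q v)
    rw [List.nil_append, List.nil_append, List.append_assoc, List.append_assoc,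
      ← List.replicate_add, ← List.replicate_add] at e1 e2
    rw [Nat.add_comm q' q] at e2
    exact e1.trans e2
  | dup X Y a ha =>
    refine ⟨?_, ?_, ?_, ?_⟩
    · rw [List.head?_append, List.head?_append]
      rfl
    · rw [List.getLast?_append, List.getLast?_append, List.getLast?_cons_cons]
    · have e : (∀ x ∈ X ++ a :: Y, A x x) ↔ (∀ x ∈ X ++ a :: a :: Y, A x x) := by
        simp
      unfold IsPath
      rw [e, List.isChain_split, List.isChain_split (c := a) (l₂ := a :: Y),
        List.isChain_cons_cons]
      tauto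
    · intro v hP hv
      have hv' : (a :: Y).getLast (by simp) = v := by
        rw [List.getLast?_append, List.getLast?_eq_some_getLast (List.cons_ne_nil a Y)] at hv
        simpa using hv
      have hp : IsPath A (a :: Y) := by
        refine ⟨(List.isChain_split.1 hP.1).2, fun x hx => hP.2 x (List.mem_append_right _ hx)⟩
      have h1 := FE.ctx (FE.shift hA a Y hp) X []
      refine ⟨1, 0, by simp; omega, ?_⟩
      rw [hv'] at h1
      simpa using h1
  | ins X Y a b c hc =>
    have haa : A a a := hc a (by simp) a (by simp)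
    have hbb : A b b := hc b (by simp) b (by simp)
    have hcc : A c c := hc c (by simp) c (by simp)
    have hab : A a b := hc a (by simp) b (by simp)
    have hac : A a c := hc a (by simp) c (by simp)
    have hcb : A c b := hc c (by simp) b (by simp)
    have hbc : A b c := hc b (by simp) c (by simp)
    refine ⟨?_, ?_, ?_, ?_⟩
    · rw [List.head?_append, List.head?_append]
      rfl
    · rw [List.getLast?_append, List.getLast?_append, List.getLast?_cons_cons,
        List.getLast?_cons_cons, List.getLast?_cons_cons]
    · have e : (∀ x ∈ X ++ a :: b :: Y, A x x) ↔ (∀ x ∈ X ++ a :: c :: b :: Y, A x x) := by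
        simp only [List.mem_append, List.mem_cons]
        constructor
        · intro h x hx
          rcases hx with hx | rfl | rfl | rfl | hx
          · exact h x (Or.inl hx)
          · exact haa
          · exact hcc
          · exact hbb
          · exact h x (Or.inr (Or.inr (Or.inr hx)))
        · intro h x hx
          rcases hx with hx | rfl | rfl | hx
          · exact h x (Or.inl hx)
          · exact haa
          · exact hbb
          · exact h x (Or.inr (Or.inr (Or.inr (Or.inr hx))))
      unfold IsPath
      rw [e, List.isChain_split, List.isChain_split (c := a) (l₂ := c :: b :: Y),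
        List.isChain_cons_cons, List.isChain_cons_cons, List.isChain_cons_cons]
      tauto
    · intro v hP hv
      have hv' : (b :: Y).getLast (by simp) = v := by
        rw [List.getLast?_append, List.getLast?_cons_cons,
          List.getLast?_eq_some_getLast (List.cons_ne_nil b Y)] at hv
        simpa using hv
      have hp : IsPath A (b :: Y) := by
        refine ⟨(List.isChain_cons_cons.1 (List.isChain_split.1 hP.1).2).2, fun x hx => hP.2 x
          (List.mem_append_right _ (List.mem_cons_of_mem _ hx))⟩
      have h1 := FE.ctx (FE.shift hA b Y hp) (X ++ [a]) []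
      rw [hv'] at h1
      refine ⟨1, 0, by simp; omega, ?_⟩
      have h2 : FE A ((X ++ a :: b :: Y) ++ List.replicate 1 v) (X ++ a :: b :: b :: Y) := by
        simpa using h1
      have h3 : Flip A (X ++ a :: b :: b :: Y) (X ++ a :: c :: b :: Y) :=
        ⟨X, Y, a, b, c, b, rfl, rfl, hc, Cl.two hbb hcc hbc hcb⟩
      have h4 : FE A _ _ := h2.tail h3
      simpa using h4

/-- PH-8c. Padding. -/
theorem HE.pad (hA : ∀ a b, A a b → A b a) {P Q : List W} (h : HE A P Q) (hP : IsPath A P)
    (v : W) (hv : P.getLast? = some v) :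
    IsPath A Q ∧ Q.head? = P.head? ∧ Q.getLast? = some v ∧
      ∃ p q : ℕ, P.length + p = Q.length + q ∧
        FE A (P ++ List.replicate p v) (Q ++ List.replicate q v) := by
  obtain ⟨h1, h2, h3, h4⟩ := pad_aux hA h
  exact ⟨h3.1 hP, h1, h2.trans hv, h4 v hP hv⟩

end Pool.Agent.Helper25.PH
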