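import Pool.Agent.Helper25.PH.Defs

/-! Module PH-3: homotopy of paths in the clique complex, basic lemmas -/

set_option autoImplicit false
set_option linter.all false

namespace Pool.Agent.Helper25.PH

variable {W : Type} {A : W → W → Prop}

/-- PH-3a. Context. -/
theorem HE.ctx {P Q : List W} (h : HE A P Q) (X Y : List W) :
    HE A (X ++ P ++ Y) (X ++ Q ++ Y) := by
  induction h with
  | refl P => exact HE.refl _
  | symm _ ih => exact ih.symm
  | trans _ _ ih1 ih2 => exact ih1.trans ih2
  | dup X' Y' a ha =>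
    have := HE.dup (A := A) (X ++ X') (Y' ++ Y) a ha
    simpa using this
  | ins X' Y' a b c hc =>
    have := HE.ins (A := A) (X ++ X') (Y' ++ Y) a b c hc
    simpa using this

private theorem pl_succ_right (g : ℕ → W) (n : ℕ) : pl g (n + 1) = pl g n ++ [g (n + 1)] := by
  simp only [pl]
  rw [List.range_succ (n := n + 1), List.map_append]
  simp

private theorem pl_last (g : ℕ → W) (n : ℕ) : pl g n = (List.range n).map g ++ [g n] := by
  simp only [pl]
  rw [List.range_succ (n := n), List.map_append]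
  simp

private theorem pl_head (g : ℕ → W) (n : ℕ) :
    pl g n = g 0 :: (List.range n).map (fun i => g (i + 1)) := by
  simp only [pl]
  rw [List.range_succ_eq_map, List.map_cons, List.map_map]
  rfl

private theorem Cl_sub {l l' : List W} (h : Cl A l) (hs : ∀ a ∈ l', a ∈ l) : Cl A l' :=
  fun a ha b hb => h a (hs a ha) b (hs b hb)

/-- PH-3b. The prism over a path. -/
theorem HE.prism (n : ℕ) (g g' : ℕ → W) (h0 : Cl A [g 0, g' 0])
    (h : ∀ s, s < n → Cl A [g s, g (s + 1), g' s, g' (s + 1)]) :
    HE A (pl g n ++ [g' n]) (g 0 :: pl g' n) := by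
  induction n with
  | zero =>
    have : pl g 0 ++ [g' 0] = g 0 :: pl g' 0 := by simp [pl]
    rw [this]
    exact HE.refl _
  | succ n ih =>
    have ih' := ih (fun s hs => h s (by omega))
    have hn := h n (by omega)
    have e1 : pl g (n + 1) ++ [g' (n + 1)] =
        (List.range n).map g ++ g n :: g (n + 1) :: g' (n + 1) :: [] := by
      rw [pl_succ_right, pl_last]
      simp
    have s1 : HE A ((List.range n).map g ++ g n :: g' (n + 1) :: [])
        ((List.range n).map g ++ g n :: g (n + 1) :: g' (n + 1) :: []) :=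
      HE.ins _ _ _ _ _ (Cl_sub hn (by
        intro a ha
        simp only [List.mem_cons, List.not_mem_nil, or_false] at ha ⊢
        tauto))
    have s2 : HE A ((List.range n).map g ++ g n :: g' (n + 1) :: [])
        ((List.range n).map g ++ g n :: g' n :: g' (n + 1) :: []) :=
      HE.ins _ _ _ _ _ (Cl_sub hn (by
        intro a ha
        simp only [List.mem_cons, List.not_mem_nil, or_false] at ha ⊢
        tauto))
    have e2 : (List.range n).map g ++ g n :: g' n :: g' (n + 1) :: [] =
        [] ++ (pl g n ++ [g' n]) ++ [g' (n + 1)] := by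
      rw [pl_last]
      simp
    have s3 := ih'.ctx [] [g' (n + 1)]
    have e3 : [] ++ (g 0 :: pl g' n) ++ [g' (n + 1)] = g 0 :: pl g' (n + 1) := by
      rw [pl_succ_right g' n]
      simp
    rw [e1]
    refine s1.symm.trans (s2.trans ?_)
    rw [e2, ← e3]
    exact s3

/-- PH-3c. A closed path adjacent to a null-homotopic closed path is null-homotopic. -/
theorem HE.transfer (n : ℕ) (g g' : ℕ → W) (h0 : Cl A [g 0, g' 0])
    (h : ∀ s, s < n → Cl A [g s, g (s + 1), g' s, g' (s + 1)]) (hg : g n = g 0)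
    (hg' : g' n = g' 0) (ht : HE A (pl g n) [g 0]) : HE A (pl g' n) [g' 0] := by
  have hself : A (g' 0) (g' 0) := h0 _ (by simp) _ (by simp)
  have hcl : Cl A [g' 0, g' 0, g 0] := Cl_sub h0 (by
    intro a ha
    simp only [List.mem_cons, List.not_mem_nil, or_false] at ha ⊢
    tauto)
  set R : List W := (List.range n).map (fun i => g' (i + 1)) with hR
  have e0 : pl g' n = g' 0 :: R := pl_head g' n
  -- `[g' 0, g 0, g' 0] ~ [g' 0]`
  have t1 : HE A [g' 0] [g' 0, g' 0] := HE.dup [] [] (g' 0) hself
  have t2 : HE A [g' 0, g' 0] [g' 0, g 0, g' 0] := HE.ins [] [] (g' 0) (g' 0) (g 0) hcl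
  -- `pl g' n ~ g' 0 :: g 0 :: pl g' n`
  have u1 : HE A (g' 0 :: R) (g' 0 :: g' 0 :: R) := HE.dup [] R (g' 0) hself
  have u2 : HE A (g' 0 :: g' 0 :: R) (g' 0 :: g 0 :: g' 0 :: R) :=
    HE.ins [] R (g' 0) (g' 0) (g 0) hcl
  have p := (HE.prism n g g' h0 h).symm.ctx [g' 0] []
  have p' : HE A (g' 0 :: g 0 :: g' 0 :: R) (g' 0 :: (pl g n ++ [g' n])) := by
    rw [e0] at p
    simpa using p
  have q := ht.ctx [g' 0] [g' n]
  have q' : HE A (g' 0 :: (pl g n ++ [g' n])) [g' 0, g 0, g' 0] := by
    have e : [g' 0] ++ [g 0] ++ [g' n] = [g' 0, g 0, g' 0] := by rw [hg']; rfl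
    rw [e] at q
    simpa using q
  rw [e0]
  exact u1.trans (u2.trans (p'.trans (q'.trans (t2.symm.trans t1.symm))))

private theorem HE.cone_aux (n : ℕ) (g : ℕ → W) (c : W) (h0 : Cl A [g 0, c])
    (h : ∀ s, s < n → Cl A [g s, g (s + 1), c]) : HE A (pl g n) [g 0, c, g n] := by
  induction n with
  | zero =>
    have e : pl g 0 = [g 0] := by simp [pl]
    rw [e]
    have hself : A (g 0) (g 0) := h0 _ (by simp) _ (by simp)
    have t1 : HE A [g 0] [g 0, g 0] := HE.dup [] [] (g 0) hself
    have t2 : HE A [g 0, g 0] [g 0, c, g 0] :=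
      HE.ins [] [] (g 0) (g 0) c (Cl_sub h0 (by
        intro a ha
        simp only [List.mem_cons, List.not_mem_nil, or_false] at ha ⊢
        tauto))
    exact t1.trans t2
  | succ n ih =>
    have ih' := (ih (fun s hs => h s (by omega))).ctx [] [g (n + 1)]
    have s1 : HE A ([g 0] ++ c :: g (n + 1) :: []) ([g 0] ++ c :: g n :: g (n + 1) :: []) :=
      HE.ins [g 0] [] c (g (n + 1)) (g n) (Cl_sub (h n (by omega)) (by
        intro a ha
        simp only [List.mem_cons, List.not_mem_nil, or_false] at ha ⊢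
        tauto))
    rw [pl_succ_right]
    refine HE.trans ?_ s1.symm
    simpa using ih'

/-- PH-3d. The cone: a closed path all of whose edges form triangles with `c` is
null-homotopic. -/
theorem HE.cone (n : ℕ) (g : ℕ → W) (c : W) (h0 : Cl A [g 0, c])
    (h : ∀ s, s < n → Cl A [g s, g (s + 1), c]) (hg : g n = g 0) : HE A (pl g n) [g 0] := by
  have h1 := HE.cone_aux n g c h0 h
  rw [hg] at h1
  have hself : A (g 0) (g 0) := h0 _ (by simp) _ (by simp)
  have t1 : HE A [g 0] [g 0, g 0] := HE.dup [] [] (g 0) hself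
  have t2 : HE A [g 0, g 0] [g 0, c, g 0] :=
    HE.ins [] [] (g 0) (g 0) c (Cl_sub h0 (by
      intro a ha
      simp only [List.mem_cons, List.not_mem_nil, or_false] at ha ⊢
      tauto))
  exact h1.trans (t2.symm.trans t1.symm)

end Pool.Agent.Helper25.PH
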