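import Pool.Agent.Helper25.PH.HE1

/-! Module PH-4: homotopy of paths in the clique complex, grids -/

set_option autoImplicit false
set_option linter.all false

namespace Pool.Agent.Helper25.PH

variable {W : Type} {A : W → W → Prop}

theorem HE2.pl_last (g : ℕ → W) (n : ℕ) : pl g n = (List.range n).map g ++ [g n] := by
  unfold pl
  rw [List.range_succ, List.map_append]
  rfl

theorem HE2.pl_succ (g : ℕ → W) (n : ℕ) : pl g (n + 1) = pl g n ++ [g (n + 1)] := by
  rw [HE2.pl_last g (n + 1)]
  rfl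

theorem HE2.pl_first (g : ℕ → W) (n : ℕ) :
    pl g n = g 0 :: (List.range n).map (fun s => g (s + 1)) := by
  unfold pl
  rw [List.range_succ_eq_map, List.map_cons, List.map_map]
  rfl

/-- PH-4a. The diagonal of a grid is homotopic to the path along two sides. -/
theorem HE.grid (n : ℕ) (Ψ : ℕ → ℕ → W) (h0 : A (Ψ 0 0) (Ψ 0 0))
    (h : ∀ a b, a < n → b < n →
      Cl A [Ψ a b, Ψ (a + 1) b, Ψ a (b + 1), Ψ (a + 1) (b + 1)]) :
    HE A (pl (fun s => Ψ s s) n) (pl (fun s => Ψ s 0) n ++ pl (fun s => Ψ n s) n) := by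
  have key : ∀ a, a ≤ n →
      HE A (pl (fun s => Ψ s s) a) (pl (fun s => Ψ s 0) a ++ pl (fun s => Ψ a s) a) := by
    intro a
    induction a with
    | zero =>
      intro _
      exact HE.dup [] [] (Ψ 0 0) h0
    | succ a ih =>
      intro ha
      have ha' : a < n := by omega
      have h0n : 0 < n := by omega
      have ih := ih ha'.le
      set Z : List W := pl (fun s => Ψ (a + 1) s) (a + 1) with hZ
      -- step 1
      have s1 : HE A (pl (fun s => Ψ s s) (a + 1))
          (pl (fun s => Ψ s 0) a ++ pl (fun s => Ψ a s) a ++ [Ψ (a + 1) (a + 1)]) := by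
        rw [HE2.pl_succ]
        have := HE.ctx ih [] [Ψ (a + 1) (a + 1)]
        simpa using this
      -- step 2
      have s2 : HE A (pl (fun s => Ψ s 0) a ++ pl (fun s => Ψ a s) a ++ [Ψ (a + 1) (a + 1)])
          (pl (fun s => Ψ s 0) a ++ (pl (fun s => Ψ a s) a ++ [Ψ (a + 1) a]) ++
            [Ψ (a + 1) (a + 1)]) := by
        rw [HE2.pl_last (fun s => Ψ a s) a]
        have hcl : Cl A [Ψ a a, Ψ (a + 1) (a + 1), Ψ (a + 1) a] := by
          intro x hx y hy
          refine h a a ha' ha' x ?_ y ?_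
          · simp only [List.mem_cons, List.not_mem_nil, or_false] at hx ⊢
            tauto
          · simp only [List.mem_cons, List.not_mem_nil, or_false] at hy ⊢
            tauto
        have := HE.ins (pl (fun s => Ψ s 0) a ++ (List.range a).map (fun s => Ψ a s)) []
          (Ψ a a) (Ψ (a + 1) (a + 1)) (Ψ (a + 1) a) hcl
        simpa using this
      -- step 3
      have s3 : HE A (pl (fun s => Ψ s 0) a ++ (pl (fun s => Ψ a s) a ++ [Ψ (a + 1) a]) ++
            [Ψ (a + 1) (a + 1)]) (pl (fun s => Ψ s 0) a ++ (Ψ a 0 :: Z)) := by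
        have hpr : HE A (pl (fun s => Ψ a s) a ++ [Ψ (a + 1) a])
            (Ψ a 0 :: pl (fun s => Ψ (a + 1) s) a) := by
          refine HE.prism a (fun s => Ψ a s) (fun s => Ψ (a + 1) s) ?_ ?_
          · intro x hx y hy
            refine h a 0 ha' h0n x ?_ y ?_
            · simp only [List.mem_cons, List.not_mem_nil, or_false] at hx ⊢
              tauto
            · simp only [List.mem_cons, List.not_mem_nil, or_false] at hy ⊢
              tauto
          · intro s hs x hx y hy
            refine h a s ha' (by omega) x ?_ y ?_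
            · simp only [List.mem_cons, List.not_mem_nil, or_false] at hx ⊢
              tauto
            · simp only [List.mem_cons, List.not_mem_nil, or_false] at hy ⊢
              tauto
        have := HE.ctx hpr (pl (fun s => Ψ s 0) a) [Ψ (a + 1) (a + 1)]
        have e : pl (fun s => Ψ s 0) a ++ (Ψ a 0 :: Z) =
            pl (fun s => Ψ s 0) a ++ (Ψ a 0 :: pl (fun s => Ψ (a + 1) s) a) ++
              [Ψ (a + 1) (a + 1)] := by
          rw [hZ, HE2.pl_succ]
          simp
        rw [e]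
        exact this
      -- step 4
      have hA1 : A (Ψ a 0) (Ψ a 0) := h a 0 ha' h0n _ (by simp) _ (by simp)
      have hA2 : A (Ψ (a + 1) 0) (Ψ (a + 1) 0) := h a 0 ha' h0n _ (by simp) _ (by simp)
      have s4 : HE A (pl (fun s => Ψ s 0) a ++ (Ψ a 0 :: Z)) (pl (fun s => Ψ s 0) a ++ Z) := by
        rw [HE2.pl_last (fun s => Ψ s 0) a]
        have := (HE.dup ((List.range a).map (fun s => Ψ s 0)) Z (Ψ a 0) hA1).symm
        simpa using this
      -- step 5
      have s5 : HE A (pl (fun s => Ψ s 0) a ++ Z) (pl (fun s => Ψ s 0) (a + 1) ++ Z) := by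
        rw [HE2.pl_succ (fun s => Ψ s 0) a, hZ, HE2.pl_first (fun s => Ψ (a + 1) s) (a + 1)]
        have := HE.dup (pl (fun s => Ψ s 0) a)
          ((List.range (a + 1)).map (fun s => Ψ (a + 1) (s + 1))) (Ψ (a + 1) 0) hA2
        simpa using this
      exact (((s1.trans s2).trans s3).trans s4).trans s5
  exact key n le_rfl

/-- PH-4b. In a torus, the diagonal is null-homotopic if the two coordinate circles are. -/
theorem HE.diag (n : ℕ) (Ψ : ℕ → ℕ → W) (h0 : A (Ψ 0 0) (Ψ 0 0))
    (h : ∀ a b, a < n → b < n →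
      Cl A [Ψ a b, Ψ (a + 1) b, Ψ a (b + 1), Ψ (a + 1) (b + 1)])
    (hp : ∀ b, Ψ n b = Ψ 0 b) (h1 : HE A (pl (fun s => Ψ s 0) n) [Ψ 0 0])
    (h2 : HE A (pl (fun s => Ψ 0 s) n) [Ψ 0 0]) :
    HE A (pl (fun s => Ψ s s) n) [Ψ 0 0] := by
  have e : (fun s => Ψ n s) = fun s => Ψ 0 s := funext hp
  have g1 := HE.grid n Ψ h0 h
  rw [e] at g1
  have g2 := HE.ctx h1 [] (pl (fun s => Ψ 0 s) n)
  have g3 := HE.ctx h2 [Ψ 0 0] []
  have g4 := (HE.dup (A := A) [] [] (Ψ 0 0) h0).symm
  simp only [List.nil_append, List.append_nil] at g2 g3 g4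
  exact ((g1.trans g2).trans g3).trans g4

end Pool.Agent.Helper25.PH
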