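import Pool.Agent.Helper25.PH.HE2

/-! Module PH-5: the loops of a polymorphism -/

set_option autoImplicit false
set_option linter.all false

namespace Pool.Agent.Helper25.PH

variable {V F : Type} {M : ℕ} {E : V → V → Prop}

theorem AdL.symm (hE : ∀ u v, E u v → E v u) {w w' : ZMod M → V} (h : AdL E w w') :
    AdL E w' w := by
  intro t
  refine ⟨hE _ _ ?_, hE _ _ ?_⟩
  · have := (h (t + 1)).2; simpa using this
  · have := (h (t - 1)).1; simpa using this

/-- PH-5a. Points at distance at most 3 give adjacent closed walks. -/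
theorem psi_adj {f : (F → ZMod M) → V} (hf : IsHom (PThick M F) E f) (z z' : F → ZMod M)
    (h : ∀ j, ∃ d : ℤ, |d| ≤ 3 ∧ z' j = z j + (d : ZMod M)) : AdL E (Psi f z) (Psi f z') := by
  intro t
  constructor
  · refine hf _ _ fun j => ?_
    obtain ⟨d, hd, he⟩ := h j
    rw [abs_le] at hd
    refine ⟨2 * d + 1, ⟨d, rfl⟩, abs_le.2 ⟨by omega, by omega⟩, ?_⟩
    rw [he]
    push_cast
    ring
  · refine hf _ _ fun j => ?_
    obtain ⟨d, hd, he⟩ := h j
    rw [abs_le] at hd
    refine ⟨2 * d - 1, ⟨d - 1, by ring⟩, abs_le.2 ⟨by omega, by omega⟩, ?_⟩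
    rw [he]
    push_cast
    ring

/-- PH-5b. The loop is closed. -/
theorem mv_M (A : Set F) (z : F → ZMod M) : mv A M z = z := by
  funext j
  unfold mv
  split_ifs
  · simp
  · rfl

private theorem mv_zero' (A : Set F) (z : F → ZMod M) : mv A 0 z = z := by
  funext j
  unfold mv
  split_ifs
  · simp
  · rfl

/-- points in a window of length three give a clique -/
private theorem cl_window {f : (F → ZMod M) → V} (hf : IsHom (PThick M F) E f) (c : F → ZMod M)
    {l : List (F → ZMod M)}
    (h : ∀ a ∈ l, ∀ j, ∃ d : ℤ, -1 ≤ d ∧ d ≤ 2 ∧ a j = c j + (d : ZMod M)) :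
    ∀ a ∈ l, ∀ b ∈ l, AdL E (Psi f a) (Psi f b) := by
  intro a ha b hb
  refine psi_adj hf a b fun j => ?_
  obtain ⟨d, h1, h2, h3⟩ := h a ha j
  obtain ⟨e, h4, h5, h6⟩ := h b hb j
  refine ⟨e - d, abs_le.2 ⟨by omega, by omega⟩, ?_⟩
  rw [h3, h6]
  push_cast
  ring

private theorem cl_window4 {f : (F → ZMod M) → V} (hf : IsHom (PThick M F) E f) (c : F → ZMod M)
    {a1 a2 a3 a4 : F → ZMod M}
    (h1 : ∀ j, ∃ d : ℤ, -1 ≤ d ∧ d ≤ 2 ∧ a1 j = c j + (d : ZMod M))
    (h2 : ∀ j, ∃ d : ℤ, -1 ≤ d ∧ d ≤ 2 ∧ a2 j = c j + (d : ZMod M))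
    (h3 : ∀ j, ∃ d : ℤ, -1 ≤ d ∧ d ≤ 2 ∧ a3 j = c j + (d : ZMod M))
    (h4 : ∀ j, ∃ d : ℤ, -1 ≤ d ∧ d ≤ 2 ∧ a4 j = c j + (d : ZMod M)) :
    Cl (AdL E) [Psi f a1, Psi f a2, Psi f a3, Psi f a4] := by
  have h : ∀ a ∈ [a1, a2, a3, a4], ∀ j, ∃ d : ℤ, -1 ≤ d ∧ d ≤ 2 ∧ a j = c j + (d : ZMod M) := by
    intro a ha
    simp only [List.mem_cons, List.not_mem_nil, or_false] at ha
    rcases ha with rfl | rfl | rfl | rfl
    · exact h1
    · exact h2
    · exact h3
    · exact h4
  have h' := cl_window (E := E) hf c h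
  intro u hu v hv
  have e : [Psi f a1, Psi f a2, Psi f a3, Psi f a4] = [a1, a2, a3, a4].map (Psi f) := rfl
  rw [e, List.mem_map] at hu hv
  obtain ⟨a, ha, rfl⟩ := hu
  obtain ⟨b, hb, rfl⟩ := hv
  exact h' a ha b hb

private theorem LT.step {f : (F → ZMod M) → V}
    (hf : IsHom (PThick M F) E f) (A : Set F) (z z' : F → ZMod M)
    (hz : ∀ j, ∃ d : ℤ, -1 ≤ d ∧ d ≤ 1 ∧ z' j = z j + (d : ZMod M)) (h : LT E f A z) :
    LT E f A z' := by
  have hc : ∀ s, Cl (AdL E) [Psi f (mv A s z), Psi f (mv A (s + 1) z), Psi f (mv A s z'),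
      Psi f (mv A (s + 1) z')] := by
    intro s
    refine cl_window4 hf (mv A s z) ?_ ?_ ?_ ?_
    · intro j
      exact ⟨0, by norm_num, by norm_num, by simp⟩
    · intro j
      unfold mv
      split_ifs
      · exact ⟨1, by norm_num, by norm_num, by push_cast; ring⟩
      · exact ⟨0, by norm_num, by norm_num, by simp⟩
    · intro j
      obtain ⟨d, h1, h2, h3⟩ := hz j
      unfold mv
      split_ifs
      · exact ⟨d, by omega, by omega, by rw [h3]; ring⟩
      · exact ⟨d, by omega, by omega, by rw [h3]⟩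
    · intro j
      obtain ⟨d, h1, h2, h3⟩ := hz j
      unfold mv
      split_ifs
      · exact ⟨d + 1, by omega, by omega, by rw [h3]; push_cast; ring⟩
      · exact ⟨d, by omega, by omega, by rw [h3]⟩
  have h1 := HE.transfer (A := AdL E) M (fun s => Psi f (mv A s z)) (fun s => Psi f (mv A s z'))
    (by
      intro u hu v hv
      have h2 := hc 0
      refine h2 u ?_ v ?_
      · simp only [List.mem_cons, List.not_mem_nil, or_false] at hu ⊢
        tauto
      · simp only [List.mem_cons, List.not_mem_nil, or_false] at hv ⊢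
        tauto)
    (fun s _ => hc s) (by simp only [mv_M, mv_zero']) (by simp only [mv_M, mv_zero'])
    (by simpa only [Pool.Agent.Helper25.PH.LT, mv_zero'] using h)
  simpa only [Pool.Agent.Helper25.PH.LT, mv_zero'] using h1

/-- PH-5c. The loops in a direction at different points are null-homotopic or not at the same
time. -/
theorem LT.move (hE : ∀ u v, E u v → E v u) (hM : Odd M) {f : (F → ZMod M) → V}
    (hf : IsHom (PThick M F) E f) (A : Set F) (z z' : F → ZMod M) (h : LT E f A z) :
    LT E f A z' := by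
  haveI : NeZero M := ⟨by rintro rfl; exact absurd hM (by decide)⟩
  have key : ∀ k : ℕ, LT E f A (fun j => z j + ((min k (z' j - z j).val : ℕ) : ZMod M)) := by
    intro k
    induction k with
    | zero =>
      have e : (fun j => z j + ((min 0 (z' j - z j).val : ℕ) : ZMod M)) = z := by
        funext j
        simp
      rw [e]
      exact h
    | succ k ih =>
      refine LT.step hf A _ _ (fun j => ?_) ih
      rcases Nat.lt_or_ge k (z' j - z j).val with h1 | h1
      · refine ⟨1, by norm_num, by norm_num, ?_⟩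
        rw [min_eq_left (show k + 1 ≤ (z' j - z j).val from h1), min_eq_left h1.le]
        push_cast
        ring
      · refine ⟨0, by norm_num, by norm_num, ?_⟩
        rw [min_eq_right (show (z' j - z j).val ≤ k + 1 by omega), min_eq_right h1]
        push_cast
        ring
  have h1 := key M
  have e : (fun j => z j + ((min M (z' j - z j).val : ℕ) : ZMod M)) = z' := by
    funext j
    rw [min_eq_right (ZMod.val_lt _).le, ZMod.natCast_zmod_val]
    ring
  rwa [e] at h1

/-- PH-5d. Disjoint directions. -/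
theorem LT.union (hE : ∀ u v, E u v → E v u) {f : (F → ZMod M) → V}
    (hf : IsHom (PThick M F) E f) (A B : Set F) (hAB : Disjoint A B) (z : F → ZMod M)
    (hA : LT E f A z) (hB : LT E f B z) : LT E f (A ∪ B) z := by
  have hc : ∀ a b, Cl (AdL E) [Psi f (mv A a (mv B b z)), Psi f (mv A (a + 1) (mv B b z)),
      Psi f (mv A a (mv B (b + 1) z)), Psi f (mv A (a + 1) (mv B (b + 1) z))] := by
    intro a b
    refine cl_window4 hf (mv A a (mv B b z)) ?_ ?_ ?_ ?_
    · intro j
      exact ⟨0, by norm_num, by norm_num, by simp⟩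
    · intro j
      unfold mv
      by_cases h1 : j ∈ A
      · exact ⟨1, by norm_num, by norm_num, by simp only [h1, if_true]; push_cast; ring⟩
      · exact ⟨0, by norm_num, by norm_num, by simp [h1]⟩
    · intro j
      unfold mv
      by_cases h1 : j ∈ A
      · by_cases h2 : j ∈ B
        · exact ⟨1, by norm_num, by norm_num, by simp only [h1, h2, if_true]; push_cast; ring⟩
        · exact ⟨0, by norm_num, by norm_num, by simp [h1, h2]⟩
      · by_cases h2 : j ∈ B
        · exact ⟨1, by norm_num, by norm_num, by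
            simp only [h1, h2, if_true, if_false]; push_cast; ring⟩
        · exact ⟨0, by norm_num, by norm_num, by simp [h1, h2]⟩
    · intro j
      unfold mv
      by_cases h1 : j ∈ A
      · by_cases h2 : j ∈ B
        · exact ⟨2, by norm_num, by norm_num, by simp only [h1, h2, if_true]; push_cast; ring⟩
        · exact ⟨1, by norm_num, by norm_num, by
            simp only [h1, h2, if_true, if_false]; push_cast; ring⟩
      · by_cases h2 : j ∈ B
        · exact ⟨1, by norm_num, by norm_num, by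
            simp only [h1, h2, if_true, if_false]; push_cast; ring⟩
        · exact ⟨0, by norm_num, by norm_num, by simp [h1, h2]⟩
  have h1 := HE.diag (A := AdL E) M (fun a b => Psi f (mv A a (mv B b z)))
    (hc 0 0 _ (by simp) _ (by simp)) (fun a b _ _ => hc a b)
    (fun b => by simp only [mv_M, mv_zero'])
    (by simpa only [Pool.Agent.Helper25.PH.LT, mv_zero'] using hA)
    (by simpa only [Pool.Agent.Helper25.PH.LT, mv_zero'] using hB)
  have e : ∀ s, mv A s (mv B s z) = mv (A ∪ B) s z := by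
    intro s
    funext j
    unfold mv
    by_cases h1 : j ∈ A
    · have h2 : j ∉ B := fun h => Set.disjoint_left.1 hAB h1 h
      simp [h1, h2]
    · by_cases h2 : j ∈ B
      · simp [h1, h2]
      · simp [h1, h2]
  simpa only [Pool.Agent.Helper25.PH.LT, e, mv_zero'] using h1

private theorem LT.empty {f : (F → ZMod M) → V} (hf : IsHom (PThick M F) E f) (z : F → ZMod M) :
    LT E f ∅ z := by
  have e : ∀ s, mv (∅ : Set F) s z = z := by
    intro s
    funext j
    simp [mv]
  have hs : AdL E (Psi f z) (Psi f z) :=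
    psi_adj hf z z fun j => ⟨0, by norm_num, by simp⟩
  unfold LT
  simp only [e]
  refine HE.cone M (fun _ => Psi f z) (Psi f z) ?_ ?_ rfl
  · intro a ha b hb
    simp only [List.mem_cons, List.not_mem_nil, or_false, or_self] at ha hb
    rw [ha, hb]
    exact hs
  · intro s _ a ha b hb
    simp only [List.mem_cons, List.not_mem_nil, or_false, or_self] at ha hb
    rw [ha, hb]
    exact hs

/-- PH-5e. Finite sets of directions. -/
theorem LT.finite (hE : ∀ u v, E u v → E v u) {f : (F → ZMod M) → V}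
    (hf : IsHom (PThick M F) E f) (A : Set F) (hA : A.Finite) (z : F → ZMod M)
    (h : ∀ i ∈ A, LT E f {i} z) : LT E f A z := by
  induction A, hA using Set.Finite.induction_on with
  | empty => exact LT.empty hf z
  | @insert i A hi _ ih =>
    rw [Set.insert_eq]
    refine LT.union hE hf {i} A (Set.disjoint_singleton_left.2 hi) z
      (h i (Set.mem_insert i A)) (ih fun j hj => h j (Set.mem_insert_of_mem i hj))

/-- PH-5f. Compatibility with minors and adjacency. -/
theorem LT.compat (hE : ∀ u v, E u v → E v u) {F' : Type} [Finite F'] {f : (F → ZMod M) → V}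
    {f' : (F' → ZMod M) → V} (π : F' → F) (hf : IsHom (PThick M F) E f)
    (hf' : IsHom (PThick M F') E f')
    (hc : ∀ (y : F → ZMod M) (z : F' → ZMod M), PThick M F' (fun s => y (π s)) z →
      E (f y) (f' z)) (t : F) (ht : ¬ LT E f {t} 0) : ∃ s, π s = t ∧ ¬ LT E f' {s} 0 := by
  by_contra hcon
  push Not at hcon
  apply ht
  have h1 : LT E f' (π ⁻¹' {t}) 0 :=
    LT.finite hE hf' _ (Set.toFinite _) 0 fun s hs => hcon s hs
  -- mixed adjacency
  have mix : ∀ (z : F → ZMod M) (z' : F' → ZMod M),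
      (∀ s, ∃ d : ℤ, |d| ≤ 3 ∧ z' s = z (π s) + (d : ZMod M)) → AdL E (Psi f z) (Psi f' z') := by
    intro z z' h u
    constructor
    · refine hc _ _ fun s => ?_
      obtain ⟨d, hd, he⟩ := h s
      rw [abs_le] at hd
      refine ⟨2 * d + 1, ⟨d, rfl⟩, abs_le.2 ⟨by omega, by omega⟩, ?_⟩
      rw [he]
      push_cast
      ring
    · refine hc _ _ fun s => ?_
      obtain ⟨d, hd, he⟩ := h s
      rw [abs_le] at hd
      refine ⟨2 * d - 1, ⟨d - 1, by ring⟩, abs_le.2 ⟨by omega, by omega⟩, ?_⟩
      rw [he]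
      push_cast
      ring
  have hmv : ∀ (s : ℕ) (x : F'), mv (π ⁻¹' {t}) s (0 : F' → ZMod M) x = mv {t} s 0 (π x) := by
    intro s x
    unfold mv
    by_cases h : π x = t
    · simp [h]
    · simp [h]
  have d1 : ∀ (s s' : ℕ), s ≤ s' + 1 → s' ≤ s + 1 → ∀ {G : Type} (B : Set G) (x : G),
      ∃ d : ℤ, |d| ≤ 3 ∧ mv B s' (0 : G → ZMod M) x = mv B s 0 x + (d : ZMod M) := by
    intro s s' h2 h3 G B x
    unfold mv
    split_ifs
    · refine ⟨(s' : ℤ) - s, abs_le.2 ⟨by omega, by omega⟩, ?_⟩
      push_cast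
      simp
    · exact ⟨0, by norm_num, by simp⟩
  have hcl : ∀ s s', s ≤ s' + 1 → s' ≤ s + 1 →
      AdL E (Psi f (mv {t} s 0)) (Psi f (mv {t} s' 0)) ∧
      AdL E (Psi f' (mv (π ⁻¹' {t}) s 0)) (Psi f' (mv (π ⁻¹' {t}) s' 0)) ∧
      AdL E (Psi f (mv {t} s 0)) (Psi f' (mv (π ⁻¹' {t}) s' 0)) ∧
      AdL E (Psi f' (mv (π ⁻¹' {t}) s 0)) (Psi f (mv {t} s' 0)) := by
    intro s s' h2 h3
    refine ⟨psi_adj hf _ _ fun j => d1 s s' h2 h3 {t} j,
      psi_adj hf' _ _ fun j => d1 s s' h2 h3 (π ⁻¹' {t}) j,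
      mix _ _ fun x => ?_, AdL.symm hE (mix _ _ fun x => ?_)⟩
    · rw [hmv]
      exact d1 s s' h2 h3 {t} (π x)
    · rw [hmv]
      exact d1 s' s h3 h2 {t} (π x)
  have h2 := HE.transfer (A := AdL E) M (fun s => Psi f' (mv (π ⁻¹' {t}) s 0))
    (fun s => Psi f (mv {t} s 0))
    (by
      intro u hu v hv
      simp only [List.mem_cons, List.not_mem_nil, or_false] at hu hv
      have h3 := hcl 0 0 (by omega) (by omega)
      rcases hu with rfl | rfl <;> rcases hv with rfl | rfl
      · exact h3.2.1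
      · exact h3.2.2.2
      · exact h3.2.2.1
      · exact h3.1)
    (by
      intro s _ u hu v hv
      simp only [List.mem_cons, List.not_mem_nil, or_false] at hu hv
      have h00 := hcl s s (by omega) (by omega)
      have h01 := hcl s (s + 1) (by omega) (by omega)
      have h10 := hcl (s + 1) s (by omega) (by omega)
      have h11 := hcl (s + 1) (s + 1) (by omega) (by omega)
      rcases hu with rfl | rfl | rfl | rfl <;> rcases hv with rfl | rfl | rfl | rfl
      · exact h00.2.1
      · exact h01.2.1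
      · exact h00.2.2.2
      · exact h01.2.2.2
      · exact h10.2.1
      · exact h11.2.1
      · exact h10.2.2.2
      · exact h11.2.2.2
      · exact h00.2.2.1
      · exact h01.2.2.1
      · exact h00.1
      · exact h01.1
      · exact h10.2.2.1
      · exact h11.2.2.1
      · exact h10.1
      · exact h11.1)
    (by simp only [mv_M, mv_zero']) (by simp only [mv_M, mv_zero'])
    (by simpa only [Pool.Agent.Helper25.PH.LT, mv_zero'] using h1)
  simpa only [Pool.Agent.Helper25.PH.LT, mv_zero'] using h2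

end Pool.Agent.Helper25.PH
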