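import Pool.Agent.Helper25.PH.Defs

/-! Module PH-1: a stable tuple -/

set_option autoImplicit false
set_option linter.all false

namespace Pool.Agent.Helper25.PH

/-- PH-1. A function on `K`-tuples, `K = 2B + 1`, with values between `1` and `B`, monotone for the
inclusion of the ranges, has a tuple with at most `2B - 1` different entries at which it does not
increase when up to two new entries are added. -/
theorem stable {J : Type} [Finite J] [Nonempty J] (B : ℕ) (c : (Fin (2 * B + 1) → J) → ℕ)
    (h1 : ∀ a, 1 ≤ c a) (h2 : ∀ a, c a ≤ B)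
    (h3 : ∀ a b, Set.range a ⊆ Set.range b → c a ≤ c b) :
    ∃ a : Fin (2 * B + 1) → J, (Set.range a).ncard + 2 ≤ 2 * B + 1 ∧
      ∀ b : Fin (2 * B + 1) → J, Set.range a ⊆ Set.range b →
        (Set.range b).ncard ≤ (Set.range a).ncard + 2 → c b = c a := by
  by_contra hcon
  push Not at hcon
  have key : ∀ j : ℕ, j ≤ B → ∃ a : Fin (2 * B + 1) → J,
      (Set.range a).ncard ≤ 1 + 2 * j ∧ 1 + j ≤ c a := by
    intro j
    induction j with
    | zero =>
      intro _
      obtain ⟨x⟩ := ‹Nonempty J›
      refine ⟨fun _ => x, ?_, by simpa using h1 _⟩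
      rw [Set.range_const, Set.ncard_singleton]
    | succ j ih =>
      intro hj
      obtain ⟨a, ha1, ha2⟩ := ih (by omega)
      obtain ⟨b, hb1, hb2, hb3⟩ := hcon a (by omega)
      have h4 := h3 a b hb1
      refine ⟨b, by omega, ?_⟩
      have : c a < c b := lt_of_le_of_ne h4 (Ne.symm hb3)
      omega
  obtain ⟨a, _, ha⟩ := key B le_rfl
  have := h2 a
  omega

end Pool.Agent.Helper25.PH
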