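import Mathlib
import Pool.Agent.Helper96.Statement

/-!
# Project PH: definitions used in the statement

Graphs are relations `E : V → V → Prop` (directed graphs, loops allowed).
-/

set_option autoImplicit false
set_option linter.all false

namespace Pool.Agent.Helper25.PH

/-- homomorphisms of directed graphs -/
def IsHom {V W : Type} (E : V → V → Prop) (D : W → W → Prop) (f : V → W) : Prop :=
  ∀ u v, E u v → D (f u) (f v)

/-- there is a homomorphism -/
def HomTo {V W : Type} (E : V → V → Prop) (D : W → W → Prop) : Prop := ∃ f, IsHom E D f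

theorem HomTo.trans {V W X : Type} {E : V → V → Prop} {D : W → W → Prop} {C : X → X → Prop}
    (h : HomTo E D) (h' : HomTo D C) : HomTo E C := by
  obtain ⟨f, hf⟩ := h
  obtain ⟨g, hg⟩ := h'
  exact ⟨g ∘ f, fun u v h => hg _ _ (hf _ _ h)⟩

/-- the cycle with vertex set `ZMod m` -/
def Cyc (m : ℕ) (x y : ZMod m) : Prop := y = x + 1 ∨ x = y + 1

/-- the generalised Mycielskian with `r + 1` levels of the graph `E`. The vertices are the pairs
`(x, i)` (`x` a vertex of `E`, `i` a level `0, …, r`) and the apex `none`. -/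
def Myc (r : ℕ) {V : Type} (E : V → V → Prop) :
    Option (V × Fin (r + 1)) → Option (V × Fin (r + 1)) → Prop
  | some p, some q => E p.1 q.1 ∧
      ((p.2.1 = 0 ∧ q.2.1 = 0) ∨ q.2.1 = p.2.1 + 1 ∨ p.2.1 = q.2.1 + 1)
  | some p, none => p.2.1 = r
  | none, some q => q.2.1 = r
  | none, none => False

/-- a graph with its type of vertices -/
structure Gr where
  V : Type
  E : V → V → Prop

/-- the iterated generalised Mycielskian
`gmyc [r₁, …, r_k] X = M_{r₁}(M_{r₂}(… M_{r_k}(X)))`, where `M_r` has `r + 1` levels -/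
def gmyc : List ℕ → Gr → Gr
  | [], X => X
  | r :: rs, X => ⟨Option ((gmyc rs X).V × Fin (r + 1)), Myc r (gmyc rs X).E⟩

/-- the cycle as an object of `Gr` -/
def cyc (m : ℕ) : Gr := ⟨ZMod m, Cyc m⟩

open Classical in
/-- the adjacency matrix of a directed graph, row by row -/
noncomputable def code (n : ℕ) (A : Fin n → Fin n → Prop) : List Bool :=
  (List.finRange n).flatMap fun i => (List.finRange n).map fun j => decide (A i j)

/-- YES instances of `PCSP(G, H)` -/
def Yes {V : Type} (G : SimpleGraph V) : Set (List Bool) :=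
  {w | ∃ (n : ℕ) (A : Fin n → Fin n → Prop), w = code n A ∧ HomTo A G.Adj}

/-- NO instances of `PCSP(G, H)` -/
def No {V : Type} (H : SimpleGraph V) : Set (List Bool) :=
  {w | ∃ (n : ℕ) (A : Fin n → Fin n → Prop), w = code n A ∧ ¬ HomTo A H.Adj}

open Pool.Agent.Helper96 in
/-- `PCSP(G, H)` is NP-hard under polynomial time many-one reductions -/
def NPHardPCSP {V W : Type} (G : SimpleGraph V) (H : SimpleGraph W) : Prop :=
  ∀ L : Set (List Bool), InNP L → ∃ f : List Bool → List Bool, PolyTimeFun f ∧
    (∀ w, w ∈ L → f w ∈ Yes G) ∧ (∀ w, w ∉ L → f w ∈ No H)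

end Pool.Agent.Helper25.PH
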