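import Pool.Agent.Helper25.PH.Defs

/-! Module PH-20: systems of functions on flags, modulo 2 -/

set_option autoImplicit false
set_option linter.all false

namespace Pool.Agent.Helper25.PH

/-- pairs of sets of vertices, ordered by inclusion -/
abbrev PP (V : Type) := Set V × Set V

/-- both sets nonempty, and completely joined -/
def good {V : Type} (E : V → V → Prop) (p : PP V) : Prop :=
  p.1.Nonempty ∧ p.2.Nonempty ∧ ∀ a ∈ p.1, ∀ b ∈ p.2, E a b

/-- the swap -/
def tw {V : Type} (p : PP V) : PP V := (p.2, p.1)

/-- flags -/
def Fl {V : Type} (E : V → V → Prop) (l : List (PP V)) : Prop :=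
  List.IsChain (· ≤ ·) l ∧ ∀ p ∈ l, good E p

/-- the sum over the deletions of one entry -/
def dd {P : Type} : (List P → ZMod 2) → List P → ZMod 2
  | _, [] => 0
  | α, x :: l => α l + dd (fun m => α (x :: m)) l

/-- the prism: the sum over the lists `f x₀, …, f x_i, g x_i, …, g x_n` -/
def pr {Q P : Type} (f g : Q → P) : (List P → ZMod 2) → List Q → ZMod 2
  | _, [] => 0
  | α, x :: l => α (f x :: g x :: l.map g) + pr f g (fun m => α (f x :: m)) l

/-- an odd system of length `k` -/
structure Sys {V : Type} (E : V → V → Prop) (k : ℕ) where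
  α : List (PP V) → ZMod 2
  one : ∀ p, good E p → α [p] + α [tw p] = 1
  rel : ∀ l, Fl E l → 2 ≤ l.length → dd α l = α l + α (l.map tw)
  deg : ∀ (X Y : List (PP V)) (p : PP V), α (X ++ p :: p :: Y) = 0
  len : ∀ l, Fl E l → k + 1 < l.length → α l = 0

/-- PH-20a. -/
theorem dd_map {Q P : Type} (f : Q → P) (α : List P → ZMod 2) (l : List Q) :
    dd (fun m => α (m.map f)) l = dd α (l.map f) := by
  induction l generalizing α with
  | nil => rfl
  | cons x l ih =>
    show α (l.map f) + dd (fun m => α (f x :: m.map f)) l =
      α (l.map f) + dd (fun m => α (f x :: m)) (l.map f)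
    rw [ih (fun m => α (f x :: m))]

/-- PH-20b. -/
theorem dd_add {P : Type} (α β : List P → ZMod 2) (l : List P) :
    dd (fun m => α m + β m) l = dd α l + dd β l := by
  induction l generalizing α β with
  | nil => rfl
  | cons x l ih =>
    show α l + β l + dd (fun m => α (x :: m) + β (x :: m)) l =
      α l + dd (fun m => α (x :: m)) l + (β l + dd (fun m => β (x :: m)) l)
    rw [ih (fun m => α (x :: m)) (fun m => β (x :: m))]
    ring

/-- PH-20c. -/
theorem pr_add {Q P : Type} (f g : Q → P) (α β : List P → ZMod 2) (l : List Q) :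
    pr f g (fun m => α m + β m) l = pr f g α l + pr f g β l := by
  induction l generalizing α β with
  | nil => rfl
  | cons x l ih =>
    show α (f x :: g x :: l.map g) + β (f x :: g x :: l.map g) +
        pr f g (fun m => α (f x :: m) + β (f x :: m)) l =
      α (f x :: g x :: l.map g) + pr f g (fun m => α (f x :: m)) l +
        (β (f x :: g x :: l.map g) + pr f g (fun m => β (f x :: m)) l)
    rw [ih (fun m => α (f x :: m)) (fun m => β (f x :: m))]
    ring

/-- PH-20d. The prism identity. -/
theorem prism {Q P : Type} (f g : Q → P) (α : List P → ZMod 2) (l : List Q) :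
    dd (pr f g α) l + pr f g (dd α) l = α (l.map g) + α (l.map f) := by
  have h2 : (2 : ZMod 2) = 0 := by decide
  induction l generalizing α with
  | nil =>
    show (0 : ZMod 2) + 0 = α [] + α []
    linear_combination -(α []) * h2
  | cons x l ih =>
    have h1 : dd (pr f g α) (x :: l) = pr f g α l +
        (dd (fun m => α (f x :: g x :: m)) (l.map g) + dd (pr f g (fun m => α (f x :: m))) l) := by
      show pr f g α l + dd (fun m => α (f x :: g x :: m.map g) + pr f g (fun m => α (f x :: m)) m) l
        = _
      rw [dd_add (fun m => α (f x :: g x :: m.map g)) (fun m => pr f g (fun m => α (f x :: m)) m) l,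
        dd_map g (fun m => α (f x :: g x :: m)) l]
    have h3 : pr f g (dd α) (x :: l) = (α (g x :: l.map g) + (α (f x :: l.map g) +
        dd (fun m => α (f x :: g x :: m)) (l.map g))) +
        (pr f g α l + pr f g (dd (fun m => α (f x :: m))) l) := by
      show (α (g x :: l.map g) + (α (f x :: l.map g) +
        dd (fun m => α (f x :: g x :: m)) (l.map g))) +
        pr f g (fun m => α m + dd (fun m => α (f x :: m)) m) l = _
      rw [pr_add f g α (fun m => dd (fun m => α (f x :: m)) m) l]
    have h4 := ih (fun m => α (f x :: m))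
    rw [h1, h3, List.map_cons, List.map_cons]
    linear_combination h4 + (pr f g α l + dd (fun m => α (f x :: g x :: m)) (l.map g) +
      α (f x :: l.map g)) * h2

/-- PH-20e. -/
theorem pr_map_tw {Q V : Type} (f g : Q → PP V) (α : List (PP V) → ZMod 2) (l : List Q) :
    pr f g (fun m => α (m.map tw)) l = pr (fun q => tw (f q)) (fun q => tw (g q)) α l := by
  induction l generalizing α with
  | nil => rfl
  | cons x l ih =>
    show α (tw (f x) :: tw (g x) :: (l.map g).map tw) +
        pr f g (fun m => α (tw (f x) :: m.map tw)) l =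
      α (tw (f x) :: tw (g x) :: l.map (fun q => tw (g q))) +
        pr (fun q => tw (f q)) (fun q => tw (g q)) (fun m => α (tw (f x) :: m)) l
    rw [List.map_map, ih (fun m => α (tw (f x) :: m))]
    rfl

/-- PH-20f. -/
theorem pr_comp {Q Q' P : Type} (f g : Q → P) (j : Q' → Q) (α : List P → ZMod 2)
    (l : List Q') : pr f g α (l.map j) = pr (fun q => f (j q)) (fun q => g (j q)) α l := by
  induction l generalizing α with
  | nil => rfl
  | cons x l ih =>
    show α (f (j x) :: g (j x) :: (l.map j).map g) + pr f g (fun m => α (f (j x) :: m)) (l.map j) =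
      α (f (j x) :: g (j x) :: l.map (fun q => g (j q))) +
        pr (fun q => f (j q)) (fun q => g (j q)) (fun m => α (f (j x) :: m)) l
    rw [List.map_map, ih (fun m => α (f (j x) :: m))]
    rfl

theorem pr_congr_aux {Q V : Type} {E : V → V → Prop} [Preorder Q] (f g : Q → PP V)
    (α β : List (PP V) → ZMod 2) (l : List Q) (hl : l.Pairwise (· ≤ ·))
    (hf : ∀ p q, p ∈ l → q ∈ l → p ≤ q → f p ≤ f q) (hg : ∀ p q, p ∈ l → q ∈ l → p ≤ q → g p ≤ g q)
    (hfg : ∀ p ∈ l, f p ≤ g p) (hf' : ∀ p ∈ l, good E (f p)) (hg' : ∀ p ∈ l, good E (g p)) :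
    ∀ pre : List (PP V), pre.Pairwise (· ≤ ·) → (∀ p ∈ pre, good E p) →
      (∀ p ∈ pre, ∀ q ∈ l, p ≤ f q) →
      (∀ m, Fl E m → m.length = pre.length + l.length + 1 → α m = β m) →
      pr f g (fun m => α (pre ++ m)) l = pr f g (fun m => β (pre ++ m)) l := by
  induction l with
  | nil => intro pre _ _ _ _; rfl
  | cons x l ih =>
    intro pre hp1 hp2 hp3 h
    have hl' := List.pairwise_cons.1 hl
    show α (pre ++ (f x :: g x :: l.map g)) + pr f g (fun m => α (pre ++ (f x :: m))) l =
      β (pre ++ (f x :: g x :: l.map g)) + pr f g (fun m => β (pre ++ (f x :: m))) l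
    have hx : x ∈ x :: l := List.mem_cons_self
    have hmem : ∀ y ∈ l, y ∈ x :: l := fun y hy => List.mem_cons_of_mem _ hy
    have e1 : α (pre ++ (f x :: g x :: l.map g)) = β (pre ++ (f x :: g x :: l.map g)) := by
      refine h _ ⟨?_, ?_⟩ ?_
      · rw [List.isChain_iff_pairwise, List.pairwise_append]
        refine ⟨hp1, ?_, ?_⟩
        · rw [List.pairwise_cons, List.pairwise_cons, List.pairwise_map]
          refine ⟨?_, ?_, ?_⟩
          · intro a ha
            rcases List.mem_cons.1 ha with rfl | ha
            · exact hfg x hx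
            · obtain ⟨y, hy, rfl⟩ := List.mem_map.1 ha
              exact (hfg x hx).trans (hg x y hx (hmem y hy) (hl'.1 y hy))
          · intro a ha
            obtain ⟨y, hy, rfl⟩ := List.mem_map.1 ha
            exact hg x y hx (hmem y hy) (hl'.1 y hy)
          · refine List.Pairwise.imp_of_mem ?_ hl'.2
            intro a b ha hb hab
            exact hg a b (hmem a ha) (hmem b hb) hab
        · intro a ha b hb
          have hax := hp3 a ha x hx
          rcases List.mem_cons.1 hb with rfl | hb
          · exact hax
          · rcases List.mem_cons.1 hb with rfl | hb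
            · exact hax.trans (hfg x hx)
            · obtain ⟨y, hy, rfl⟩ := List.mem_map.1 hb
              exact (hp3 a ha y (hmem y hy)).trans (hfg y (hmem y hy))
      · intro p hp
        rcases List.mem_append.1 hp with hp | hp
        · exact hp2 p hp
        · rcases List.mem_cons.1 hp with rfl | hp
          · exact hf' x hx
          · rcases List.mem_cons.1 hp with rfl | hp
            · exact hg' x hx
            · obtain ⟨y, hy, rfl⟩ := List.mem_map.1 hp
              exact hg' y (hmem y hy)
      · simp only [List.length_append, List.length_cons, List.length_map]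
        omega
    have e2 := ih hl'.2 (fun p q hp hq => hf p q (hmem p hp) (hmem q hq))
      (fun p q hp hq => hg p q (hmem p hp) (hmem q hq)) (fun p hp => hfg p (hmem p hp))
      (fun p hp => hf' p (hmem p hp)) (fun p hp => hg' p (hmem p hp)) (pre ++ [f x])
      (by
        rw [List.pairwise_append]
        refine ⟨hp1, List.pairwise_singleton _ _, ?_⟩
        intro a ha b hb
        rw [List.mem_singleton.1 hb]
        exact hp3 a ha x hx)
      (by
        intro p hp
        rcases List.mem_append.1 hp with hp | hp
        · exact hp2 p hp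
        · rw [List.mem_singleton.1 hp]
          exact hf' x hx)
      (by
        intro p hp q hq
        rcases List.mem_append.1 hp with hp | hp
        · exact hp3 p hp q (hmem q hq)
        · rw [List.mem_singleton.1 hp]
          exact hf x q hx (hmem q hq) (hl'.1 q hq))
      (by
        intro m hm hlen
        refine h m hm ?_
        rw [hlen]
        simp only [List.length_append, List.length_cons, List.length_nil]
        omega)
    have e3 : ∀ (γ : List (PP V) → ZMod 2), (fun m => γ (pre ++ [f x] ++ m)) =
        (fun m => γ (pre ++ (f x :: m))) := by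
      intro γ
      funext m
      rw [List.append_assoc]
      rfl
    rw [e3, e3] at e2
    rw [e1, e2]

/-- PH-20g. The prism of a list only depends on the values on the lists of the prism; these
are flags if `f ≤ g` on the flag `l`. -/
theorem pr_congr {Q V : Type} {E : V → V → Prop} [Preorder Q] (f g : Q → PP V)
    (α β : List (PP V) → ZMod 2) (l : List Q) (hl : List.IsChain (· ≤ ·) l)
    (hf : ∀ p q, p ∈ l → q ∈ l → p ≤ q → f p ≤ f q) (hg : ∀ p q, p ∈ l → q ∈ l → p ≤ q → g p ≤ g q)
    (hfg : ∀ p ∈ l, f p ≤ g p) (hf' : ∀ p ∈ l, good E (f p)) (hg' : ∀ p ∈ l, good E (g p))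
    (h : ∀ m, Fl E m → m.length = l.length + 1 → α m = β m) : pr f g α l = pr f g β l := by
  have hl' : l.Pairwise (· ≤ ·) := List.isChain_iff_pairwise.1 hl
  exact pr_congr_aux (E := E) f g α β l hl' hf hg hfg hf' hg' [] List.Pairwise.nil
    (fun p hp => absurd hp List.not_mem_nil) (fun p hp => absurd hp List.not_mem_nil)
    (fun m hm hlen => h m hm (by simpa using hlen))

theorem pr_zero {Q P : Type} (f g : Q → P) (α : List P → ZMod 2) (hα : ∀ m, α m = 0)
    (l : List Q) : pr f g α l = 0 := by
  induction l generalizing α with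
  | nil => rfl
  | cons x l ih =>
    show α (f x :: g x :: l.map g) + pr f g (fun m => α (f x :: m)) l = 0
    rw [hα, ih (fun m => α (f x :: m)) (fun m => hα _), add_zero]

/-- PH-20h. The prism vanishes on lists with a repetition. -/
theorem pr_deg {Q P : Type} (f g : Q → P) (α : List P → ZMod 2)
    (hα : ∀ (X Y : List P) (p : P), α (X ++ p :: p :: Y) = 0) (X Y : List Q) (q : Q) :
    pr f g α (X ++ q :: q :: Y) = 0 := by
  induction X generalizing α with
  | nil =>
    show α (f q :: g q :: g q :: Y.map g) + (α (f q :: f q :: g q :: Y.map g) +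
      pr f g (fun m => α (f q :: f q :: m)) Y) = 0
    have h1 := hα [f q] (Y.map g) (g q)
    have h2 := hα [] (g q :: Y.map g) (f q)
    have h3 := pr_zero f g (fun m => α (f q :: f q :: m)) (fun m => hα [] m (f q)) Y
    rw [h3]
    simp only [List.cons_append, List.nil_append] at h1 h2
    rw [h1, h2]
    simp
  | cons x X ih =>
    show α (f x :: g x :: (X ++ q :: q :: Y).map g) +
      pr f g (fun m => α (f x :: m)) (X ++ q :: q :: Y) = 0
    have h1 := hα (f x :: g x :: X.map g) (Y.map g) (g q)
    have h2 := ih (fun m => α (f x :: m)) (fun A B p => hα (f x :: A) B p)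
    rw [h2, List.map_append, List.map_cons, List.map_cons]
    simp only [List.cons_append] at h1
    rw [h1, add_zero]

end Pool.Agent.Helper25.PH
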