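import Pool.Agent.Helper25.PH.SysDefs

/-! Module PH-21: the system of the complete graph -/

set_option autoImplicit false
set_option linter.all false

namespace Pool.Agent.Helper25.PH

namespace SysK

open Classical in
/-- the sign of a pair: the minimum of the union lies in the first set -/
noncomputable def sgn {n : ℕ} (p : PP (Fin n)) : Bool :=
  decide (∃ a ∈ p.1, ∀ b ∈ p.2, a ≤ b)

/-- alternating lists of signs starting with `b` -/
def alt : Bool → List Bool → ZMod 2
  | _, [] => 1
  | b, x :: s => if x = b then alt (!b) s else 0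

theorem dd_zero {P : Type} (l : List P) : dd (fun _ => (0 : ZMod 2)) l = 0 := by
  induction l with
  | nil => rfl
  | cons x l ih => simp only [dd, ih, add_zero]

theorem dd_alt : ∀ (s : List Bool), 2 ≤ s.length → ∀ b : Bool,
    dd (alt b) s = alt b s + alt (!b) s
  | [], h, _ => by simp at h
  | [_], h, _ => by simp at h
  | x :: y :: t, _, b => by
    have key : dd (alt b) (x :: y :: t) = alt b (y :: t) +
        (if x = b then dd (alt (!b)) (y :: t) else 0) := by
      by_cases hx : x = b
      · rw [if_pos hx]
        show alt b (y :: t) + dd (fun m => alt b (x :: m)) (y :: t) = _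
        have : (fun m => alt b (x :: m)) = alt (!b) := by
          funext m
          simp only [alt, hx, if_true]
        rw [this]
      · rw [if_neg hx]
        show alt b (y :: t) + dd (fun m => alt b (x :: m)) (y :: t) = _
        have : (fun m => alt b (x :: m)) = fun _ => (0 : ZMod 2) := by
          funext m
          simp only [alt, if_neg hx]
        rw [this, dd_zero]
    rw [key]
    rcases t with _ | ⟨z, t⟩
    · cases b <;> cases x <;> cases y <;> simp [alt, dd] <;> decide
    · have ih := dd_alt (y :: z :: t) (by simp) (!b)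
      rw [ih]
      by_cases hx : x = b
      · have hx' : ¬ (x = !b) := by rw [hx]; cases b <;> simp
        simp only [hx, if_true, Bool.not_not]
        have e1 : alt b (b :: y :: z :: t) = alt (!b) (y :: z :: t) := by
          simp only [alt, if_true]
        have e2 : alt (!b) (b :: y :: z :: t) = 0 := by
          rw [alt, if_neg (by cases b <;> simp)]
        rw [e1, e2]
        have h2 : ∀ u v : ZMod 2, u + (v + u) = v + 0 := by decide
        exact h2 _ _
      · have hx' : x = !b := by cases x <;> cases b <;> simp_all
        rw [if_neg hx]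
        have e1 : alt b (x :: y :: z :: t) = 0 := by
          rw [alt, if_neg hx]
        have e2 : alt (!b) (x :: y :: z :: t) = alt b (y :: z :: t) := by
          rw [alt, if_pos hx', Bool.not_not]
        rw [e1, e2, add_zero, zero_add]

theorem alt_rep (S T : List Bool) (c : Bool) : ∀ b : Bool, alt b (S ++ c :: c :: T) = 0 := by
  induction S with
  | nil =>
    intro b
    simp only [List.nil_append, alt]
    cases b <;> cases c <;> simp
  | cons x S ih =>
    intro b
    simp only [List.cons_append, alt, ih]
    split_ifs <;> rfl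

theorem alt_not (s : List Bool) : ∀ b : Bool, alt b (s.map (fun x => !x)) = alt (!b) s := by
  induction s with
  | nil => intro b; rfl
  | cons x s ih =>
    intro b
    simp only [List.map_cons, alt, ih]
    cases b <;> cases x <;> simp

/-- the minimum of the union -/
def IsMin {n : ℕ} (p : PP (Fin n)) (m : Fin n) : Prop :=
  (m ∈ p.1 ∨ m ∈ p.2) ∧ (∀ x ∈ p.1, m ≤ x) ∧ ∀ x ∈ p.2, m ≤ x

theorem exists_min {n : ℕ} (p : PP (Fin n)) (h : p.1.Nonempty) : ∃ m, IsMin p m := by
  classical
  obtain ⟨m, hm, hmin⟩ := Set.exists_min_image (p.1 ∪ p.2) id (Set.toFinite _)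
    (h.mono Set.subset_union_left)
  exact ⟨m, hm, fun x hx => hmin x (Or.inl hx), fun x hx => hmin x (Or.inr hx)⟩

theorem sgn_true {n : ℕ} {p : PP (Fin n)} {m : Fin n} (hg : good (fun a b : Fin n => a ≠ b) p)
    (hm : IsMin p m) : sgn p = true ↔ m ∈ p.1 := by
  classical
  unfold sgn
  simp only [decide_eq_true_eq]
  constructor
  · rintro ⟨a, ha, hab⟩
    rcases hm.1 with h1 | h2
    · exact h1
    · exact absurd (le_antisymm (hab m h2) (hm.2.1 a ha)) (hg.2.2 a ha m h2)
  · intro h
    exact ⟨m, h, hm.2.2⟩

theorem good_tw {n : ℕ} {p : PP (Fin n)} (hg : good (fun a b : Fin n => a ≠ b) p) :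
    good (fun a b : Fin n => a ≠ b) (tw p) :=
  ⟨hg.2.1, hg.1, fun a ha b hb h => hg.2.2 b hb a ha h.symm⟩

theorem sgn_tw {n : ℕ} {p : PP (Fin n)} (hg : good (fun a b : Fin n => a ≠ b) p) :
    sgn (tw p) = !sgn p := by
  obtain ⟨m, hm⟩ := exists_min p hg.1
  have hm' : IsMin (tw p) m := ⟨hm.1.symm, hm.2.2, hm.2.1⟩
  have h1 := sgn_true hg hm
  have h2 := sgn_true (good_tw hg) hm'
  have h3 : m ∈ (tw p).1 ↔ ¬ m ∈ p.1 := by
    constructor
    · intro h h'
      exact hg.2.2 m h' m h rfl
    · intro h
      rcases hm.1 with h1 | h1
      · exact absurd h1 h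
      · exact h1
  rw [h3, ← h1] at h2
  cases h4 : sgn p <;> simp_all

theorem len_aux {n : ℕ} : ∀ (l : List (PP (Fin n))) (p : PP (Fin n)) (m : Fin n) (b : Bool),
    Fl (fun a b : Fin n => a ≠ b) (p :: l) → alt b ((p :: l).map sgn) ≠ 0 → IsMin p m →
    l.length ≤ m.val
  | [], _, _, _, _, _, _ => by simp
  | q :: l, p, m, b, hF, ha, hm => by
    have hp : good (fun a b : Fin n => a ≠ b) p := hF.2 p (by simp)
    have hq : good (fun a b : Fin n => a ≠ b) q := hF.2 q (by simp)
    obtain ⟨m', hm'⟩ := exists_min q hq.1
    have hpq : p ≤ q := by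
      have := hF.1
      rw [List.isChain_cons_cons] at this
      exact this.1
    have hF' : Fl (fun a b : Fin n => a ≠ b) (q :: l) := by
      refine ⟨?_, fun r hr => hF.2 r (List.mem_cons_of_mem _ hr)⟩
      have := hF.1
      rw [List.isChain_cons_cons] at this
      exact this.2
    simp only [List.map_cons, alt] at ha
    have hsp : sgn p = b := by
      by_contra h
      rw [if_neg h] at ha
      exact ha rfl
    rw [if_pos hsp] at ha
    have hsq : sgn q = !b := by
      by_contra h
      rw [if_neg h] at ha
      exact ha rfl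
    have ha' : alt (!b) ((q :: l).map sgn) ≠ 0 := by
      simpa only [List.map_cons, alt] using ha
    have ih := len_aux l q m' (!b) hF' ha' hm'
    have hle : m' ≤ m := by
      rcases hm.1 with h | h
      · exact hm'.2.1 m (hpq.1 h)
      · exact hm'.2.2 m (hpq.2 h)
    have hne : m' ≠ m := by
      intro h
      subst h
      have h1 := sgn_true hp hm
      have h2 := sgn_true hq hm'
      have h3 : m' ∈ q.1 ↔ m' ∈ p.1 := by
        constructor
        · intro h
          rcases hm.1 with h4 | h4
          · exact h4
          · exact absurd rfl (hq.2.2 m' h m' (hpq.2 h4))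
        · intro h
          exact hpq.1 h
      rw [h3, ← h1, hsp, hsq] at h2
      cases b <;> simp at h2
    have hlt : m' < m := lt_of_le_of_ne hle hne
    have : m'.val < m.val := hlt
    simp only [List.length_cons]
    omega

end SysK

open SysK in
/-- PH-21. The complete graph on `k + 2` vertices has an odd system of length `k`. -/
theorem sys_complete (k : ℕ) : Nonempty (Sys (fun a b : Fin (k + 2) => a ≠ b) k) := by
  refine ⟨⟨fun l => alt true (l.map sgn), ?_, ?_, ?_, ?_⟩⟩
  · intro p hp
    have h := sgn_tw hp
    show alt true [sgn p] + alt true [sgn (tw p)] = 1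
    rw [h]
    cases sgn p <;> simp [alt]
  · intro l hl h2
    show dd (fun m => alt true (m.map sgn)) l = alt true (l.map sgn) + alt true ((l.map tw).map sgn)
    rw [dd_map sgn (alt true) l, dd_alt _ (by simpa using h2)]
    congr 1
    have : (l.map tw).map sgn = (l.map sgn).map (fun x => !x) := by
      rw [List.map_map, List.map_map]
      apply List.map_congr_left
      intro p hp
      exact sgn_tw (hl.2 p hp)
    rw [this, alt_not]
  · intro X Y p
    show alt true ((X ++ p :: p :: Y).map sgn) = 0
    rw [List.map_append, List.map_cons, List.map_cons]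
    exact alt_rep _ _ _ _
  · intro l hl hlen
    rcases l with _ | ⟨p, l⟩
    · simp at hlen
    · by_contra hne
      have hp : good (fun a b : Fin (k + 2) => a ≠ b) p := hl.2 p (by simp)
      obtain ⟨m, hm⟩ := exists_min p hp.1
      have h1 := len_aux l p m true hl hne hm
      have h2 : m.val ≤ k := by
        by_contra hk
        rw [not_le] at hk
        obtain ⟨a, ha⟩ := hp.1
        obtain ⟨b, hb⟩ := hp.2.1
        have h3 : m.val ≤ a.val := hm.2.1 a ha
        have h4 : m.val ≤ b.val := hm.2.2 b hb
        have h5 := a.2
        have h6 := b.2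
        exact hp.2.2 a ha b hb (Fin.ext (by omega))
      simp only [List.length_cons] at hlen
      omega

end Pool.Agent.Helper25.PH
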